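import Pool.Agent.HKO.Targets

/-! Exponentials of nilpotent operators and commutators. -/

open scoped TensorProduct

namespace Pool.Agent.HKO

noncomputable section

section General

variable {R W : Type*} [CommRing R] [AddCommGroup W] [Module R W] [Module ℚ W]
  [SMulCommClass R ℚ W]

lemma cm_eq (a m : Module.End R W) :
    cm a m = (LinearMap.mulLeft R a + LinearMap.mulRight R (-a)) m := by
  simp [cm, sub_eq_add_neg]

lemma nil_mulLeft {a : Module.End R W} (ha : IsNilpotent a) :
    IsNilpotent (LinearMap.mulLeft R a) := by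
  obtain ⟨k, hk⟩ := ha
  exact ⟨k, by rw [LinearMap.pow_mulLeft, hk]; ext; simp⟩

lemma nil_mulRight {a : Module.End R W} (ha : IsNilpotent a) :
    IsNilpotent (LinearMap.mulRight R a) := by
  obtain ⟨k, hk⟩ := ha
  exact ⟨k, by rw [LinearMap.pow_mulRight, hk]; ext; simp⟩

lemma exp_mulLeft {a : Module.End R W} (ha : IsNilpotent a) (m : Module.End R W) :
    IsNilpotent.exp (LinearMap.mulLeft R a) m = IsNilpotent.exp a * m := by
  obtain ⟨k, hk⟩ := ha
  have h1 : (LinearMap.mulLeft R a) ^ k = 0 := by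
    rw [LinearMap.pow_mulLeft, hk]; ext; simp
  rw [IsNilpotent.exp_eq_sum hk, IsNilpotent.exp_eq_sum h1]
  ext x
  simp [LinearMap.pow_mulLeft]

lemma exp_mulRight {a : Module.End R W} (ha : IsNilpotent a) (m : Module.End R W) :
    IsNilpotent.exp (LinearMap.mulRight R a) m = m * IsNilpotent.exp a := by
  obtain ⟨k, hk⟩ := ha
  have h1 : (LinearMap.mulRight R a) ^ k = 0 := by
    rw [LinearMap.pow_mulRight, hk]; ext; simp
  rw [IsNilpotent.exp_eq_sum hk, IsNilpotent.exp_eq_sum h1]
  ext x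
  simp [LinearMap.pow_mulRight, map_rat_smul]

lemma comm_lr (a b : Module.End R W) :
    Commute (LinearMap.mulLeft R a) (LinearMap.mulRight R b) :=
  LinearMap.commute_mulLeft_right a b

lemma nil_ad {a : Module.End R W} (ha : IsNilpotent a) :
    IsNilpotent (LinearMap.mulLeft R a + LinearMap.mulRight R (-a)) :=
  (comm_lr a (-a)).isNilpotent_add (nil_mulLeft ha) (nil_mulRight ha.neg)

/-- Conjugation by `exp a` is the exponential of the commutator with `a`. -/
lemma conj_exp {a : Module.End R W} (ha : IsNilpotent a) (m : Module.End R W) :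
    IsNilpotent.exp a * m * IsNilpotent.exp (-a) =
      IsNilpotent.exp (LinearMap.mulLeft R a + LinearMap.mulRight R (-a)) m := by
  rw [IsNilpotent.exp_add_of_commute (comm_lr a (-a)) (nil_mulLeft ha) (nil_mulRight ha.neg)]
  rw [Module.End.mul_apply, exp_mulRight ha.neg, exp_mulLeft ha, mul_assoc]

end General

section Tensor

variable {U : Type*} [AddCommGroup U] [Module ℚ U]

lemma exp_lT {w : Module.End ℚ U} (hn : IsNilpotent w) :
    IsNilpotent.exp (w.lTensor U) = (IsNilpotent.exp w).lTensor U :=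
  (hn.map_exp (Module.End.lTensorAlgHom ℚ U U)).symm

lemma exp_rT {w : Module.End ℚ U} (hn : IsNilpotent w) :
    IsNilpotent.exp (w.rTensor U) = (IsNilpotent.exp w).rTensor U :=
  (hn.map_exp (Module.End.rTensorAlgHom ℚ U U)).symm

end Tensor

theorem p_AD (W : Type*) [AddCommGroup W] [Module ℚ W] [Module ℂ W] [IsScalarTower ℚ ℂ W] :
    T_AD W := by
  intro N a ha hs m hm
  rw [conj_exp ha]
  obtain ⟨k, hk⟩ := nil_ad ha
  rw [IsNilpotent.exp_eq_sum hk, LinearMap.sum_apply]
  refine N.sum_mem fun i hi => ?_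
  clear hi
  rw [LinearMap.smul_apply]
  refine N.smul_of_tower_mem _ ?_
  induction i with
  | zero => simpa using hm
  | succ i ih =>
    rw [pow_succ', Module.End.mul_apply, ← cm_eq]
    exact hs _ ih

variable {n : ℕ} {V A V' A' : Type*} [AddCommGroup V] [Module ℚ V] [Ring A] [Algebra ℚ A]
  [AddCommGroup V'] [Module ℚ V'] [Ring A'] [Algebra ℚ A']

theorem p_CONJ (X : HKCohomology n V A) : T_CONJ X := by
  intro u v z t hP hn
  set P := X.act u v with hPdef
  set w := wedge X.q u v with hw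
  let G : Module.End ℚ (Module.End ℚ A) := LinearMap.mulLeft ℚ P + LinearMap.mulRight ℚ (-P)
  let DL : Module.End ℚ (Mk V ⊗[ℚ] Mk V) := w.lTensor (Mk V)
  let DR : Module.End ℚ (Mk V ⊗[ℚ] Mk V) := w.rTensor (Mk V)
  let Bt : (Mk V ⊗[ℚ] Mk V) →ₗ[ℚ] Module.End ℚ A := TensorProduct.lift X.act
  have h_nilL : IsNilpotent DL := hn.map <| Module.End.lTensorAlgHom ℚ (Mk V) (Mk V)
  have h_nilR : IsNilpotent DR := hn.map <| Module.End.rTensorAlgHom ℚ (Mk V) (Mk V)
  have h_comm : Commute DL DR := by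
    apply TensorProduct.ext'
    intro a b
    simp [DL, DR]
  have h_nilG : IsNilpotent G := nil_ad hP
  have hcomp : G ∘ₗ Bt = Bt ∘ₗ (DL + DR) := by
    apply TensorProduct.ext'
    intro a b
    have := X.act_lie u v a b
    simp only [LinearMap.comp_apply, G, Bt, DL, DR, TensorProduct.lift.tmul, LinearMap.add_apply,
      LinearMap.lTensor_tmul, LinearMap.rTensor_tmul, map_add, LinearMap.mulLeft_apply,
      LinearMap.mulRight_apply]
    have e1 : (X.act a) b * (-(X.act u) v) = - ((X.act a) b * (X.act u) v) := by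
      ext x; simp
    have e2 : P = X.act u v := rfl
    rw [e2, e1, ← sub_eq_add_neg, this, hw]
    abel
  have hexp := Module.End.commute_exp_left_of_commute
    (h_comm.isNilpotent_add h_nilL h_nilR) h_nilG hcomp
  have h1 := LinearMap.congr_fun hexp (z ⊗ₜ[ℚ] t)
  have h0 : IsNilpotent.exp (DL + DR) = IsNilpotent.exp DL * IsNilpotent.exp DR :=
    IsNilpotent.exp_add_of_commute h_comm h_nilL h_nilR
  have h2 : IsNilpotent.exp DL = (IsNilpotent.exp w).lTensor (Mk V) :=
    exp_lT hn
  have h3 : IsNilpotent.exp DR = (IsNilpotent.exp w).rTensor (Mk V) :=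
    exp_rT hn
  have h4 : IsNilpotent.exp (DL + DR) (z ⊗ₜ[ℚ] t) =
      (IsNilpotent.exp w z) ⊗ₜ[ℚ] (IsNilpotent.exp w t) := by
    rw [h0, h2, h3]; simp
  rw [LinearMap.comp_apply, LinearMap.comp_apply, h4] at h1
  have h5 : Bt (z ⊗ₜ[ℚ] t) = X.act z t := by simp [Bt]
  have h6 : Bt ((IsNilpotent.exp w z) ⊗ₜ[ℚ] (IsNilpotent.exp w t)) =
      X.act (IsNilpotent.exp w z) (IsNilpotent.exp w t) := by simp [Bt]
  rw [h5, h6, ← conj_exp hP] at h1
  rw [← h1, mul_assoc, mul_assoc, IsNilpotent.exp_neg_mul_exp_self hP, mul_one]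

end

end Pool.Agent.HKO
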