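import Pool.Agent.HKO.Ad

/-! Basic facts: the Mukai form, gradings, centrality of `H²`. -/

open scoped TensorProduct

namespace Pool.Agent.HKO

noncomputable section

section Mukai

variable {V : Type*} [AddCommGroup V] [Module ℚ V] (q : V →ₗ[ℚ] V →ₗ[ℚ] ℚ)

@[simp] lemma mform_apply (u v : Mk V) :
    mform q u v = q u.2.1 v.2.1 - u.1 * v.2.2 - u.2.2 * v.1 := rfl

@[simp] lemma emb_apply (x : V) : emb x = ((0, x, 0) : Mk V) := rfl

@[simp] lemma wedge_apply (u v z : Mk V) :
    wedge q u v z = mform q v z • u - mform q u z • v := by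
  simp [wedge]

lemma mform_symm (hq : ∀ x y, q x y = q y x) (u v : Mk V) : mform q u v = mform q v u := by
  simp only [mform_apply, hq u.2.1 v.2.1]; ring

lemma mform_wedge (hq : ∀ x y, q x y = q y x) (u v z t : Mk V) :
    mform q (wedge q u v z) t = - mform q z (wedge q u v t) := by
  rw [wedge_apply, wedge_apply, map_sub, map_smul, map_smul, LinearMap.sub_apply,
    LinearMap.smul_apply, LinearMap.smul_apply, map_sub, map_smul, map_smul,
    mform_symm q hq z u, mform_symm q hq z v]
  simp only [smul_eq_mul]
  rw [mform_symm q hq v t, mform_symm q hq u t, mform_symm q hq t v, mform_symm q hq t u]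
  ring

lemma mform_pow {w : Module.End ℚ (Mk V)}
    (hw : ∀ z t, mform q (w z) t = - mform q z (w t)) (k : ℕ) (z t : Mk V) :
    mform q ((w ^ k) z) t = mform q z (((-w) ^ k) t) := by
  induction k generalizing z t with
  | zero => simp only [pow_zero, Module.End.one_apply]
  | succ k ih =>
    rw [pow_succ, Module.End.mul_apply, ih, pow_succ', Module.End.mul_apply, hw,
      LinearMap.neg_apply, map_neg]

lemma mform_exp {w : Module.End ℚ (Mk V)} (hn : IsNilpotent w)
    (hw : ∀ z t, mform q (w z) t = - mform q z (w t)) (z t : Mk V) :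
    mform q (IsNilpotent.exp w z) (IsNilpotent.exp w t) = mform q z t := by
  have h1 : ∀ z t, mform q (IsNilpotent.exp w z) t = mform q z (IsNilpotent.exp (-w) t) := by
    intro z t
    obtain ⟨k₁, hk₁⟩ := hn
    obtain ⟨k₂, hk₂⟩ := IsNilpotent.neg (x := w) ⟨k₁, hk₁⟩
    have hk : w ^ (max k₁ k₂) = 0 := pow_eq_zero_of_le (le_max_left _ _) hk₁
    have hk' : (-w) ^ (max k₁ k₂) = 0 := pow_eq_zero_of_le (le_max_right _ _) hk₂
    rw [IsNilpotent.exp_eq_sum hk, IsNilpotent.exp_eq_sum hk']
    simp only [LinearMap.sum_apply, map_sum, LinearMap.smul_apply, map_smul]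
    exact Finset.sum_congr rfl fun i _ => by rw [mform_pow q hw]
  rw [h1, ← Module.End.mul_apply, IsNilpotent.exp_neg_mul_exp_self hn, Module.End.one_apply]

end Mukai

variable {n : ℕ} {V A V' A' : Type*} [AddCommGroup V] [Module ℚ V] [Ring A] [Algebra ℚ A]
  [AddCommGroup V'] [Module ℚ V'] [Ring A'] [Algebra ℚ A']

lemma cup_eq (X : HKCohomology n V A) (x : V) : X.cup x = X.act be (emb x) := by
  ext a
  rw [X.act_cup]
  rfl

lemma lam_eq (X : HKCohomology n V A) (x : V) : X.lam x = X.act al (emb x) := rfl

lemma cup_apply (X : HKCohomology n V A) (x : V) (a : A) : X.cup x a = X.cls x * a := rfl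

lemma decomp_act (X : HKCohomology n V A) (a : A) (j : ℕ) :
    letI := X.graded
    (DirectSum.decompose X.gr (X.act al be a) j : A) =
      ((j : ℚ) / 2 - n) • (DirectSum.decompose X.gr a j : A) := by
  let := X.graded
  induction a using DirectSum.Decomposition.inductionOn X.gr with
  | zero => simp
  | @homogeneous i m =>
    rw [X.act_deg i m.1 m.2]
    by_cases h : i = j
    · subst h
      rw [DirectSum.decompose_smul, DirectSum.smul_apply]
      rfl
    · rw [DirectSum.decompose_smul, DirectSum.smul_apply, Submodule.coe_smul,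
        DirectSum.decompose_of_mem_ne X.gr m.2 h, smul_zero, smul_zero]
  | add m m' h h' =>
    rw [map_add, DirectSum.decompose_add, DirectSum.decompose_add, DirectSum.add_apply,
      DirectSum.add_apply, Submodule.coe_add, Submodule.coe_add, h, h', smul_add]

lemma mem_gr_iff (X : HKCohomology n V A) (i : ℕ) (a : A) :
    a ∈ X.gr i ↔ X.act al be a = ((i : ℚ) / 2 - n) • a := by
  let := X.graded
  refine ⟨X.act_deg i a, fun h => ?_⟩
  have h1 : ∀ j, j ≠ i → (DirectSum.decompose X.gr a j : A) = 0 := by
    intro j hj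
    have h2 := decomp_act X a j
    rw [h, DirectSum.decompose_smul, DirectSum.smul_apply, Submodule.coe_smul] at h2
    have h3 : (((i : ℚ) - j) / 2) • (DirectSum.decompose X.gr a j : A) = 0 := by
      have : (((i : ℚ) - j) / 2) = ((i : ℚ) / 2 - n) - ((j : ℚ) / 2 - n) := by ring
      rw [this, sub_smul, h2, sub_self]
    refine (smul_eq_zero.mp h3).resolve_left ?_
    have : (i : ℚ) - j ≠ 0 := sub_ne_zero.mpr (by exact_mod_cast (Ne.symm hj))
    positivity
  have h4 : a = (DirectSum.decompose X.gr a i : A) := by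
    classical
    conv_lhs => rw [← DirectSum.sum_support_decompose X.gr a]
    by_cases hi : i ∈ (DirectSum.decompose X.gr a).support
    · rw [Finset.sum_eq_single i (fun j _ hj => h1 j hj) (fun h => absurd hi h)]
    · rw [Finset.sum_eq_zero (fun j hj => h1 j (fun h => hi (h ▸ hj)))]
      rw [DFinsupp.notMem_support_iff.mp hi]; rfl
  rw [h4]
  exact (DirectSum.decompose X.gr a i).2

lemma central (X : HKCohomology n V A) (x : V) (a : A) : X.cls x * a = a * X.cls x := by
  let := X.graded
  have hx : X.cls x ∈ X.gr 2 := X.cls_range ▸ LinearMap.mem_range_self _ x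
  induction a using DirectSum.Decomposition.inductionOn X.gr with
  | zero => simp
  | @homogeneous i m =>
    rw [X.comm 2 i _ _ hx m.2, Even.neg_one_pow (by simp), one_smul]
  | add m m' h h' => rw [mul_add, add_mul, h, h']

end

end Pool.Agent.HKO
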