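import Pool.Agent.HKO.Basic

/-! The complexified action of `so` of the Mukai form. -/

open scoped TensorProduct

namespace Pool.Agent.HKO

noncomputable section

section Forms

variable {V : Type*} [AddCommGroup V] [Module ℚ V]

/-- The complex bilinear extension of the Mukai form. -/
def mformC (q : V →ₗ[ℚ] V →ₗ[ℚ] ℚ) : (ℂ ⊗[ℚ] Mk V) →ₗ[ℂ] (ℂ ⊗[ℚ] Mk V) →ₗ[ℂ] ℂ :=
  LinearMap.BilinForm.baseChange ℂ (mform q)

/-- The complexified `u ∧ v`. -/
def wedgeC (q : V →ₗ[ℚ] V →ₗ[ℚ] ℚ) (u v : ℂ ⊗[ℚ] Mk V) : Module.End ℂ (ℂ ⊗[ℚ] Mk V) :=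
  (mformC q v).smulRight u - (mformC q u).smulRight v

/-- The inclusion `ℂ ⊗ V → ℂ ⊗ Mk V`. -/
def embC : (ℂ ⊗[ℚ] V) →ₗ[ℂ] (ℂ ⊗[ℚ] Mk V) := emb.baseChange ℂ

/-- The vector `α` in the complexified Mukai space. -/
def alC : ℂ ⊗[ℚ] Mk V := 1 ⊗ₜ al

/-- The vector `β` in the complexified Mukai space. -/
def beC : ℂ ⊗[ℚ] Mk V := 1 ⊗ₜ be

lemma mformC_tmul (q : V →ₗ[ℚ] V →ₗ[ℚ] ℚ) (a b : ℂ) (u v : Mk V) :
    mformC q (a ⊗ₜ u) (b ⊗ₜ v) = (mform q u v : ℂ) * (a * b) := by
  rw [mformC, LinearMap.BilinForm.baseChange_tmul, Rat.smul_def]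

lemma qC_tmul' (q : V →ₗ[ℚ] V →ₗ[ℚ] ℚ) (a b : ℂ) (x y : V) :
    qC q (a ⊗ₜ x) (b ⊗ₜ y) = (q x y : ℂ) * (a * b) := by
  rw [qC, LinearMap.BilinForm.baseChange_tmul, Rat.smul_def]

lemma wedgeC_apply (q : V →ₗ[ℚ] V →ₗ[ℚ] ℚ) (u v z : ℂ ⊗[ℚ] Mk V) :
    wedgeC q u v z = mformC q v z • u - mformC q u z • v := by
  simp [wedgeC]

lemma mformC_symm (q : V →ₗ[ℚ] V →ₗ[ℚ] ℚ) (hq : ∀ x y, q x y = q y x)
    (u v : ℂ ⊗[ℚ] Mk V) : mformC q u v = mformC q v u := by
  induction u using TensorProduct.induction_on with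
  | zero => simp
  | tmul a x =>
    induction v using TensorProduct.induction_on with
    | zero => simp
    | tmul b y => rw [mformC_tmul, mformC_tmul, mform_symm q hq x y, mul_comm a b]
    | add y z hy hz => rw [map_add, map_add, LinearMap.add_apply, hy, hz]
  | add x y hx hy => rw [map_add, LinearMap.add_apply, hx, hy, map_add]

lemma mformC_embC (q : V →ₗ[ℚ] V →ₗ[ℚ] ℚ) (s t : ℂ ⊗[ℚ] V) :
    mformC q (embC s) (embC t) = qC q s t := by
  induction s using TensorProduct.induction_on with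
  | zero => simp
  | tmul a x =>
    induction t using TensorProduct.induction_on with
    | zero => simp
    | tmul b y =>
      rw [embC, LinearMap.baseChange_tmul, LinearMap.baseChange_tmul, mformC_tmul, qC_tmul']
      simp
    | add y z hy hz => rw [map_add, map_add, hy, hz, map_add]
  | add x y hx hy =>
    rw [map_add, map_add, LinearMap.add_apply, hx, hy, map_add, LinearMap.add_apply]

lemma mformC_al_embC (q : V →ₗ[ℚ] V →ₗ[ℚ] ℚ) (s : ℂ ⊗[ℚ] V) : mformC q alC (embC s) = 0 := by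
  induction s using TensorProduct.induction_on with
  | zero => simp
  | tmul a x =>
    rw [embC, LinearMap.baseChange_tmul, alC, mformC_tmul]
    simp [al]
  | add x y hx hy => rw [map_add, map_add, hx, hy, add_zero]

lemma mformC_be_embC (q : V →ₗ[ℚ] V →ₗ[ℚ] ℚ) (s : ℂ ⊗[ℚ] V) : mformC q beC (embC s) = 0 := by
  induction s using TensorProduct.induction_on with
  | zero => simp
  | tmul a x =>
    rw [embC, LinearMap.baseChange_tmul, beC, mformC_tmul]
    simp [be]
  | add x y hx hy => rw [map_add, map_add, hx, hy, add_zero]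

lemma mformC_al_al (q : V →ₗ[ℚ] V →ₗ[ℚ] ℚ) : mformC q alC alC = 0 := by
  rw [alC, mformC_tmul]; simp [al]

lemma mformC_be_be (q : V →ₗ[ℚ] V →ₗ[ℚ] ℚ) : mformC q beC beC = 0 := by
  rw [beC, mformC_tmul]; simp [be]

lemma mformC_al_be (q : V →ₗ[ℚ] V →ₗ[ℚ] ℚ) : mformC q alC beC = -1 := by
  rw [alC, beC, mformC_tmul]; simp [al, be]

lemma mformC_wedgeC (q : V →ₗ[ℚ] V →ₗ[ℚ] ℚ) (hq : ∀ x y, q x y = q y x)
    (u v z t : ℂ ⊗[ℚ] Mk V) :
    mformC q (wedgeC q u v z) t = - mformC q z (wedgeC q u v t) := by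
  rw [wedgeC_apply, wedgeC_apply, map_sub, map_smul, map_smul, LinearMap.sub_apply,
    LinearMap.smul_apply, LinearMap.smul_apply, map_sub, map_smul, map_smul,
    mformC_symm q hq z u, mformC_symm q hq z v]
  simp only [smul_eq_mul]
  ring

end Forms

variable {n : ℕ} {V A : Type*} [AddCommGroup V] [Module ℚ V] [Ring A] [Algebra ℚ A]

/-- `opC` as a linear map in the family. -/
def opCHom (V A : Type*) [AddCommGroup V] [Module ℚ V] [AddCommGroup A] [Module ℚ A] :
    (V →ₗ[ℚ] Module.End ℚ A) →ₗ[ℚ] ((ℂ ⊗[ℚ] V) →ₗ[ℂ] Module.End ℂ (ℂ ⊗[ℚ] A)) where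
  toFun := opC
  map_add' F G := by
    apply TensorProduct.AlgebraTensorModule.ext
    intro a x
    simp [opC]
  map_smul' c F := by
    apply TensorProduct.AlgebraTensorModule.ext
    intro a x
    simp only [opC, LinearMap.liftBaseChange_tmul, LinearMap.comp_apply, LinearMap.smul_apply,
      map_smul, RingHom.id_apply]
    rw [smul_comm]

/-- The complex bilinear extension of the action: `actCC X u v` is the action of `u ∧ v` for
`u, v` in the complexified Mukai space. -/
def actCC (X : HKCohomology n V A) :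
    (ℂ ⊗[ℚ] Mk V) →ₗ[ℂ] (ℂ ⊗[ℚ] Mk V) →ₗ[ℂ] Module.End ℂ (ℂ ⊗[ℚ] A) :=
  LinearMap.liftBaseChange ℂ (opCHom (Mk V) A ∘ₗ X.act)

lemma actCC_tmul (X : HKCohomology n V A) (a b : ℂ) (u v : Mk V) :
    actCC X (a ⊗ₜ u) (b ⊗ₜ v) = (a * b) • actC X u v := by
  simp only [actCC, LinearMap.liftBaseChange_tmul, LinearMap.comp_apply, opCHom,
    LinearMap.coe_mk, AddHom.coe_mk, LinearMap.smul_apply, opC, actC]
  rw [smul_smul]
  rfl

lemma actCC_one (X : HKCohomology n V A) (u v : Mk V) :
    actCC X (1 ⊗ₜ u) (1 ⊗ₜ v) = actC X u v := by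
  rw [actCC_tmul, mul_one, one_smul]

lemma actC_self (X : HKCohomology n V A) (u : Mk V) : actC X u u = 0 := by
  rw [actC, X.act_self, LinearMap.baseChange_zero]

lemma act_swap (X : HKCohomology n V A) (u v : Mk V) : X.act u v = - X.act v u := by
  have h := X.act_self (u + v)
  simp only [map_add, LinearMap.add_apply, X.act_self, zero_add, add_zero] at h
  exact eq_neg_of_add_eq_zero_right h

lemma actCC_swap (X : HKCohomology n V A) (u v : ℂ ⊗[ℚ] Mk V) :
    actCC X u v = - actCC X v u := by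
  induction u using TensorProduct.induction_on with
  | zero => simp
  | tmul a x =>
    induction v using TensorProduct.induction_on with
    | zero => simp
    | tmul b y =>
      rw [actCC_tmul, actCC_tmul, actC, actC, act_swap X x y, LinearMap.baseChange_neg,
        smul_neg, mul_comm a b]
    | add y z hy hz => rw [map_add, map_add, LinearMap.add_apply, hy, hz, neg_add]
  | add x y hx hy => rw [map_add, LinearMap.add_apply, hx, hy, map_add, neg_add]

lemma actCC_self (X : HKCohomology n V A) (u : ℂ ⊗[ℚ] Mk V) : actCC X u u = 0 := by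
  have h := actCC_swap X u u
  have h2 : (2 : ℂ) • actCC X u u = 0 := by
    rw [two_smul]; nth_rw 1 [h]; rw [neg_add_cancel]
  exact (smul_eq_zero.mp h2).resolve_left two_ne_zero

lemma actC_lie' (X : HKCohomology n V A) (u v z t : Mk V) :
    actC X u v * actC X z t - actC X z t * actC X u v =
      actC X (wedge X.q u v z) t + actC X z (wedge X.q u v t) := by
  simp only [actC]
  rw [← LinearMap.baseChange_add, ← X.act_lie, LinearMap.baseChange_sub,
    LinearMap.baseChange_mul, LinearMap.baseChange_mul]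

lemma actCC_lie (X : HKCohomology n V A) (u v z t : ℂ ⊗[ℚ] Mk V) :
    actCC X u v * actCC X z t - actCC X z t * actCC X u v =
      actCC X (wedgeC X.q u v z) t + actCC X z (wedgeC X.q u v t) := by
  induction u using TensorProduct.induction_on with
  | zero => simp [wedgeC_apply]
  | add x y hx hy =>
    simp only [wedgeC_apply, map_add, LinearMap.add_apply, map_sub, LinearMap.sub_apply,
      map_smul, LinearMap.smul_apply, add_mul, mul_add, smul_add, add_smul] at hx hy ⊢
    rw [← sub_add_sub_comm, hx, hy]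
    abel
  | tmul a u =>
    induction v using TensorProduct.induction_on with
    | zero => simp [wedgeC_apply]
    | add x y hx hy =>
      simp only [wedgeC_apply, map_add, LinearMap.add_apply, map_sub, LinearMap.sub_apply,
        map_smul, LinearMap.smul_apply, add_mul, mul_add, smul_add, add_smul] at hx hy ⊢
      rw [← sub_add_sub_comm, hx, hy]
      abel
    | tmul b v =>
      induction z using TensorProduct.induction_on with
      | zero => simp
      | add x y hx hy =>
        simp only [map_add, LinearMap.add_apply, mul_add, add_mul] at hx hy ⊢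
        rw [← sub_add_sub_comm, hx, hy]
        abel
      | tmul c z =>
        induction t using TensorProduct.induction_on with
        | zero => simp
        | add x y hx hy =>
          simp only [map_add, mul_add, add_mul] at hx hy ⊢
          rw [← sub_add_sub_comm, hx, hy]
          abel
        | tmul d t =>
          simp only [wedgeC_apply, mformC_tmul, map_sub, map_smul, LinearMap.sub_apply,
            LinearMap.smul_apply, actCC_tmul]
          have h := actC_lie' X u v z t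
          have e1 : (a * b) • actC X u v * (c * d) • actC X z t -
              (c * d) • actC X z t * (a * b) • actC X u v =
              (a * b * (c * d)) • (actC X u v * actC X z t - actC X z t * actC X u v) := by
            rw [smul_mul_smul_comm, smul_mul_smul_comm, mul_comm (c * d) (a * b), smul_sub]
          rw [e1, h]
          simp only [wedge_apply, actC, map_sub, map_smul, LinearMap.sub_apply,
            LinearMap.smul_apply, LinearMap.baseChange_sub, LinearMap.baseChange_smul]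
          simp only [smul_add, smul_sub, smul_smul]
          have e2 : ∀ (r : ℚ) (m : Module.End ℂ (ℂ ⊗[ℚ] A)), r • m = (r : ℂ) • m := by
            intro r m
            rw [← algebraMap_smul ℂ r m]; simp
          simp only [e2, smul_smul]
          congr 1 <;> congr 1 <;> congr 1 <;> ring

lemma exp_lTC {U : Type*} [AddCommGroup U] [Module ℂ U] [Module ℚ U] [IsScalarTower ℚ ℂ U]
    {w : Module.End ℂ U} (hn : IsNilpotent w) :
    IsNilpotent.exp (w.lTensor U) = (IsNilpotent.exp w).lTensor U :=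
  (hn.map_exp (Module.End.lTensorAlgHom ℂ U U)).symm

lemma exp_rTC {U : Type*} [AddCommGroup U] [Module ℂ U] [Module ℚ U] [IsScalarTower ℚ ℂ U]
    {w : Module.End ℂ U} (hn : IsNilpotent w) :
    IsNilpotent.exp (w.rTensor U) = (IsNilpotent.exp w).rTensor U :=
  (hn.map_exp (Module.End.rTensorAlgHom ℂ U U)).symm

/-- Conjugation by exponentials, complex version. -/
theorem conjC (X : HKCohomology n V A) (u v : ℂ ⊗[ℚ] Mk V) (z t : ℂ ⊗[ℚ] Mk V)
    (hP : IsNilpotent (actCC X u v)) (hn : IsNilpotent (wedgeC X.q u v)) :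
    IsNilpotent.exp (actCC X u v) * actCC X z t =
      actCC X (IsNilpotent.exp (wedgeC X.q u v) z) (IsNilpotent.exp (wedgeC X.q u v) t) *
        IsNilpotent.exp (actCC X u v) := by
  set P := actCC X u v with hPdef
  set w := wedgeC X.q u v with hw
  let G : Module.End ℂ (Module.End ℂ (ℂ ⊗[ℚ] A)) :=
    LinearMap.mulLeft ℂ P + LinearMap.mulRight ℂ (-P)
  let DL : Module.End ℂ ((ℂ ⊗[ℚ] Mk V) ⊗[ℂ] (ℂ ⊗[ℚ] Mk V)) := w.lTensor (ℂ ⊗[ℚ] Mk V)
  let DR : Module.End ℂ ((ℂ ⊗[ℚ] Mk V) ⊗[ℂ] (ℂ ⊗[ℚ] Mk V)) := w.rTensor (ℂ ⊗[ℚ] Mk V)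
  let Bt : ((ℂ ⊗[ℚ] Mk V) ⊗[ℂ] (ℂ ⊗[ℚ] Mk V)) →ₗ[ℂ] Module.End ℂ (ℂ ⊗[ℚ] A) :=
    TensorProduct.lift (actCC X)
  have h_nilL : IsNilpotent DL :=
    hn.map <| Module.End.lTensorAlgHom ℂ (ℂ ⊗[ℚ] Mk V) (ℂ ⊗[ℚ] Mk V)
  have h_nilR : IsNilpotent DR :=
    hn.map <| Module.End.rTensorAlgHom ℂ (ℂ ⊗[ℚ] Mk V) (ℂ ⊗[ℚ] Mk V)
  have h_comm : Commute DL DR := by
    apply TensorProduct.ext'
    intro a b
    simp [DL, DR]
  have h_nilG : IsNilpotent G := nil_ad hP
  have hcomp : G ∘ₗ Bt = Bt ∘ₗ (DL + DR) := by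
    apply TensorProduct.ext'
    intro a b
    have := actCC_lie X u v a b
    simp only [LinearMap.comp_apply, G, Bt, DL, DR, TensorProduct.lift.tmul, LinearMap.add_apply,
      LinearMap.lTensor_tmul, LinearMap.rTensor_tmul, map_add, LinearMap.mulLeft_apply,
      LinearMap.mulRight_apply]
    have e1 : (actCC X a) b * (-(actCC X u) v) = - ((actCC X a) b * (actCC X u) v) := by
      ext x; simp
    have e2 : P = actCC X u v := rfl
    rw [e2, e1, ← sub_eq_add_neg, this, hw]
    abel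
  have hexp := Module.End.commute_exp_left_of_commute
    (h_comm.isNilpotent_add h_nilL h_nilR) h_nilG hcomp
  have h1 := LinearMap.congr_fun hexp (z ⊗ₜ[ℂ] t)
  have h0 : IsNilpotent.exp (DL + DR) = IsNilpotent.exp DL * IsNilpotent.exp DR :=
    IsNilpotent.exp_add_of_commute h_comm h_nilL h_nilR
  have h2 : IsNilpotent.exp DL = (IsNilpotent.exp w).lTensor (ℂ ⊗[ℚ] Mk V) := exp_lTC hn
  have h3 : IsNilpotent.exp DR = (IsNilpotent.exp w).rTensor (ℂ ⊗[ℚ] Mk V) := exp_rTC hn
  have h4 : IsNilpotent.exp (DL + DR) (z ⊗ₜ[ℂ] t) =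
      (IsNilpotent.exp w z) ⊗ₜ[ℂ] (IsNilpotent.exp w t) := by
    rw [h0, h2, h3]; simp
  rw [LinearMap.comp_apply, LinearMap.comp_apply, h4] at h1
  have h5 : Bt (z ⊗ₜ[ℂ] t) = actCC X z t := by simp [Bt]
  have h6 : Bt ((IsNilpotent.exp w z) ⊗ₜ[ℂ] (IsNilpotent.exp w t)) =
      actCC X (IsNilpotent.exp w z) (IsNilpotent.exp w t) := by simp [Bt]
  rw [h5, h6, ← conj_exp hP] at h1
  rw [← h1, mul_assoc, mul_assoc, IsNilpotent.exp_neg_mul_exp_self hP, mul_one]

end

end Pool.Agent.HKO
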