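import Mathlib

/-!
# Hyper-Kähler cohomology and Mukai vector transforms: definitions

`Mk V = ℚ × V × ℚ` is the extended Mukai space `ℚα ⊕ V ⊕ ℚβ` of `V = H²(X, ℚ)`.
-/

open scoped TensorProduct

namespace Pool.Agent.HKO

noncomputable section

/-- The extended Mukai space `ℚα ⊕ V ⊕ ℚβ`; the triple `(r, x, s)` stands for
`r α + x + s β`. -/
abbrev Mk (V : Type*) : Type _ := ℚ × V × ℚ

section Mukai

variable {V : Type*} [AddCommGroup V] [Module ℚ V]

/-- The vector `α`. -/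
def al : Mk V := (1, 0, 0)

/-- The vector `β`. -/
def be : Mk V := (0, 0, 1)

/-- The inclusion `V → ℚα ⊕ V ⊕ ℚβ`. -/
def emb : V →ₗ[ℚ] Mk V := LinearMap.inr ℚ ℚ (V × ℚ) ∘ₗ LinearMap.inl ℚ V ℚ

/-- The Mukai form `(r α + x + s β, r' α + x' + s' β) = q(x, x') - r s' - s r'`. -/
def mform (q : V →ₗ[ℚ] V →ₗ[ℚ] ℚ) : Mk V →ₗ[ℚ] Mk V →ₗ[ℚ] ℚ :=
  LinearMap.mk₂ ℚ (fun u v => q u.2.1 v.2.1 - u.1 * v.2.2 - u.2.2 * v.1)
    (by intro u v w; simp; ring) (by intro c u v; simp; ring)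
    (by intro u v w; simp; ring) (by intro c u v; simp; ring)

/-- The skew endomorphism `u ∧ v` of the Mukai space: `(u ∧ v)(z) = (v, z) u - (u, z) v`. These
span the Lie algebra `so` of the Mukai form, which is thus identified with the second exterior
power of the Mukai space. -/
def wedge (q : V →ₗ[ℚ] V →ₗ[ℚ] ℚ) (u v : Mk V) : Module.End ℚ (Mk V) :=
  (mform q v).smulRight u - (mform q u).smulRight v

end Mukai

section Complex

/-- Complex conjugation as a `ℚ`-linear map. -/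
def conjQ : ℂ →ₗ[ℚ] ℂ := (starRingEnd ℂ).toRatAlgHom.toLinearMap

/-- Complex conjugation on `ℂ ⊗ V`. -/
def conjV (V : Type*) [AddCommGroup V] [Module ℚ V] : (ℂ ⊗[ℚ] V) →ₗ[ℚ] (ℂ ⊗[ℚ] V) :=
  conjQ.rTensor V

/-- The complex bilinear extension of a bilinear form. -/
def qC {V : Type*} [AddCommGroup V] [Module ℚ V] (q : V →ₗ[ℚ] V →ₗ[ℚ] ℚ) :
    (ℂ ⊗[ℚ] V) →ₗ[ℂ] (ℂ ⊗[ℚ] V) →ₗ[ℂ] ℂ :=
  LinearMap.BilinForm.baseChange ℂ q

/-- Complexification of a linear family `F : V → End A` of operators: the complex linear family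
`ℂ ⊗ V → End (ℂ ⊗ A)` with `z ⊗ x ↦ z • (1 ⊗ F x)`. -/
def opC {V A : Type*} [AddCommGroup V] [Module ℚ V] [AddCommGroup A] [Module ℚ A]
    (F : V →ₗ[ℚ] Module.End ℚ A) : (ℂ ⊗[ℚ] V) →ₗ[ℂ] Module.End ℂ (ℂ ⊗[ℚ] A) :=
  LinearMap.liftBaseChange ℂ (LinearMap.baseChangeHom ℚ ℂ A A ∘ₗ F)

end Complex

/-- The cohomological data `V = H²(X, ℚ)`, `A = H^*(X, ℚ)` of a projective hyper-Kähler variety
`X` of dimension `2n`. Every field is a theorem about such `X`. -/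
structure HKCohomology (n : ℕ) (V A : Type*) [AddCommGroup V] [Module ℚ V] [Ring A]
    [Algebra ℚ A] where
  /-- the Beauville–Bogomolov–Fujiki form on `H²` -/
  q : V →ₗ[ℚ] V →ₗ[ℚ] ℚ
  q_symm : ∀ x y, q x y = q y x
  q_nondeg : ∀ x, (∀ y, q x y = 0) → x = 0
  /-- the grading: `gr i = H^i(X, ℚ)` -/
  gr : ℕ → Submodule ℚ A
  /-- `H^*` is a graded algebra -/
  graded : GradedAlgebra gr
  /-- `H^*` is finite-dimensional -/
  finite : Module.Finite ℚ A
  /-- graded commutativity -/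
  comm : ∀ i j a b, a ∈ gr i → b ∈ gr j → a * b = ((-1 : ℚ) ^ (i * j)) • (b * a)
  /-- `H⁰ = ℚ·1` -/
  gr_zero : gr 0 = Submodule.span ℚ {1}
  /-- `H^i = 0` for `i > 4n` -/
  gr_top : ∀ i, 4 * n < i → gr i = ⊥
  one_ne : (1 : A) ≠ 0
  /-- the inclusion of `V` as the second cohomology -/
  cls : V →ₗ[ℚ] A
  cls_inj : Function.Injective cls
  cls_range : LinearMap.range cls = gr 2
  /-- the Looijenga–Lunts–Verbitsky action of `so(ℚα ⊕ V ⊕ ℚβ)` on `H^*`:
  `act u v` is the action of `u ∧ v` -/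
  act : Mk V →ₗ[ℚ] Mk V →ₗ[ℚ] Module.End ℚ A
  act_self : ∀ u, act u u = 0
  /-- `act` is a Lie algebra action -/
  act_lie : ∀ u v z t, act u v * act z t - act z t * act u v =
    act (wedge q u v z) t + act z (wedge q u v t)
  /-- `β ∧ x` acts as the cup product with `x` -/
  act_cup : ∀ x a, act be (emb x) a = cls x * a
  /-- `2 (α ∧ β)` acts as the degree operator `deg - 2n` -/
  act_deg : ∀ i, ∀ a ∈ gr i, act al be a = ((i : ℚ) / 2 - n) • a
  /-- `so(V)` acts by derivations -/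
  act_der : ∀ x y a b, act (emb x) (emb y) (a * b) =
    act (emb x) (emb y) a * b + a * act (emb x) (emb y) b
  /-- the class of the symplectic form in `H²(X, ℂ)` -/
  sg : ℂ ⊗[ℚ] V
  sg_iso : qC q sg sg = 0
  sg_pos : qC q sg (conjV V sg) ≠ 0
  /-- the Néron–Severi space is nondegenerate and contains an ample class -/
  ns_nondeg : ∀ x : V, qC q sg (1 ⊗ₜ x) = 0 →
    (∀ y : V, qC q sg (1 ⊗ₜ y) = 0 → q x y = 0) → x = 0
  ample : ∃ x : V, qC q sg (1 ⊗ₜ x) = 0 ∧ 0 < q x x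
  /-- a positive definite Hermitian form on `H^*(X, ℂ)` (Hodge–Riemann) such that the adjoint of
  each Lefschetz dual operator `α ∧ y` is the cup product with a class in `H²(X, ℂ)` -/
  herm : InnerProductSpace.Core ℂ (ℂ ⊗[ℚ] A)
  herm_adj : ∀ y : V, ∃ z : ℂ ⊗[ℚ] V, ∀ a b : ℂ ⊗[ℚ] A,
    herm.inner ((act al (emb y)).baseChange ℂ a) b =
      herm.inner a (cls.baseChange ℂ z * b)

namespace HKCohomology

variable {n : ℕ} {V A : Type*} [AddCommGroup V] [Module ℚ V] [Ring A] [Algebra ℚ A]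
  (X : HKCohomology n V A)

/-- Cup product with the class `x ∈ H²(X, ℚ)`. -/
def cup : V →ₗ[ℚ] Module.End ℚ A := LinearMap.mul ℚ A ∘ₗ X.cls

/-- The Lefschetz dual operators: `lam y` is the action of `α ∧ y`. (If `q(y, y) ≠ 0`, then
`(2 / q(y, y)) lam y` is the operator `Λ` of the `sl₂`-triple of `cup y`.) -/
def lam : V →ₗ[ℚ] Module.End ℚ A := X.act al ∘ₗ emb

/-- The rational classes of type `(1, 1)` (Néron–Severi space). -/
def NS : Submodule ℚ V :=
  LinearMap.ker (((qC X.q X.sg).restrictScalars ℚ) ∘ₗ TensorProduct.mk ℚ ℂ V 1)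

/-- The symplectic form as operator on `H^*(X, ℂ)`: cup product with `σ`. -/
def cupSg : Module.End ℂ (ℂ ⊗[ℚ] A) := opC X.cup X.sg

/-- Contraction with the bivector dual to `σ`: the operator `lam σ̄ / q(σ, σ̄)`, which together
with `cupSg` generates an `sl₂`. -/
def lamSg : Module.End ℂ (ℂ ⊗[ℚ] A) :=
  (qC X.q X.sg (conjV V X.sg))⁻¹ • opC X.lam (conjV V X.sg)

/-- The Hodge operator: `(p - q) / 2` on `H^{p,q}(X)`; it is the action of
`(σ ∧ σ̄) / q(σ, σ̄)`, written with `[β ∧ σ, α ∧ σ̄] = q(σ, σ̄) (α ∧ β) + σ ∧ σ̄`. -/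
def hodgeOp : Module.End ℂ (ℂ ⊗[ℚ] A) :=
  X.cupSg * X.lamSg - X.lamSg * X.cupSg - (X.act al be).baseChange ℂ

/-- The Hodge piece `H^{p,q}(X) ⊆ H^{p+q}(X, ℂ)`. -/
def hodge (p q : ℕ) : Submodule ℂ (ℂ ⊗[ℚ] A) :=
  (X.gr (p + q)).baseChange ℂ ⊓
    LinearMap.ker (X.hodgeOp - (((p : ℂ) - q) / 2) • (1 : Module.End ℂ (ℂ ⊗[ℚ] A)))

/-- The symplectic star operator: the Weyl element of the `sl₂` of `σ`. -/
def star : Module.End ℂ (ℂ ⊗[ℚ] A) :=
  IsNilpotent.exp X.cupSg * IsNilpotent.exp (-X.lamSg) * IsNilpotent.exp X.cupSg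

/-- The inverse of `star`. -/
def starInv : Module.End ℂ (ℂ ⊗[ℚ] A) :=
  IsNilpotent.exp (-X.cupSg) * IsNilpotent.exp X.lamSg * IsNilpotent.exp (-X.cupSg)

/-- For `a ∈ H^p(X, Ω^q)`, contraction with the polyvector field in `H^p(X, Λ^q T)` which
corresponds to `a` under the isomorphism `T ≅ Ω` given by `σ`. (Pointwise, the symplectic star
operator conjugates the exterior product with a form into the contraction with the corresponding
polyvector.) -/
def contr (a : ℂ ⊗[ℚ] A) : Module.End ℂ (ℂ ⊗[ℚ] A) :=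
  X.star * LinearMap.mulLeft ℂ a * X.starInv

end HKCohomology

/-- The cohomological data of a derived equivalence between two hyper-Kähler varieties. Every
field is a theorem about derived equivalences `D^b(X) ≃ D^b(X')`. -/
structure FourierMukai {n : ℕ} {V A V' A' : Type*} [AddCommGroup V] [Module ℚ V] [Ring A]
    [Algebra ℚ A] [AddCommGroup V'] [Module ℚ V'] [Ring A'] [Algebra ℚ A']
    (X : HKCohomology n V A) (X' : HKCohomology n V' A') where
  /-- the Mukai vector transform `Φ^H : H^*(X, ℚ) → H^*(X', ℚ)` -/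
  Φ : A ≃ₗ[ℚ] A'
  /-- the induced similitude of the extended Mukai spaces (Taelman) -/
  φ : Mk V ≃ₗ[ℚ] Mk V'
  μ : ℚ
  μ_ne : μ ≠ 0
  form : ∀ u v, mform X'.q (φ u) (φ v) = μ * mform X.q u v
  /-- `Φ` is equivariant for the Looijenga–Lunts–Verbitsky Lie algebras (Taelman) -/
  equivariant : ∀ u v a, Φ (X.act u v a) = μ⁻¹ • X'.act (φ u) (φ v) (Φ a)
  /-- `φ` is compatible with the Hodge structures -/
  hodge : ∃ c : ℂ, c ≠ 0 ∧ (φ : Mk V →ₗ[ℚ] Mk V').baseChange ℂ (emb.baseChange ℂ X.sg) =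
    c • emb.baseChange ℂ X'.sg
  /-- `Φ` is compatible with the actions of polyvector fields by contraction
  (Calaque–Rossi–Van den Bergh) -/
  contraction : ∀ a : ℂ ⊗[ℚ] A, ∃ b : ℂ ⊗[ℚ] A', ∀ c : ℂ ⊗[ℚ] A,
    (Φ : A →ₗ[ℚ] A').baseChange ℂ (X.contr a c) =
      X'.contr b ((Φ : A →ₗ[ℚ] A').baseChange ℂ c)

end

end Pool.Agent.HKO
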