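import Pool.Agent.HKO.Targets2

/-! Descent of the degree-type operator to the rational numbers. -/

open scoped TensorProduct

namespace Pool.Agent.HKO

noncomputable section

namespace Desc

section Lin

/-- A linear map whose kernel contains the kernel of `L` factors through `L`. -/
lemma exists_factor {E F G : Type*} [AddCommGroup E] [Module ℚ E] [AddCommGroup F] [Module ℚ F]
    [AddCommGroup G] [Module ℚ G] (L : E →ₗ[ℚ] F) (W : E →ₗ[ℚ] G)
    (h : ∀ t, L t = 0 → W t = 0) : ∃ T : F →ₗ[ℚ] G, T ∘ₗ L = W := by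
  obtain ⟨r, hr⟩ := L.rangeRestrict.exists_rightInverse_of_surjective L.range_rangeRestrict
  obtain ⟨T, hT⟩ := LinearMap.exists_extend (W ∘ₗ r)
  refine ⟨T, ?_⟩
  ext t
  have h1 : L.rangeRestrict (r (L.rangeRestrict t)) = L.rangeRestrict t :=
    LinearMap.congr_fun hr (L.rangeRestrict t)
  have h2 : L (r (L.rangeRestrict t)) = L t := congrArg Subtype.val h1
  have h3 : W (r (L.rangeRestrict t)) = W t := by
    have h4 := h (r (L.rangeRestrict t) - t) (by rw [map_sub, h2, sub_self])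
    rw [map_sub, sub_eq_zero] at h4
    exact h4
  have h5 : T (L t) = (W ∘ₗ r) (L.rangeRestrict t) := by
    rw [← hT]
    rfl
  rw [LinearMap.comp_apply, h5, LinearMap.comp_apply, h3]

end Lin

section Forms

variable {V : Type*} [AddCommGroup V] [Module ℚ V]

/-- `wedge` as a bilinear map. -/
def wedgeB (q : V →ₗ[ℚ] V →ₗ[ℚ] ℚ) : Mk V →ₗ[ℚ] Mk V →ₗ[ℚ] Module.End ℚ (Mk V) :=
  LinearMap.mk₂ ℚ (wedge q)
    (by intro u u' v; apply LinearMap.ext; intro z; simp only [wedge_apply, map_add,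
          LinearMap.add_apply, smul_add, add_smul]; abel)
    (by intro c u v; apply LinearMap.ext; intro z; simp only [wedge_apply, map_smul,
          LinearMap.smul_apply, smul_sub, smul_smul, smul_eq_mul, mul_comm])
    (by intro u v v'; apply LinearMap.ext; intro z; simp only [wedge_apply, map_add,
          LinearMap.add_apply, smul_add, add_smul]; abel)
    (by intro c u v; apply LinearMap.ext; intro z; simp only [wedge_apply, map_smul,
          LinearMap.smul_apply, smul_sub, smul_smul, smul_eq_mul, mul_comm])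

/-- The linear map `u ⊗ v ↦ wedge u v`. -/
def WW (q : V →ₗ[ℚ] V →ₗ[ℚ] ℚ) : (Mk V ⊗[ℚ] Mk V) →ₗ[ℚ] Module.End ℚ (Mk V) :=
  TensorProduct.lift (wedgeB q)

lemma WW_tmul (q : V →ₗ[ℚ] V →ₗ[ℚ] ℚ) (u v : Mk V) : WW q (u ⊗ₜ v) = wedge q u v := by
  simp [WW, wedgeB]

lemma WW_skew (q : V →ₗ[ℚ] V →ₗ[ℚ] ℚ) (hq : ∀ x y, q x y = q y x) (t : Mk V ⊗[ℚ] Mk V)
    (z y : Mk V) : mform q (WW q t z) y = - mform q z (WW q t y) := by
  induction t using TensorProduct.induction_on with
  | zero => simp only [map_zero, LinearMap.zero_apply, neg_zero]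
  | tmul u v => rw [WW_tmul, mform_wedge q hq]
  | add a b ha hb =>
    rw [map_add, LinearMap.add_apply, LinearMap.add_apply, map_add, LinearMap.add_apply, ha, hb,
      map_add]
    ring

lemma mform_be_left (q : V →ₗ[ℚ] V →ₗ[ℚ] ℚ) (u : Mk V) : mform q be u = - u.1 := by
  simp [be]

lemma mform_be_right (q : V →ₗ[ℚ] V →ₗ[ℚ] ℚ) (u : Mk V) : mform q u be = - u.1 := by
  simp [be]

lemma mform_al_left (q : V →ₗ[ℚ] V →ₗ[ℚ] ℚ) (u : Mk V) : mform q al u = - u.2.2 := by
  simp [al]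

lemma mform_al_right (q : V →ₗ[ℚ] V →ₗ[ℚ] ℚ) (u : Mk V) : mform q u al = - u.2.2 := by
  simp [al]

lemma mform_emb_left (q : V →ₗ[ℚ] V →ₗ[ℚ] ℚ) (x : V) (u : Mk V) :
    mform q (emb x) u = q x u.2.1 := by
  simp

lemma mform_emb_right (q : V →ₗ[ℚ] V →ₗ[ℚ] ℚ) (x : V) (u : Mk V) :
    mform q u (emb x) = q u.2.1 x := by
  simp

lemma eta (u : Mk V) : u = u.1 • al + emb u.2.1 + u.2.2 • be := by
  simp [al, be]

end Forms

variable {n : ℕ} {V A : Type*} [AddCommGroup V] [Module ℚ V] [Ring A] [Algebra ℚ A]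

/-- The linear map `u ⊗ v ↦ act u v`. -/
def LL (X : HKCohomology n V A) : (Mk V ⊗[ℚ] Mk V) →ₗ[ℚ] Module.End ℚ A :=
  TensorProduct.lift X.act

lemma LL_tmul (X : HKCohomology n V A) (u v : Mk V) : LL X (u ⊗ₜ v) = X.act u v := by
  simp [LL]

lemma LL_lie (X : HKCohomology n V A) (t : Mk V ⊗[ℚ] Mk V) (z y : Mk V) :
    LL X t * X.act z y - X.act z y * LL X t =
      X.act (WW X.q t z) y + X.act z (WW X.q t y) := by
  induction t using TensorProduct.induction_on with
  | zero => simp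
  | tmul u v => rw [WW_tmul, LL_tmul, X.act_lie]
  | add a b ha hb =>
    simp only [map_add, LinearMap.add_apply, add_mul, mul_add]
    rw [← sub_add_sub_comm, ha, hb]
    abel

lemma gr_one (X : HKCohomology n V A) : (1 : A) ∈ X.gr 0 := by
  rw [X.gr_zero]; exact Submodule.mem_span_singleton_self 1

lemma n_ne (X : HKCohomology n V A) : (n : ℚ) ≠ 0 := by
  intro hn
  have hn0 : n = 0 := by exact_mod_cast hn
  obtain ⟨x, -, hx⟩ := X.ample
  have h1 : X.cls x ∈ X.gr 2 := X.cls_range ▸ LinearMap.mem_range_self _ x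
  rw [X.gr_top 2 (by omega), Submodule.mem_bot] at h1
  have h2 : x = 0 := X.cls_inj (by rw [h1, map_zero])
  rw [h2] at hx
  simp at hx

lemma act_al_be_one (X : HKCohomology n V A) : X.act al be 1 = -(n : ℚ) • (1 : A) := by
  rw [X.act_deg 0 1 (gr_one X)]; simp

lemma act_der_one (X : HKCohomology n V A) (x y : V) : X.act (emb x) (emb y) 1 = 0 := by
  have h := X.act_der x y 1 1
  rw [mul_one, mul_one, one_mul] at h
  exact left_eq_add.mp h

lemma cls_mem' (X : HKCohomology n V A) (x : V) : X.cls x ∈ X.gr 2 :=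
  X.cls_range ▸ LinearMap.mem_range_self _ x

/-- An operator of degree `-2` kills the unit. -/
lemma lam_one (X : HKCohomology n V A) (x : V) : X.act al (emb x) 1 = 0 := by
  have h := LinearMap.congr_fun (X.act_lie al be al (emb x)) 1
  have e1 : wedge X.q al be al = - (al : Mk V) := by
    rw [wedge_apply]
    simp [al, be]
  have e2 : wedge X.q al be (emb x) = 0 := by
    rw [wedge_apply]
    simp [al, be]
  rw [e1, e2, map_zero, add_zero, map_neg, LinearMap.neg_apply, LinearMap.neg_apply,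
    LinearMap.sub_apply, Module.End.mul_apply, Module.End.mul_apply, act_al_be_one,
    map_smul] at h
  set y := X.act al (emb x) 1 with hy
  have h2 : X.act al be y = (-(1 : ℚ) - n) • y := by
    rw [sub_eq_iff_eq_add] at h
    rw [h, sub_smul]
    simp only [neg_smul, one_smul]
    abel
  let := X.graded
  have h3 : ∀ j, (DirectSum.decompose X.gr y j : A) = 0 := by
    intro j
    have h4 := decomp_act X y j
    rw [h2, DirectSum.decompose_smul, DirectSum.smul_apply, Submodule.coe_smul] at h4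
    have h5 : (((j : ℚ) / 2 + 1)) • (DirectSum.decompose X.gr y j : A) = 0 := by
      have : ((j : ℚ) / 2 + 1) = ((j : ℚ) / 2 - n) - (-(1 : ℚ) - n) := by ring
      rw [this, sub_smul, h4, sub_self]
    refine (smul_eq_zero.mp h5).resolve_left ?_
    positivity
  classical
  rw [← DirectSum.sum_support_decompose X.gr y]
  exact Finset.sum_eq_zero fun j _ => h3 j

lemma lam_cls (X : HKCohomology n V A) (z x : V) :
    X.act al (emb x) (X.cls z) = ((n : ℚ) * X.q z x) • (1 : A) := by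
  have h := LinearMap.congr_fun (X.act_lie be (emb z) al (emb x)) 1
  have e1 : wedge X.q be (emb z) al = (emb z : Mk V) := by
    rw [wedge_apply]
    simp [al, be]
  have e2 : wedge X.q be (emb z) (emb x) = X.q z x • (be : Mk V) := by
    rw [wedge_apply]
    simp [be]
  rw [e1, e2, LinearMap.sub_apply, Module.End.mul_apply, Module.End.mul_apply, lam_one,
    map_zero, zero_sub, X.act_cup, mul_one, LinearMap.add_apply, act_der_one, zero_add,
    map_smul, LinearMap.smul_apply, act_al_be_one] at h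
  rw [neg_eq_iff_eq_neg] at h
  rw [h, smul_smul, ← neg_smul]
  congr 1
  ring

/-- Injectivity of the action on the orthogonal Lie algebra. -/
theorem inj (X : HKCohomology n V A) (t : Mk V ⊗[ℚ] Mk V) (ht : LL X t = 0) :
    WW X.q t = 0 := by
  have hlie : ∀ z y, X.act (WW X.q t z) y + X.act z (WW X.q t y) = 0 := by
    intro z y
    rw [← LL_lie, ht, zero_mul, mul_zero, sub_zero]
  have hsk := WW_skew X.q X.q_symm t
  set Z := WW X.q t with hZ
  have hn := n_ne X
  have hb1 : (Z be).1 = 0 := by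
    have h := hsk be be
    rw [mform_be_right, mform_be_left] at h
    linarith
  have ha3 : (Z al).2.2 = 0 := by
    have h := hsk al al
    rw [mform_al_right, mform_al_left] at h
    linarith
  have hab : (Z al).1 = - (Z be).2.2 := by
    have h := hsk al be
    rw [mform_be_right, mform_al_left] at h
    linarith
  obtain ⟨x1, hx1⟩ : ∃ x1, x1 = (Z be).2.1 := ⟨_, rfl⟩
  obtain ⟨x2, hx2⟩ : ∃ x2, x2 = (Z al).2.1 := ⟨_, rfl⟩
  obtain ⟨s, hs⟩ : ∃ s, s = (Z be).2.2 := ⟨_, rfl⟩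
  have eb : Z be = emb x1 + s • be := by
    rw [eta (Z be), hb1, zero_smul, zero_add, ← hx1, ← hs]
  have ea : Z al = emb x2 - s • al := by
    rw [eta (Z al), ha3, zero_smul, add_zero, ← hx2, hab, ← hs, neg_smul]
    abel
  -- the first relation
  have h1 : X.act al (emb x1) = X.act be (emb x2) := by
    have h := hlie be al
    rw [eb, ea, map_add, LinearMap.add_apply, map_smul, LinearMap.smul_apply, map_sub, map_smul,
      act_swap X (emb x1) al] at h
    have h' : -X.act al (emb x1) + X.act be (emb x2) = 0 := by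
      rw [← h]; abel
    rw [neg_add_eq_zero] at h'
    exact h'
  have hx20 : x2 = 0 := by
    have h := LinearMap.congr_fun h1 1
    rw [lam_one, X.act_cup, mul_one] at h
    exact X.cls_inj (by rw [← h, map_zero])
  rw [hx20, map_zero, map_zero] at h1
  have hx10 : x1 = 0 := by
    refine X.q_nondeg _ fun z => ?_
    have h := LinearMap.congr_fun h1 (X.cls z)
    rw [lam_cls, LinearMap.zero_apply] at h
    have h2 := (smul_eq_zero.mp h).resolve_right X.one_ne
    rw [X.q_symm]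
    exact (mul_eq_zero.mp h2).resolve_left hn
  rw [hx10, map_zero, zero_add] at eb
  rw [hx20, map_zero, zero_sub] at ea
  -- the images of `V`
  have hy1 : ∀ y, (Z (emb y)).1 = 0 := by
    intro y
    have h := hsk (emb y) be
    rw [mform_be_right, eb, map_smul, mform_be_right] at h
    simpa using h
  have hy3 : ∀ y, (Z (emb y)).2.2 = 0 := by
    intro y
    have h := hsk (emb y) al
    rw [mform_al_right, ea, map_neg, map_smul, mform_al_right] at h
    simpa using h
  have ey : ∀ y, Z (emb y) = emb (Z (emb y)).2.1 := by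
    intro y
    nth_rewrite 1 [eta (Z (emb y))]
    rw [hy1, hy3, zero_smul, zero_smul, zero_add, add_zero]
  have h2 : ∀ y, (Z (emb y)).2.1 = - s • y := by
    intro y
    have h := LinearMap.congr_fun (hlie be (emb y)) 1
    rw [eb, ey y, map_smul, LinearMap.smul_apply, LinearMap.add_apply, LinearMap.smul_apply,
      X.act_cup, X.act_cup, mul_one, mul_one, ← map_smul, ← map_add, LinearMap.zero_apply] at h
    have h' := X.cls_inj (h.trans (map_zero X.cls).symm)
    rw [neg_smul]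
    exact eq_neg_of_add_eq_zero_right h'
  have hs0 : s = 0 := by
    obtain ⟨x, -, hx⟩ := X.ample
    have h := hsk (emb x) (emb x)
    rw [mform_emb_right, mform_emb_left, h2, map_smul, map_smul, LinearMap.smul_apply] at h
    simp only [smul_eq_mul] at h
    have h3 : s * X.q x x = 0 := by linarith
    exact (mul_eq_zero.mp h3).resolve_right hx.ne'
  apply LinearMap.ext
  intro u
  rw [eta u, map_add, map_add, map_smul, map_smul, ea, eb, ey, h2, hs0]
  simp

/-- The canonical map `ℂ ⊗ End U → Hom (U, ℂ ⊗ U)`. -/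
def ev (U : Type*) [AddCommGroup U] [Module ℚ U] :
    ℂ ⊗[ℚ] (Module.End ℚ U) →ₗ[ℚ] (U →ₗ[ℚ] ℂ ⊗[ℚ] U) :=
  TensorProduct.lTensorHomToHomLTensor (.id ℚ) U ℂ U

lemma ev_tmul (U : Type*) [AddCommGroup U] [Module ℚ U] (c : ℂ) (f : Module.End ℚ U) (m : U) :
    ev U (c ⊗ₜ f) m = c ⊗ₜ f m := by
  simp [ev]

lemma ev_inj (U : Type*) [AddCommGroup U] [Module ℚ U] [Module.Finite ℚ U] :
    Function.Injective (ev U) := by
  have h : ev U = (lTensorHomEquivHomLTensor ℚ U ℂ U).toLinearMap := by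
    rw [lTensorHomEquivHomLTensor_toLinearMap]
    rfl
  rw [h]
  exact (lTensorHomEquivHomLTensor ℚ U ℂ U).injective

/-- Joint lift of `actCC` and `wedgeC` to the tensor square. -/
lemma exists_lift (X : HKCohomology n V A) (v w : ℂ ⊗[ℚ] Mk V) :
    ∃ s : ℂ ⊗[ℚ] (Mk V ⊗[ℚ] Mk V),
      (∀ m : A, ev A ((LL X).lTensor ℂ s) m = actCC X v w (1 ⊗ₜ m)) ∧
      (∀ m : Mk V, ev (Mk V) ((WW X.q).lTensor ℂ s) m = wedgeC X.q v w (1 ⊗ₜ m)) := by
  induction v using TensorProduct.induction_on with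
  | zero => exact ⟨0, by simp, by simp [wedgeC_apply]⟩
  | add v v' hv hv' =>
    obtain ⟨s, h1, h2⟩ := hv
    obtain ⟨s', h1', h2'⟩ := hv'
    refine ⟨s + s', fun m => ?_, fun m => ?_⟩
    · rw [map_add, map_add, LinearMap.add_apply, h1, h1', map_add, LinearMap.add_apply,
        LinearMap.add_apply]
    · rw [map_add, map_add, LinearMap.add_apply, h2, h2']
      simp only [wedgeC_apply, map_add, LinearMap.add_apply, smul_add, add_smul]
      abel
  | tmul a u =>
    induction w using TensorProduct.induction_on with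
    | zero => exact ⟨0, by simp, by simp [wedgeC_apply]⟩
    | add v v' hv hv' =>
      obtain ⟨s, h1, h2⟩ := hv
      obtain ⟨s', h1', h2'⟩ := hv'
      refine ⟨s + s', fun m => ?_, fun m => ?_⟩
      · rw [map_add, map_add, LinearMap.add_apply, h1, h1', map_add, LinearMap.add_apply]
      · rw [map_add, map_add, LinearMap.add_apply, h2, h2']
        simp only [wedgeC_apply, map_add, LinearMap.add_apply, smul_add, add_smul]
        abel
    | tmul b t =>
      refine ⟨(a * b) ⊗ₜ (u ⊗ₜ t), fun m => ?_, fun m => ?_⟩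
      · rw [LinearMap.lTensor_tmul, ev_tmul, LL_tmul, actCC_tmul, LinearMap.smul_apply, actC,
          LinearMap.baseChange_tmul, TensorProduct.smul_tmul', smul_eq_mul, mul_one]
      · rw [LinearMap.lTensor_tmul, ev_tmul, WW_tmul, wedgeC_apply, mformC_tmul, mformC_tmul,
          wedge_apply, TensorProduct.tmul_sub, TensorProduct.smul_tmul', TensorProduct.smul_tmul',
          TensorProduct.tmul_smul, TensorProduct.tmul_smul, TensorProduct.smul_tmul',
          TensorProduct.smul_tmul', Rat.smul_def, Rat.smul_def]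
        congr 2 <;> simp only [smul_eq_mul] <;> ring

/-- Descent of the skew endomorphism. -/
lemma exists_zeta (X : HKCohomology n V A) (H : Module.End ℚ A) (v w : ℂ ⊗[ℚ] Mk V)
    (hH : ∀ a : A, actCC X v w (1 ⊗ₜ a) = 1 ⊗ₜ H a) :
    ∃ Z : Module.End ℚ (Mk V), ∀ m : Mk V, wedgeC X.q v w (1 ⊗ₜ m) = 1 ⊗ₜ Z m := by
  have := X.finite
  obtain ⟨T, hT⟩ := exists_factor (LL X) (WW X.q) (inj X)
  obtain ⟨s, h1, h2⟩ := exists_lift X v w
  have h3 : (LL X).lTensor ℂ s = 1 ⊗ₜ H := by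
    apply ev_inj A
    apply LinearMap.ext
    intro m
    rw [h1, hH, ev_tmul]
  refine ⟨T H, fun m => ?_⟩
  rw [← h2, ← hT, LinearMap.lTensor_comp, LinearMap.comp_apply, h3, LinearMap.lTensor_tmul,
    ev_tmul]

lemma tmul_one_inj {U : Type*} [AddCommGroup U] [Module ℚ U] {a b : U}
    (h : (1 : ℂ) ⊗ₜ[ℚ] a = 1 ⊗ₜ b) : a = b := by
  have h1 := Module.Flat.rTensor_preserves_injective_linearMap (M := U)
    (Algebra.linearMap ℚ ℂ) (algebraMap ℚ ℂ).injective
  have h2 : (1 : ℚ) ⊗ₜ[ℚ] a = 1 ⊗ₜ b := by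
    apply h1
    rw [LinearMap.rTensor_tmul, LinearMap.rTensor_tmul]
    simpa using h
  have h3 := congrArg (TensorProduct.lid ℚ U) h2
  simpa using h3

/-- A nonzero vector is detected by the rational vectors. -/
lemma exists_rat (q : V →ₗ[ℚ] V →ₗ[ℚ] ℚ) (v w : ℂ ⊗[ℚ] Mk V) (h : mformC q v w ≠ 0) :
    ∃ u : Mk V, mformC q v (1 ⊗ₜ u) ≠ 0 := by
  by_contra hcon
  push Not at hcon
  apply h
  clear h
  induction w using TensorProduct.induction_on with
  | zero => simp
  | tmul a x =>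
    have : a ⊗ₜ[ℚ] x = a • (1 ⊗ₜ[ℚ] x : ℂ ⊗[ℚ] Mk V) := by
      rw [TensorProduct.smul_tmul', smul_eq_mul, mul_one]
    rw [this, map_smul, hcon, smul_zero]
  | add x y hx hy => rw [map_add, hx, hy, add_zero]

end Desc

variable {n : ℕ} {V A : Type*} [AddCommGroup V] [Module ℚ V] [Ring A] [Algebra ℚ A]

open Desc in
/-- Descent of the degree-type operator to the rational numbers. -/
theorem p_DESC (X : HKCohomology n V A) : S_DESC X := by
  intro H v w hv hw hvw hH
  set c := mformC X.q v w with hc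
  have hwv : mformC X.q w v = c := by rw [hc, mformC_symm X.q X.q_symm]
  obtain ⟨Z, hZ⟩ := exists_zeta X H ((-c⁻¹) • v) w (by
    intro a
    rw [map_smul, LinearMap.smul_apply, ← hH, LinearMap.baseChange_tmul])
  have hZ1 : ∀ m : ℂ ⊗[ℚ] Mk V, Z.baseChange ℂ m = wedgeC X.q ((-c⁻¹) • v) w m := by
    intro m
    induction m using TensorProduct.induction_on with
    | zero => simp
    | tmul a x =>
      have : a ⊗ₜ[ℚ] x = a • (1 ⊗ₜ[ℚ] x : ℂ ⊗[ℚ] Mk V) := by
        rw [TensorProduct.smul_tmul', smul_eq_mul, mul_one]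
      rw [this, map_smul, map_smul, hZ, LinearMap.baseChange_tmul]
    | add x y hx hy => rw [map_add, map_add, hx, hy]
  have hZ2 : ∀ m : ℂ ⊗[ℚ] Mk V, Z.baseChange ℂ m =
      (-c⁻¹ * mformC X.q w m) • v + (c⁻¹ * mformC X.q v m) • w := by
    intro m
    rw [hZ1, wedgeC_apply, map_smul, LinearMap.smul_apply, smul_smul, smul_eq_mul]
    rw [sub_eq_add_neg, ← neg_smul]
    congr 2 <;> ring
  have hZv : Z.baseChange ℂ v = - v := by
    rw [hZ2, hwv, hv, mul_zero, zero_smul, add_zero, neg_mul, inv_mul_cancel₀ hvw, neg_smul,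
      one_smul]
  have hZw : Z.baseChange ℂ w = w := by
    rw [hZ2, hw, ← hc, mul_zero, zero_smul, zero_add, inv_mul_cancel₀ hvw, one_smul]
  have hZZ : ∀ m : Mk V, (1 : ℂ) ⊗ₜ[ℚ] Z m =
      (-c⁻¹ * mformC X.q w (1 ⊗ₜ m)) • v + (c⁻¹ * mformC X.q v (1 ⊗ₜ m)) • w ∧
      (1 : ℂ) ⊗ₜ[ℚ] Z (Z m) =
      (c⁻¹ * mformC X.q w (1 ⊗ₜ m)) • v + (c⁻¹ * mformC X.q v (1 ⊗ₜ m)) • w := by
    intro m
    have e1 : (1 : ℂ) ⊗ₜ[ℚ] Z m =
        (-c⁻¹ * mformC X.q w (1 ⊗ₜ m)) • v + (c⁻¹ * mformC X.q v (1 ⊗ₜ m)) • w := by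
      rw [← hZ2, LinearMap.baseChange_tmul]
    refine ⟨e1, ?_⟩
    have e2 : (1 : ℂ) ⊗ₜ[ℚ] Z (Z m) = Z.baseChange ℂ (1 ⊗ₜ Z m) := by
      rw [LinearMap.baseChange_tmul]
    rw [e2, e1, map_add, map_smul, map_smul, hZv, hZw, smul_neg, ← neg_smul]
    congr 2
    ring
  have hP : ∀ m : Mk V, (1 : ℂ) ⊗ₜ[ℚ] ((1 / 2 : ℚ) • (Z (Z m) - Z m)) =
      (c⁻¹ * mformC X.q w (1 ⊗ₜ m)) • v := by
    intro m
    obtain ⟨e1, e2⟩ := hZZ m
    rw [TensorProduct.tmul_smul, TensorProduct.tmul_sub, e1, e2, ← algebraMap_smul ℂ (1 / 2 : ℚ)]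
    module
  have hQ : ∀ m : Mk V, (1 : ℂ) ⊗ₜ[ℚ] ((1 / 2 : ℚ) • (Z (Z m) + Z m)) =
      (c⁻¹ * mformC X.q v (1 ⊗ₜ m)) • w := by
    intro m
    obtain ⟨e1, e2⟩ := hZZ m
    rw [TensorProduct.tmul_smul, TensorProduct.tmul_add, e1, e2, ← algebraMap_smul ℂ (1 / 2 : ℚ)]
    module
  obtain ⟨u, hu⟩ := exists_rat X.q w v (by rw [hwv]; exact hvw)
  obtain ⟨u', hu'⟩ := exists_rat X.q v w hvw
  have h1 := hP u
  have h2 := hQ u'
  set v' : Mk V := (1 / 2 : ℚ) • (Z (Z u) - Z u) with hv'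
  set w' : Mk V := (1 / 2 : ℚ) • (Z (Z u') + Z u') with hw'
  set x := c⁻¹ * mformC X.q w (1 ⊗ₜ u) with hx
  set y := c⁻¹ * mformC X.q v (1 ⊗ₜ u') with hy
  have hx0 : x ≠ 0 := mul_ne_zero (inv_ne_zero hvw) hu
  have hy0 : y ≠ 0 := mul_ne_zero (inv_ne_zero hvw) hu'
  have key : ∀ a b : Mk V, mformC X.q (1 ⊗ₜ a) (1 ⊗ₜ b) = (mform X.q a b : ℂ) := by
    intro a b
    rw [mformC_tmul, mul_one, mul_one]
  have i1 : mform X.q v' v' = 0 := by
    have h := key v' v'
    rw [h1, map_smul, map_smul, LinearMap.smul_apply, hv, smul_zero, smul_zero] at h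
    exact_mod_cast h.symm
  have i2 : mform X.q w' w' = 0 := by
    have h := key w' w'
    rw [h2, map_smul, map_smul, LinearMap.smul_apply, hw, smul_zero, smul_zero] at h
    exact_mod_cast h.symm
  have i3 : (mform X.q v' w' : ℂ) = x * y * c := by
    rw [← key, h1, h2, map_smul, map_smul, LinearMap.smul_apply, ← hc, smul_eq_mul, smul_eq_mul]
    ring
  have i4 : mform X.q v' w' ≠ 0 := by
    intro h
    rw [h, Rat.cast_zero] at i3
    exact mul_ne_zero (mul_ne_zero hx0 hy0) hvw i3.symm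
  refine ⟨v', w', i1, i2, i4, ?_⟩
  apply LinearMap.ext
  intro a
  apply tmul_one_inj
  have h3 : (1 : ℂ) ⊗ₜ[ℚ] H a = H.baseChange ℂ (1 ⊗ₜ a) := by rw [LinearMap.baseChange_tmul]
  have h4 : (1 : ℂ) ⊗ₜ[ℚ] X.act v' w' a = (x * y) • actCC X v w (1 ⊗ₜ a) := by
    have h := actCC_one X v' w'
    rw [h1, h2, map_smul, map_smul, LinearMap.smul_apply] at h
    have h5 : actC X v' w' (1 ⊗ₜ a) = (1 : ℂ) ⊗ₜ[ℚ] X.act v' w' a := by
      rw [actC, LinearMap.baseChange_tmul]
    rw [← h5, ← h, LinearMap.smul_apply, LinearMap.smul_apply, smul_smul, mul_comm]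
  rw [h3, hH, LinearMap.smul_apply, LinearMap.smul_apply, TensorProduct.tmul_smul, h4,
    ← algebraMap_smul ℂ (-(mform X.q v' w')⁻¹ : ℚ), smul_smul]
  congr 1
  simp only [eq_ratCast, Rat.cast_neg, Rat.cast_inv, i3]
  field_simp

end

end Pool.Agent.HKO
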