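import Pool.Agent.HKO.Mult

/-! The graded transform `T₀ = γ ∘ Φ`. -/

open scoped TensorProduct

namespace Pool.Agent.HKO

noncomputable section

variable {n : ℕ} {V A V' A' : Type*} [AddCommGroup V] [Module ℚ V] [Ring A] [Algebra ℚ A]
  [AddCommGroup V'] [Module ℚ V'] [Ring A'] [Algebra ℚ A']

/-- The operator `γ = exp(lam y₂) exp(cup x) exp(lam y₁)`. -/
def gamOp (X : HKCohomology n V A) (y₁ x y₂ : V) : Module.End ℚ A :=
  IsNilpotent.exp (X.lam y₂) * IsNilpotent.exp (X.cup x) * IsNilpotent.exp (X.lam y₁)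

/-- Its inverse. -/
def gamInv (X : HKCohomology n V A) (y₁ x y₂ : V) : Module.End ℚ A :=
  IsNilpotent.exp (-X.lam y₁) * IsNilpotent.exp (-X.cup x) * IsNilpotent.exp (-X.lam y₂)

lemma gamOp_mul_inv (X : HKCohomology n V A) (hN : T_NIL X) (y₁ x y₂ : V) :
    gamOp X y₁ x y₂ * gamInv X y₁ x y₂ = 1 := by
  rw [gamOp, gamInv]
  calc IsNilpotent.exp (X.lam y₂) * IsNilpotent.exp (X.cup x) * IsNilpotent.exp (X.lam y₁) *
      (IsNilpotent.exp (-X.lam y₁) * IsNilpotent.exp (-X.cup x) * IsNilpotent.exp (-X.lam y₂))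
      = IsNilpotent.exp (X.lam y₂) * (IsNilpotent.exp (X.cup x) *
        (IsNilpotent.exp (X.lam y₁) * IsNilpotent.exp (-X.lam y₁)) *
        IsNilpotent.exp (-X.cup x)) * IsNilpotent.exp (-X.lam y₂) := by noncomm_ring
    _ = 1 := by
      rw [IsNilpotent.exp_mul_exp_neg_self (hN.2.1 y₁), mul_one,
        IsNilpotent.exp_mul_exp_neg_self (hN.1 x), mul_one,
        IsNilpotent.exp_mul_exp_neg_self (hN.2.1 y₂)]

lemma gamInv_mul_op (X : HKCohomology n V A) (hN : T_NIL X) (y₁ x y₂ : V) :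
    gamInv X y₁ x y₂ * gamOp X y₁ x y₂ = 1 := by
  rw [gamOp, gamInv]
  calc IsNilpotent.exp (-X.lam y₁) * IsNilpotent.exp (-X.cup x) * IsNilpotent.exp (-X.lam y₂) *
      (IsNilpotent.exp (X.lam y₂) * IsNilpotent.exp (X.cup x) * IsNilpotent.exp (X.lam y₁))
      = IsNilpotent.exp (-X.lam y₁) * (IsNilpotent.exp (-X.cup x) *
        (IsNilpotent.exp (-X.lam y₂) * IsNilpotent.exp (X.lam y₂)) *
        IsNilpotent.exp (X.cup x)) * IsNilpotent.exp (X.lam y₁) := by noncomm_ring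
    _ = 1 := by
      rw [IsNilpotent.exp_neg_mul_exp_self (hN.2.1 y₂), mul_one,
        IsNilpotent.exp_neg_mul_exp_self (hN.1 x), mul_one,
        IsNilpotent.exp_neg_mul_exp_self (hN.2.1 y₁)]

/-- `γ` as an equivalence. -/
def gamE (X : HKCohomology n V A) (hN : T_NIL X) (y₁ x y₂ : V) : A ≃ₗ[ℚ] A :=
  LinearEquiv.ofLinear (gamOp X y₁ x y₂) (gamInv X y₁ x y₂) (gamOp_mul_inv X hN y₁ x y₂)
    (gamInv_mul_op X hN y₁ x y₂)

lemma gamOp_conj (X : HKCohomology n V A) (hN : T_NIL X) (hW : T_WN X.q) (y₁ x y₂ : V)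
    (z t : Mk V) :
    gamOp X y₁ x y₂ * X.act z t =
      X.act (gam X.q y₁ x y₂ z) (gam X.q y₁ x y₂ t) * gamOp X y₁ x y₂ := by
  have c := p_CONJ X
  have h1 : ∀ y z t, IsNilpotent.exp (X.lam y) * X.act z t =
      X.act (IsNilpotent.exp (wedge X.q al (emb y)) z)
        (IsNilpotent.exp (wedge X.q al (emb y)) t) * IsNilpotent.exp (X.lam y) :=
    fun y z t => c al (emb y) z t (hN.2.1 y) ⟨3, (hW y).1⟩
  have h2 : ∀ y z t, IsNilpotent.exp (X.cup y) * X.act z t =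
      X.act (IsNilpotent.exp (wedge X.q be (emb y)) z)
        (IsNilpotent.exp (wedge X.q be (emb y)) t) * IsNilpotent.exp (X.cup y) := by
    intro y z t
    have := c be (emb y) z t (cup_eq X y ▸ hN.1 y) ⟨3, (hW y).2⟩
    rw [← cup_eq] at this
    exact this
  rw [gamOp, mul_assoc, h1, ← mul_assoc, mul_assoc (IsNilpotent.exp (X.lam y₂)), h2,
    ← mul_assoc, h1]
  simp only [gam, Module.End.mul_apply, mul_assoc]

lemma gam_form (q : V →ₗ[ℚ] V →ₗ[ℚ] ℚ) (hq : ∀ x y, q x y = q y x) (hW : T_WN q)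
    (y₁ x y₂ : V) (z t : Mk V) :
    mform q (gam q y₁ x y₂ z) (gam q y₁ x y₂ t) = mform q z t := by
  simp only [gam, Module.End.mul_apply]
  rw [mform_exp q ⟨3, (hW y₂).1⟩ (mform_wedge q hq _ _),
    mform_exp q ⟨3, (hW x).2⟩ (mform_wedge q hq _ _),
    mform_exp q ⟨3, (hW y₁).1⟩ (mform_wedge q hq _ _)]

section Transform

variable {X : HKCohomology n V A} {X' : HKCohomology n V' A'} (F : FourierMukai X X')
  (hN : T_NIL X') (y₁ x y₂ : V')

/-- `τ = gam ∘ φ`. -/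
def tau : Mk V →ₗ[ℚ] Mk V' := gam X'.q y₁ x y₂ ∘ₗ (F.φ : Mk V →ₗ[ℚ] Mk V')

/-- `T₀ = γ ∘ Φ`. -/
def T0 : A ≃ₗ[ℚ] A' := F.Φ.trans (gamE X' hN y₁ x y₂)

lemma T0_apply (a : A) : T0 F hN y₁ x y₂ a = gamOp X' y₁ x y₂ (F.Φ a) := rfl

lemma T0_act (hW : T_WN X'.q) (u v : Mk V) (a : A) :
    T0 F hN y₁ x y₂ (X.act u v a) =
      F.μ⁻¹ • X'.act (tau F y₁ x y₂ u) (tau F y₁ x y₂ v) (T0 F hN y₁ x y₂ a) := by
  rw [T0_apply, T0_apply, F.equivariant, map_smul]
  congr 1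
  have := LinearMap.congr_fun (gamOp_conj X' hN hW y₁ x y₂ (F.φ u) (F.φ v)) (F.Φ a)
  rw [Module.End.mul_apply, Module.End.mul_apply] at this
  exact this

lemma tau_form (hW : T_WN X'.q) (u v : Mk V) :
    mform X'.q (tau F y₁ x y₂ u) (tau F y₁ x y₂ v) = F.μ * mform X.q u v := by
  rw [tau, LinearMap.comp_apply, LinearMap.comp_apply, gam_form X'.q X'.q_symm hW]
  exact F.form u v

variable {F y₁ x y₂} {r b : ℚ} (hr : r ≠ 0) (hb : b ≠ 0)
  (hα : tau F y₁ x y₂ al = r • al) (hβ : tau F y₁ x y₂ be = b • be) (hW : T_WN X'.q)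

include hα hβ hW in
lemma rb_eq : r * b = F.μ := by
  have h := tau_form F y₁ x y₂ hW al be
  rw [hα, hβ] at h
  simp only [map_smul, LinearMap.smul_apply, mform_apply, al, be, smul_eq_mul] at h
  simp at h
  linarith

include hα hβ hW in
/-- `T₀` commutes with the degree operators. -/
lemma T0_deg (a : A) :
    T0 F hN y₁ x y₂ (X.act al be a) = X'.act al be (T0 F hN y₁ x y₂ a) := by
  rw [T0_act F hN y₁ x y₂ hW, hα, hβ, map_smul, LinearMap.smul_apply, map_smul, smul_smul,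
    LinearMap.smul_apply, LinearMap.smul_apply, smul_smul]
  have h := rb_eq (F := F) hα hβ hW
  rw [← h]
  have hrb : r * b ≠ 0 := by rw [h]; exact F.μ_ne
  rw [show (r * b)⁻¹ * b * r = 1 by rw [mul_assoc, mul_comm b r]; exact inv_mul_cancel₀ hrb,
    one_smul]

include hα hβ hW in
lemma T0_mem_gr (i : ℕ) (a : A) : T0 F hN y₁ x y₂ a ∈ X'.gr i ↔ a ∈ X.gr i := by
  rw [mem_gr_iff, mem_gr_iff, ← T0_deg hN hα hβ hW, ← map_smul]
  exact (T0 F hN y₁ x y₂).injective.eq_iff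

include hα hβ hW in
lemma T0_gr (i : ℕ) :
    (X.gr i).map (T0 F hN y₁ x y₂ : A →ₗ[ℚ] A') = X'.gr i := by
  ext w
  constructor
  · rintro ⟨a, ha, rfl⟩
    exact (T0_mem_gr hN hα hβ hW i a).mpr ha
  · intro hw
    refine ⟨(T0 F hN y₁ x y₂).symm w, ?_, by simp⟩
    apply (T0_mem_gr hN hα hβ hW i _).mp
    simpa using hw

include hα hβ hW in
lemma T0_one : ∃ c₀ : ℚ, c₀ ≠ 0 ∧ T0 F hN y₁ x y₂ 1 = c₀ • (1 : A') := by
  have h1 : (1 : A) ∈ X.gr 0 := by
    rw [X.gr_zero]; exact Submodule.subset_span rfl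
  have h2 := (T0_mem_gr hN hα hβ hW 0 1).mpr h1
  rw [X'.gr_zero, Submodule.mem_span_singleton] at h2
  obtain ⟨c, hc⟩ := h2
  refine ⟨c, ?_, hc.symm⟩
  rintro rfl
  rw [zero_smul] at hc
  exact X.one_ne ((T0 F hN y₁ x y₂).map_eq_zero_iff.mp hc.symm)

include hr hb hα hβ hW in
/-- `τ` maps `V` to `V'`. -/
lemma tau_emb (z : V) : tau F y₁ x y₂ (emb z) = emb ((tau F y₁ x y₂ (emb z)).2.1) := by
  have h1 := tau_form F y₁ x y₂ hW (emb z) al
  have h2 := tau_form F y₁ x y₂ hW (emb z) be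
  rw [hα] at h1
  rw [hβ] at h2
  set w := tau F y₁ x y₂ (emb z)
  rw [map_smul] at h1 h2
  simp only [mform_apply, al, be, emb_apply, smul_eq_mul] at h1 h2
  simp at h1 h2
  have e1 : w.2.2 = 0 := by
    rcases h1 with h | h
    · exact absurd h hr
    · exact h
  have e2 : w.1 = 0 := by
    rcases h2 with h | h
    · exact absurd h hb
    · exact h
  rw [emb_apply]
  exact Prod.ext e2 (Prod.ext rfl e1)

end Transform

end

end Pool.Agent.HKO
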