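import Pool.Agent.HKO.Targets2
import Pool.Agent.HKO.Grad

/-! Assembly: the graded rational transform is a ring isomorphism. -/

open scoped TensorProduct

namespace Pool.Agent.HKO

noncomputable section

variable {n : ℕ} {V A V' A' : Type*} [AddCommGroup V] [Module ℚ V] [Ring A] [Algebra ℚ A]
  [AddCommGroup V'] [Module ℚ V'] [Ring A'] [Algebra ℚ A']

lemma bc_mul (f g : Module.End ℚ A) :
    (f * g).baseChange ℂ = (f.baseChange ℂ : Module.End ℂ (ℂ ⊗[ℚ] A)) * g.baseChange ℂ :=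
  LinearMap.baseChange_mul f g

lemma bc_one : ((1 : Module.End ℚ A)).baseChange ℂ = (1 : Module.End ℂ (ℂ ⊗[ℚ] A)) :=
  LinearMap.baseChange_id

lemma bc_inj {f g : Module.End ℚ A} (h : f.baseChange ℂ = g.baseChange ℂ) : f = g := by
  ext a
  have := LinearMap.congr_fun h ((1 : ℂ) ⊗ₜ[ℚ] a)
  rw [LinearMap.baseChange_tmul, LinearMap.baseChange_tmul] at this
  exact one_tmul_inj this

lemma bc_exp {f : Module.End ℚ A} (hf : IsNilpotent f) :
    (IsNilpotent.exp f).baseChange ℂ =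
      (IsNilpotent.exp (f.baseChange ℂ) : Module.End ℂ (ℂ ⊗[ℚ] A)) := by
  obtain ⟨k, hk⟩ := hf
  have hp : ∀ i, (f ^ i).baseChange ℂ = ((f.baseChange ℂ : Module.End ℂ (ℂ ⊗[ℚ] A))) ^ i := by
    intro i
    induction i with
    | zero => rw [pow_zero, pow_zero, bc_one]
    | succ i ih => rw [pow_succ, pow_succ, bc_mul, ih]
  have hk' : ((f.baseChange ℂ : Module.End ℂ (ℂ ⊗[ℚ] A))) ^ k = 0 := by
    rw [← hp, hk, LinearMap.baseChange_zero]
  rw [IsNilpotent.exp_eq_sum hk, IsNilpotent.exp_eq_sum hk']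
  simp only [← hp]
  ext a
  simp [TensorProduct.tmul_sum, TensorProduct.tmul_smul]

lemma nil_bc {f : Module.End ℚ A} (hf : IsNilpotent f) :
    IsNilpotent (f.baseChange ℂ : Module.End ℂ (ℂ ⊗[ℚ] A)) := by
  obtain ⟨k, hk⟩ := hf
  have hp : ∀ i, (f ^ i).baseChange ℂ = ((f.baseChange ℂ : Module.End ℂ (ℂ ⊗[ℚ] A))) ^ i := by
    intro i
    induction i with
    | zero => rw [pow_zero, pow_zero, bc_one]
    | succ i ih => rw [pow_succ, pow_succ, bc_mul, ih]
  exact ⟨k, by rw [← hp, hk, LinearMap.baseChange_zero]⟩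

/-- Conjugation by `γ` preserves submodules stable under `lam` and `cup`. -/
lemma gam_conj_mem (X : HKCohomology n V A) (hN : T_NIL X) (y₁ x y₂ : V)
    (N : Submodule ℂ (Module.End ℂ (ℂ ⊗[ℚ] A)))
    (h1 : ∀ y, ∀ m ∈ N, cm ((X.lam y).baseChange ℂ) m ∈ N)
    (h2 : ∀ y, ∀ m ∈ N, cm ((X.cup y).baseChange ℂ) m ∈ N) {m : Module.End ℂ (ℂ ⊗[ℚ] A)}
    (hm : m ∈ N) :
    (gamOp X y₁ x y₂).baseChange ℂ * m * (gamInv X y₁ x y₂).baseChange ℂ ∈ N := by
  have e1 : ∀ y, ∀ m ∈ N, (IsNilpotent.exp (X.lam y)).baseChange ℂ * m *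
      (IsNilpotent.exp (-X.lam y)).baseChange ℂ ∈ N := by
    intro y m hm
    rw [bc_exp (hN.2.1 y), bc_exp (hN.2.1 y).neg, LinearMap.baseChange_neg]
    exact p_AD (ℂ ⊗[ℚ] A) N _ (nil_bc (hN.2.1 y)) (h1 y) m hm
  have e2 : ∀ y, ∀ m ∈ N, (IsNilpotent.exp (X.cup y)).baseChange ℂ * m *
      (IsNilpotent.exp (-X.cup y)).baseChange ℂ ∈ N := by
    intro y m hm
    rw [bc_exp (hN.1 y), bc_exp (hN.1 y).neg, LinearMap.baseChange_neg]
    exact p_AD (ℂ ⊗[ℚ] A) N _ (nil_bc (hN.1 y)) (h2 y) m hm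
  have := e1 y₂ _ (e2 x _ (e1 y₁ _ hm))
  rw [gamOp, gamInv, bc_mul, bc_mul, bc_mul, bc_mul]
  simpa only [mul_assoc] using this

lemma cm_zero_symm {R : Type*} [Ring R] {a b : R} (h : cm a b = 0) : a * b = b * a :=
  sub_eq_zero.mp h

/-- `γ` commutes with the Hodge operator. -/
lemma gam_hodge (X : HKCohomology n V A) (hN : T_NIL X) (hH : S_NSH X) {y₁ x y₂ : V}
    (h1 : y₁ ∈ X.NS) (h2 : x ∈ X.NS) (h3 : y₂ ∈ X.NS) :
    X.hodgeOp * (gamOp X y₁ x y₂).baseChange ℂ = (gamOp X y₁ x y₂).baseChange ℂ * X.hodgeOp := by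
  have key : ∀ f : Module.End ℚ A, IsNilpotent f → cm X.hodgeOp (f.baseChange ℂ) = 0 →
      Commute X.hodgeOp ((IsNilpotent.exp f).baseChange ℂ) := by
    intro f hf hc
    have hc' : Commute X.hodgeOp (f.baseChange ℂ) := cm_zero_symm hc
    rw [bc_exp hf]
    obtain ⟨k, hk⟩ := nil_bc hf
    rw [IsNilpotent.exp_eq_sum hk]
    refine Commute.sum_right _ _ _ fun i _ => ?_
    exact (hc'.pow_right i).smul_right _
  have c1 := key _ (hN.2.1 y₁) (hH y₁ h1).1
  have c2 := key _ (hN.1 x) (hH x h2).2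
  have c3 := key _ (hN.2.1 y₂) (hH y₂ h3).1
  rw [gamOp, bc_mul, bc_mul]
  exact ((c3.mul_right c2).mul_right c1)

section Assembly

variable {X : HKCohomology n V A} {X' : HKCohomology n V' A'} (F : MukaiTransform X X')

/-- The image of the degree operator under conjugation by `Φ`. -/
def hOp : Module.End ℚ A' :=
  (F.Φ : A →ₗ[ℚ] A') ∘ₗ X.act al be ∘ₗ (F.Φ.symm : A' →ₗ[ℚ] A)

lemma fphC_phI (c : ℂ ⊗[ℚ] A') : phC F (phI F c) = c := by
  rw [phC, phI, ← LinearMap.comp_apply, ← LinearMap.baseChange_comp]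
  have : (F.Φ : A →ₗ[ℚ] A') ∘ₗ (F.Φ.symm : A' →ₗ[ℚ] A) = LinearMap.id := by ext x; simp
  rw [this, LinearMap.baseChange_id]; rfl

lemma fphI_phC (c : ℂ ⊗[ℚ] A) : phI F (phC F c) = c := by
  rw [phC, phI, ← LinearMap.comp_apply, ← LinearMap.baseChange_comp]
  have : (F.Φ.symm : A' →ₗ[ℚ] A) ∘ₗ (F.Φ : A →ₗ[ℚ] A') = LinearMap.id := by ext x; simp
  rw [this, LinearMap.baseChange_id]; rfl

lemma hOp_bc : (hOp F).baseChange ℂ = phC F ∘ₗ actC X al be ∘ₗ phI F := by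
  rw [hOp, LinearMap.baseChange_comp, LinearMap.baseChange_comp]; rfl

/-- The degree operator commutes with the Hodge operator. -/
lemma deg_hodge (hS : S_STAR X) : cm X.hodgeOp (actC X al be) = 0 := by
  have h0 := actCC_lie X (embC X.sg) (embC (conjV V X.sg)) (1 ⊗ₜ al) (1 ⊗ₜ be)
  rw [wedgeC_apply, wedgeC_apply] at h0
  have e1 := mformC_symm X.q X.q_symm (embC (conjV V X.sg)) alC
  have e2 := mformC_symm X.q X.q_symm (embC X.sg) alC
  have e3 := mformC_symm X.q X.q_symm (embC (conjV V X.sg)) beC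
  have e4 := mformC_symm X.q X.q_symm (embC X.sg) beC
  rw [mformC_al_embC] at e1 e2
  rw [mformC_be_embC] at e3 e4
  rw [alC] at e1 e2
  rw [beC] at e3 e4
  rw [e1, e2, e3, e4, zero_smul, zero_smul, sub_self, map_zero, map_zero,
    LinearMap.zero_apply, add_zero, actCC_one] at h0
  rw [hS.2.2.2.2.1, cm, smul_mul_assoc, mul_smul_comm, sub_eq_zero.mp h0, sub_self]

lemma exists_vw (hS : S_STAR X) (hHT : S_HT F) (hD : S_DESC X') (hT : S_TYPE X')
    (hG : S_GAM X') : ∃ v w : Mk V', mform X'.q v w ≠ 0 ∧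
      hOp F = (-(mform X'.q v w)⁻¹) • X'.act v w ∧
      ∃ y₁ ∈ X'.NS, ∃ x ∈ X'.NS, ∃ y₂ ∈ X'.NS, ∃ r b : ℚ, r ≠ 0 ∧ b ≠ 0 ∧
      gam X'.q y₁ x y₂ v = r • al ∧ gam X'.q y₁ x y₂ w = b • be := by
  obtain ⟨v₁, w₁, hv₁, hw₁, hvw₁, h⟩ := hHT
  have h2 : (hOp F).baseChange ℂ = (-(mformC X'.q v₁ w₁)⁻¹) • actCC X' v₁ w₁ := by
    refine LinearMap.ext fun c => ?_
    rw [hOp_bc, LinearMap.comp_apply, LinearMap.comp_apply, h, fphC_phI]; rfl
  obtain ⟨v, w, hv, hw, hvw, h3⟩ := hD (hOp F) v₁ w₁ hv₁ hw₁ hvw₁ h2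
  have h4 : cm X'.hodgeOp ((hOp F).baseChange ℂ) = 0 := by
    refine LinearMap.ext fun c => ?_
    have e1 : ∀ d, X'.hodgeOp (phC F d) = phC F (X.hodgeOp d) := fun d => (F.hodge d).symm
    have e2 : ∀ d, phI F (X'.hodgeOp d) = X.hodgeOp (phI F d) := by
      intro d
      conv_lhs => rw [← fphC_phI F d]
      rw [e1, fphI_phC]
    have e3 := LinearMap.congr_fun (cm_zero_symm (deg_hodge hS)) (phI F c)
    rw [Module.End.mul_apply, Module.End.mul_apply] at e3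
    rw [hOp_bc, cm, LinearMap.sub_apply, Module.End.mul_apply, Module.End.mul_apply]
    simp only [LinearMap.comp_apply]
    rw [e1, e3, e2, sub_self]; rfl
  have h5 : cm X'.hodgeOp (actC X' v w) = 0 := by
    rw [h3, LinearMap.baseChange_smul] at h4
    have h6 : (-(mform X'.q v w)⁻¹) • cm X'.hodgeOp (actC X' v w) = 0 := by
      rw [← h4, cm, cm, smul_sub, mul_smul_comm, smul_mul_assoc]; rfl
    refine (smul_eq_zero.mp h6).resolve_left ?_
    exact neg_ne_zero.mpr (inv_ne_zero hvw)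
  obtain ⟨hv', hw'⟩ := hT v w hv hw hvw h5
  exact ⟨v, w, hvw, h3, hG v w hv hw hvw hv' hw'⟩

variable (hN : T_NIL X')

/-- The graded rational transform. -/
def T1 (y₁ x y₂ : V') : A ≃ₗ[ℚ] A' := F.Φ.trans (gamE X' hN y₁ x y₂)

lemma T1_apply (y₁ x y₂ : V') (a : A) : T1 F hN y₁ x y₂ a = gamOp X' y₁ x y₂ (F.Φ a) := rfl

variable {F} {v w : Mk V'} {y₁ x y₂ : V'} {r b : ℚ} (hvw : mform X'.q v w ≠ 0)
  (hH : hOp F = (-(mform X'.q v w)⁻¹) • X'.act v w)
  (hv : gam X'.q y₁ x y₂ v = r • al) (hw : gam X'.q y₁ x y₂ w = b • be)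
  (hW : T_WN X'.q)

include hvw hH hv hw hW in
lemma T1_deg (a : A) :
    T1 F hN y₁ x y₂ (X.act al be a) = X'.act al be (T1 F hN y₁ x y₂ a) := by
  have e1 : F.Φ (X.act al be a) = hOp F (F.Φ a) := by simp [hOp]
  rw [T1_apply, T1_apply, e1, hH, LinearMap.smul_apply, map_smul]
  have e2 := LinearMap.congr_fun (gamOp_conj X' hN hW y₁ x y₂ v w) (F.Φ a)
  rw [Module.End.mul_apply, Module.End.mul_apply] at e2
  rw [e2, hv, hw, map_smul, LinearMap.smul_apply, map_smul]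
  simp only [LinearMap.smul_apply, smul_smul]
  have e3 : mform X'.q v w = - (r * b) := by
    rw [← gam_form X'.q X'.q_symm hW y₁ x y₂ v w, hv, hw]
    simp [al, be]
  rw [e3] at hvw ⊢
  have e4 : r * b ≠ 0 := neg_ne_zero.mp hvw
  have e5 : -(-(r * b))⁻¹ * (b * r) = 1 := by
    rw [inv_neg, neg_neg, mul_comm b r]; exact inv_mul_cancel₀ e4
  rw [e5, one_smul]

include hvw hH hv hw hW in
lemma T1_mem_gr (i : ℕ) (a : A) : T1 F hN y₁ x y₂ a ∈ X'.gr i ↔ a ∈ X.gr i := by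
  rw [mem_gr_iff, mem_gr_iff, ← T1_deg hN hvw hH hv hw hW, ← map_smul]
  exact (T1 F hN y₁ x y₂).injective.eq_iff

include hvw hH hv hw hW in
lemma T1_gr (i : ℕ) :
    (X.gr i).map (T1 F hN y₁ x y₂ : A →ₗ[ℚ] A') = X'.gr i := by
  ext c
  constructor
  · rintro ⟨a, ha, rfl⟩
    exact (T1_mem_gr hN hvw hH hv hw hW i a).mpr ha
  · intro hc
    refine ⟨(T1 F hN y₁ x y₂).symm c, ?_, by simp⟩
    apply (T1_mem_gr hN hvw hH hv hw hW i _).mp
    simpa using hc

include hvw hH hv hw hW in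
lemma T1_one : ∃ c₀ : ℚ, c₀ ≠ 0 ∧ T1 F hN y₁ x y₂ 1 = c₀ • (1 : A') := by
  have h1 : (1 : A) ∈ X.gr 0 := by
    rw [X.gr_zero]; exact Submodule.subset_span rfl
  have h2 := (T1_mem_gr hN hvw hH hv hw hW 0 1).mpr h1
  rw [X'.gr_zero, Submodule.mem_span_singleton] at h2
  obtain ⟨c, hc⟩ := h2
  refine ⟨c, ?_, hc.symm⟩
  rintro rfl
  rw [zero_smul] at hc
  exact X.one_ne ((T1 F hN y₁ x y₂).map_eq_zero_iff.mp hc.symm)

end Assembly

section Final

variable {X : HKCohomology n V A} {X' : HKCohomology n V' A'} (F : MukaiTransform X X')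
  (hN : T_NIL X')

/-- Complexified graded transform. -/
def T1C (y₁ x y₂ : V') : (ℂ ⊗[ℚ] A) →ₗ[ℂ] (ℂ ⊗[ℚ] A') :=
  (T1 F hN y₁ x y₂ : A →ₗ[ℚ] A').baseChange ℂ

lemma T1C_eq (y₁ x y₂ : V') (c : ℂ ⊗[ℚ] A) :
    T1C F hN y₁ x y₂ c = (gamOp X' y₁ x y₂).baseChange ℂ (phC F c) := by
  have : (T1 F hN y₁ x y₂ : A →ₗ[ℚ] A') =
      gamOp X' y₁ x y₂ ∘ₗ (F.Φ : A →ₗ[ℚ] A') := by ext a; rfl
  rw [T1C, this, LinearMap.baseChange_comp]; rfl

lemma gamInvC (hN : T_NIL X') (y₁ x y₂ : V') (c : ℂ ⊗[ℚ] A') :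
    (gamInv X' y₁ x y₂).baseChange ℂ ((gamOp X' y₁ x y₂).baseChange ℂ c) = c := by
  have h := gamInv_mul_op X' hN y₁ x y₂
  have h2 : (gamInv X' y₁ x y₂).baseChange ℂ * (gamOp X' y₁ x y₂).baseChange ℂ =
      (1 : Module.End ℂ (ℂ ⊗[ℚ] A')) := by rw [← bc_mul, h, bc_one]
  exact LinearMap.congr_fun h2 c

/-- Cup products are mapped into `MM` by the graded transform. -/
lemma T1_MM (hS' : T_STAB X') (hP : S_PHI F) (y₁ x y₂ : V') (a : ℂ ⊗[ℚ] A) :
    ∃ m ∈ MM X', ∀ c : ℂ ⊗[ℚ] A, T1C F hN y₁ x y₂ (a * c) = m (T1C F hN y₁ x y₂ c) := by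
  obtain ⟨m, hm, h⟩ := hP a
  refine ⟨(gamOp X' y₁ x y₂).baseChange ℂ * m * (gamInv X' y₁ x y₂).baseChange ℂ,
    gam_conj_mem X' hN y₁ x y₂ (MM X') (fun y m hm => hS'.1 al (emb y) m hm)
      (fun y m hm => ?_) hm, fun c => ?_⟩
  · have := hS'.1 be (emb y) m hm
    rwa [actC, ← cup_eq] at this
  · rw [T1C_eq, T1C_eq, h]
    simp only [Module.End.mul_apply, gamInvC hN]

lemma GG_stable (X : HKCohomology n V A) (u v : Mk V) : ∀ m ∈ GG X, cm (actC X u v) m ∈ GG X := by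
  intro m hm
  refine Submodule.span_induction ?_ ?_ ?_ ?_ hm
  · rintro _ ⟨z, t, rfl⟩
    rw [cm, actC_lie']
    exact (GG X).add_mem (Submodule.subset_span ⟨_, _, rfl⟩) (Submodule.subset_span ⟨_, _, rfl⟩)
  · rw [cm, mul_zero, zero_mul, sub_zero]; exact (GG X).zero_mem
  · intro a b _ _ ha hb
    have : cm (actC X u v) (a + b) = cm (actC X u v) a + cm (actC X u v) b := by
      simp only [cm]; noncomm_ring
    rw [this]; exact (GG X).add_mem ha hb
  · intro c a _ ha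
    have : cm (actC X u v) (c • a) = c • cm (actC X u v) a := by
      simp only [cm]; rw [mul_smul_comm, smul_mul_assoc, smul_sub]
    rw [this]; exact (GG X).smul_mem c ha

variable {F} {v w : Mk V'} {y₁ x y₂ : V'} {r b : ℚ} (hvw : mform X'.q v w ≠ 0)
  (hH : hOp F = (-(mform X'.q v w)⁻¹) • X'.act v w)
  (hv : gam X'.q y₁ x y₂ v = r • al) (hw : gam X'.q y₁ x y₂ w = b • be)
  (hW : T_WN X'.q)

include hvw hH hv hw hW in
/-- The graded transform is equivariant for cup products with `H²`. -/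
lemma T1_cup (hG : S_GG F) (hWt : S_WT X') {c₀ : ℚ} (hc : c₀ ≠ 0)
    (h1 : T1 F hN y₁ x y₂ 1 = c₀ • (1 : A')) :
    ∃ t : V → V', Function.Surjective t ∧
      (∀ z, T1 F hN y₁ x y₂ (X.cls z) = c₀ • X'.cls (t z)) ∧
      ∀ z a, T1 F hN y₁ x y₂ (X.cup z a) = (1 : ℚ) • X'.cup (t z) (T1 F hN y₁ x y₂ a) := by
  set T := T1 F hN y₁ x y₂ with hT
  have hcls : ∀ z, X.cls z ∈ X.gr 2 := fun z => X.cls_range ▸ LinearMap.mem_range_self _ z
  have hcls' : ∀ z, X'.cls z ∈ X'.gr 2 := fun z => X'.cls_range ▸ LinearMap.mem_range_self _ z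
  have ht : ∀ z, ∃ z', T (X.cls z) = c₀ • X'.cls z' := by
    intro z
    have e := (T1_mem_gr hN hvw hH hv hw hW 2 (X.cls z)).mpr (hcls z)
    rw [← X'.cls_range] at e
    obtain ⟨z', hz'⟩ := e
    exact ⟨c₀⁻¹ • z', by rw [map_smul, smul_smul, mul_inv_cancel₀ hc, one_smul, hz']⟩
  choose t ht using ht
  refine ⟨t, ?_, ht, ?_⟩
  · intro z'
    have e : T.symm (c₀ • X'.cls z') ∈ X.gr 2 := by
      apply (T1_mem_gr hN hvw hH hv hw hW 2 _).mp
      rw [← hT, LinearEquiv.apply_symm_apply]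
      exact (X'.gr 2).smul_mem _ (hcls' z')
    rw [← X.cls_range] at e
    obtain ⟨z, hz⟩ := e
    refine ⟨z, ?_⟩
    have e2 := ht z
    rw [hz, LinearEquiv.apply_symm_apply] at e2
    have e3 := smul_right_injective A' hc e2
    exact (X'.cls_inj e3).symm
  · intro z a
    have m1 : actC X be (emb z) ∈ GG X := Submodule.subset_span ⟨_, _, rfl⟩
    have m2 := hG _ m1
    have m3 := gam_conj_mem X' hN y₁ x y₂ (GG X')
      (fun y m hm => GG_stable X' al (emb y) m hm)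
      (fun y m hm => by
        have := GG_stable X' be (emb y) m hm
        rwa [actC, ← cup_eq] at this) m2
    set m := (gamOp X' y₁ x y₂).baseChange ℂ * (phC F ∘ₗ actC X be (emb z) ∘ₗ phI F) *
      (gamInv X' y₁ x y₂).baseChange ℂ with hm
    have m4 : ∀ c, m (T1C F hN y₁ x y₂ c) = T1C F hN y₁ x y₂ (actC X be (emb z) c) := by
      intro c
      rw [hm, T1C_eq, T1C_eq, Module.End.mul_apply, Module.End.mul_apply, gamInvC hN]
      simp only [LinearMap.comp_apply, fphI_phC]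
    clear_value m
    have hsurj : Function.Surjective (T1C F hN y₁ x y₂) := by
      intro c
      refine ⟨(T.symm : A' →ₗ[ℚ] A).baseChange ℂ c, ?_⟩
      rw [T1C, ← hT, ← LinearMap.comp_apply, ← LinearMap.baseChange_comp]
      have : (T : A →ₗ[ℚ] A') ∘ₗ (T.symm : A' →ₗ[ℚ] A) = LinearMap.id := by ext x; simp
      rw [this, LinearMap.baseChange_id]; rfl
    have hdeg : ∀ c, T1C F hN y₁ x y₂ (actC X al be c) =
        actC X' al be (T1C F hN y₁ x y₂ c) := by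
      intro c
      have : (T : A →ₗ[ℚ] A') ∘ₗ X.act al be = X'.act al be ∘ₗ (T : A →ₗ[ℚ] A') := by
        ext a; exact T1_deg hN hvw hH hv hw hW a
      have h2 := congrArg (LinearMap.baseChange ℂ) this
      rw [LinearMap.baseChange_comp, LinearMap.baseChange_comp] at h2
      exact LinearMap.congr_fun h2 c
    have m5 : cm (actC X' al be) m = m := by
      refine LinearMap.ext fun c' => ?_
      obtain ⟨c, rfl⟩ := hsurj c'
      rw [cm, LinearMap.sub_apply, Module.End.mul_apply, Module.End.mul_apply, m4, ← hdeg,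
        ← hdeg, m4, ← map_sub]
      congr 1
      have h3 := actC_lie' X al be be (emb z)
      have h4 : wedge X.q al be be = (be : Mk V) := by
        rw [wedge_apply]; simp [al, be]
      have h5 : wedge X.q al be (emb z) = (0 : Mk V) := by
        rw [wedge_apply]; simp [al, be]
      rw [h4, h5] at h3
      have h6 : actC X be (0 : Mk V) = 0 := by
        rw [actC, map_zero, LinearMap.baseChange_zero]
      rw [h6, add_zero] at h3
      exact LinearMap.congr_fun h3 c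
    obtain ⟨s, hs⟩ := hWt m m3 m5
    have hop : ∀ (s : ℂ ⊗[ℚ] V') (c : ℂ ⊗[ℚ] A'),
        opC X'.cup s c = X'.cls.baseChange ℂ s * c := by
      intro s c
      induction s using TensorProduct.induction_on with
      | zero => simp
      | add s t hs ht => rw [map_add, LinearMap.add_apply, hs, ht, map_add, add_mul]
      | tmul k y =>
        induction c using TensorProduct.induction_on with
        | zero => simp
        | add c d hc hd => rw [map_add, hc, hd, mul_add]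
        | tmul l d =>
          simp only [opC, LinearMap.liftBaseChange_tmul, LinearMap.comp_apply,
            LinearMap.smul_apply, LinearMap.baseChangeHom_apply, LinearMap.baseChange_tmul,
            Algebra.TensorProduct.tmul_mul_tmul, cup_apply, TensorProduct.smul_tmul',
            smul_eq_mul]
    have hTC : ∀ a : A, T1C F hN y₁ x y₂ (1 ⊗ₜ a) = 1 ⊗ₜ T a := by
      intro a; rw [T1C, LinearMap.baseChange_tmul]; rfl
    have hact : ∀ a : A, actC X be (emb z) (1 ⊗ₜ a) = 1 ⊗ₜ (X.cup z a) := by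
      intro a; rw [actC, LinearMap.baseChange_tmul, ← cup_eq]
    have e1 := m4 (1 ⊗ₜ[ℚ] (1 : A))
    rw [hs, hop, hact, hTC, hTC, h1, TensorProduct.tmul_smul, ← Algebra.TensorProduct.one_def,
      mul_smul_comm, mul_one, cup_apply, mul_one, ht, TensorProduct.tmul_smul] at e1
    have e2 : X'.cls.baseChange ℂ s = 1 ⊗ₜ[ℚ] (X'.cls (t z)) :=
      smul_right_injective _ hc e1
    have e3 := m4 (1 ⊗ₜ[ℚ] a)
    rw [hs, hop, hact, hTC, hTC, e2, Algebra.TensorProduct.tmul_mul_tmul, one_mul] at e3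
    rw [one_smul, cup_apply X']
    exact (one_tmul_inj e3).symm

end Final

end

end Pool.Agent.HKO
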