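import Pool.Agent.HKO.Fin

/-! Assembly, second part: Hodge pieces and the final statement from the blocks. -/

open scoped TensorProduct

namespace Pool.Agent.HKO

noncomputable section

variable {n : ℕ} {V A V' A' : Type*} [AddCommGroup V] [Module ℚ V] [Ring A] [Algebra ℚ A]
  [AddCommGroup V'] [Module ℚ V'] [Ring A'] [Algebra ℚ A']

lemma bc_map_eq (T : A ≃ₗ[ℚ] A') (p : Submodule ℚ A) (p' : Submodule ℚ A')
    (h : p.map (T : A →ₗ[ℚ] A') = p') :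
    (p.baseChange ℂ).map ((T : A →ₗ[ℚ] A').baseChange ℂ) = p'.baseChange ℂ := by
  subst h
  rw [Submodule.baseChange_eq_span, Submodule.baseChange_eq_span, Submodule.map_span]
  congr 1
  ext c
  constructor
  · rintro ⟨_, ⟨a, ha, rfl⟩, rfl⟩
    exact ⟨T a, ⟨a, ha, rfl⟩, by simp⟩
  · rintro ⟨_, ⟨a, ha, rfl⟩, rfl⟩
    exact ⟨1 ⊗ₜ a, ⟨a, ha, rfl⟩, by simp⟩

/-- A graded rational isomorphism commuting with the Hodge operators respects the Hodge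
pieces. -/
lemma hodge_map (X : HKCohomology n V A) (X' : HKCohomology n V' A') (T : A ≃ₗ[ℚ] A')
    (hgr : ∀ i, (X.gr i).map (T : A →ₗ[ℚ] A') = X'.gr i)
    (hop : ∀ c, (T : A →ₗ[ℚ] A').baseChange ℂ (X.hodgeOp c) =
      X'.hodgeOp ((T : A →ₗ[ℚ] A').baseChange ℂ c)) (p q : ℕ) :
    (X.hodge p q).map ((T : A →ₗ[ℚ] A').baseChange ℂ) = X'.hodge p q := by
  have hinj : Function.Injective ((T : A →ₗ[ℚ] A').baseChange ℂ) := by
    have : ∀ c, (T.symm : A' →ₗ[ℚ] A).baseChange ℂ ((T : A →ₗ[ℚ] A').baseChange ℂ c) = c := by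
      intro c
      rw [← LinearMap.comp_apply, ← LinearMap.baseChange_comp]
      have : (T.symm : A' →ₗ[ℚ] A) ∘ₗ (T : A →ₗ[ℚ] A') = LinearMap.id := by ext x; simp
      rw [this, LinearMap.baseChange_id]; rfl
    exact Function.LeftInverse.injective this
  have hg := bc_map_eq T (X.gr (p + q)) (X'.gr (p + q)) (hgr (p + q))
  ext c
  constructor
  · rintro ⟨a, ⟨ha1, ha2⟩, rfl⟩
    refine ⟨hg ▸ Submodule.mem_map_of_mem ha1, ?_⟩
    have ha3 := LinearMap.mem_ker.mp ha2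
    rw [LinearMap.sub_apply, LinearMap.smul_apply, Module.End.one_apply] at ha3
    refine LinearMap.mem_ker.mpr ?_
    rw [LinearMap.sub_apply, LinearMap.smul_apply, Module.End.one_apply, ← hop, ← map_smul,
      ← map_sub, ha3, map_zero]
  · rintro ⟨hc1, hc2⟩
    have hc1' : c ∈ (X'.gr (p + q)).baseChange ℂ := hc1
    rw [← hg] at hc1'
    obtain ⟨a, ha, rfl⟩ := hc1'
    refine ⟨a, ⟨ha, ?_⟩, rfl⟩
    refine LinearMap.mem_ker.mpr (hinj ?_)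
    have hc3 := LinearMap.mem_ker.mp hc2
    rw [LinearMap.sub_apply, LinearMap.smul_apply, Module.End.one_apply, ← hop, ← map_smul,
      ← map_sub] at hc3
    rw [LinearMap.sub_apply, LinearMap.smul_apply, Module.End.one_apply, hc3, map_zero]

/-- The scalar multiple `c₀⁻¹ • T₀` as an algebra isomorphism. -/
def algOf (T : A ≃ₗ[ℚ] A') (c₀ : ℚ) (hc : c₀ ≠ 0) (h1 : T 1 = c₀ • (1 : A'))
    (hm : ∀ a b, T (a * b) = c₀⁻¹ • (T a * T b)) : A ≃ₐ[ℚ] A' :=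
  AlgEquiv.ofLinearEquiv (T.trans (LinearEquiv.smulOfNeZero ℚ A' c₀⁻¹ (inv_ne_zero hc)))
    (by
      simp only [LinearEquiv.trans_apply, LinearEquiv.smulOfNeZero_apply, h1, smul_smul,
        inv_mul_cancel₀ hc, one_smul])
    (by
      intro a b
      simp only [LinearEquiv.trans_apply, LinearEquiv.smulOfNeZero_apply, hm,
        smul_mul_smul_comm, smul_smul])

lemma algOf_apply (T : A ≃ₗ[ℚ] A') (c₀ : ℚ) (hc : c₀ ≠ 0) (h1 : T 1 = c₀ • (1 : A'))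
    (hm : ∀ a b, T (a * b) = c₀⁻¹ • (T a * T b)) (a : A) :
    algOf T c₀ hc h1 hm a = c₀⁻¹ • T a := rfl

/-- The subalgebra generated by the cup products with `(1,1)`-classes and their Lefschetz dual
operators. -/
def lefAlg (X : HKCohomology n V A) : Subalgebra ℚ (Module.End ℚ A) :=
  Algebra.adjoin ℚ {f | ∃ y ∈ X.NS, f = X.cup y ∨ f = X.lam y}

lemma exp_mem_sub {S : Subalgebra ℚ (Module.End ℚ A)} {f : Module.End ℚ A}
    (hf : IsNilpotent f) (h : f ∈ S) : IsNilpotent.exp f ∈ S := by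
  obtain ⟨k, hk⟩ := hf
  rw [IsNilpotent.exp_eq_sum hk]
  exact S.sum_mem fun i _ => S.smul_mem (S.pow_mem h i) _

lemma gam_mem (X : HKCohomology n V A) (hN : T_NIL X) {y₁ x y₂ : V} (h1 : y₁ ∈ X.NS)
    (h2 : x ∈ X.NS) (h3 : y₂ ∈ X.NS) :
    gamOp X y₁ x y₂ ∈ lefAlg X ∧ gamInv X y₁ x y₂ ∈ lefAlg X := by
  have e1 : ∀ y ∈ X.NS, X.lam y ∈ lefAlg X := fun y hy =>
    Algebra.subset_adjoin ⟨y, hy, Or.inr rfl⟩
  have e2 : ∀ y ∈ X.NS, X.cup y ∈ lefAlg X := fun y hy =>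
    Algebra.subset_adjoin ⟨y, hy, Or.inl rfl⟩
  refine ⟨?_, ?_⟩
  · refine (lefAlg X).mul_mem ((lefAlg X).mul_mem ?_ ?_) ?_
    · exact exp_mem_sub (hN.2.1 y₂) (e1 _ h3)
    · exact exp_mem_sub (hN.1 x) (e2 _ h2)
    · exact exp_mem_sub (hN.2.1 y₁) (e1 _ h1)
  · refine (lefAlg X).mul_mem ((lefAlg X).mul_mem ?_ ?_) ?_
    · exact exp_mem_sub (hN.2.1 y₁).neg ((lefAlg X).neg_mem (e1 _ h1))
    · exact exp_mem_sub (hN.1 x).neg ((lefAlg X).neg_mem (e2 _ h2))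
    · exact exp_mem_sub (hN.2.1 y₂).neg ((lefAlg X).neg_mem (e1 _ h3))

/-- The final statement from the blocks. -/
theorem final_of {X : HKCohomology n V A} {X' : HKCohomology n V' A'} (F : MukaiTransform X X')
    (hN : T_NIL X') (hStab : T_STAB X') (hKey : T_KEY X') (hW : T_WN X'.q) (hS : S_STAR X)
    (hHT : S_HT F) (hD : S_DESC X') (hT : S_TYPE X') (hGam : S_GAM X') (hGG : S_GG F)
    (hPhi : S_PHI F) (hWt : S_WT X') (hNS : S_NSH X') :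
    ∃ T : A ≃ₐ[ℚ] A',
      (∀ i, (X.gr i).map (T.toLinearMap) = X'.gr i) ∧
      (∀ p q, (X.hodge p q).map (T.toLinearMap.baseChange ℂ) = X'.hodge p q) ∧
      ∃ γ δ : Module.End ℚ A', γ ∈ lefAlg X' ∧ δ ∈ lefAlg X' ∧ γ * δ = 1 ∧ δ * γ = 1 ∧
        ∀ a, T a = γ (F.Φ a) := by
  obtain ⟨v, w, hvw, hH, y₁, h1, x, h2, y₂, h3, r, b, hr, hb, hv, hw⟩ :=
    exists_vw F hS hHT hD hT hGam
  obtain ⟨c₀, hc, hone⟩ := T1_one hN hvw hH hv hw hW
  obtain ⟨t, ht, htc, hE⟩ := T1_cup hN hvw hH hv hw hW hGG hWt hc hone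
  have hmul : ∀ a b, T1 F hN y₁ x y₂ (a * b) =
      c₀⁻¹ • (T1 F hN y₁ x y₂ a * T1 F hN y₁ x y₂ b) := fun a b =>
    mult_of X X' (T1 F hN y₁ x y₂) 1 one_ne_zero t ht hE c₀ hc hone
      (fun a => T1_MM F hN hStab hPhi y₁ x y₂ _) hKey a b
  have hgr := T1_gr (F := F) hN hvw hH hv hw hW
  have hop : ∀ c, (T1 F hN y₁ x y₂ : A →ₗ[ℚ] A').baseChange ℂ (X.hodgeOp c) =
      X'.hodgeOp ((T1 F hN y₁ x y₂ : A →ₗ[ℚ] A').baseChange ℂ c) := by
    intro c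
    have e := T1C_eq F hN y₁ x y₂
    rw [T1C] at e
    rw [e, e]
    have e2 : phC F (X.hodgeOp c) = X'.hodgeOp (phC F c) := F.hodge c
    rw [e2]
    have e3 := LinearMap.congr_fun (gam_hodge X' hN hNS h1 h2 h3) (phC F c)
    rw [Module.End.mul_apply, Module.End.mul_apply] at e3
    exact e3.symm
  have hc' : c₀⁻¹ ≠ 0 := inv_ne_zero hc
  set T := algOf (T1 F hN y₁ x y₂) c₀ hc hone hmul with hTdef
  have hTl : ∀ a, T a = c₀⁻¹ • T1 F hN y₁ x y₂ a := fun a => rfl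
  have hgr' : ∀ i, (X.gr i).map (T.toLinearEquiv : A →ₗ[ℚ] A') = X'.gr i := by
    intro i
    rw [← hgr i]
    ext c
    constructor
    · rintro ⟨a, ha, rfl⟩
      exact ⟨c₀⁻¹ • a, (X.gr i).smul_mem _ ha, by simp [hTl]⟩
    · rintro ⟨a, ha, rfl⟩
      exact ⟨c₀ • a, (X.gr i).smul_mem _ ha, by simp [hTl, smul_smul, mul_inv_cancel₀ hc,
        inv_mul_cancel₀ hc]⟩
  have hTb : ∀ c, (T.toLinearEquiv : A →ₗ[ℚ] A').baseChange ℂ c =
      c₀⁻¹ • (T1 F hN y₁ x y₂ : A →ₗ[ℚ] A').baseChange ℂ c := by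
    intro c
    have : (T.toLinearEquiv : A →ₗ[ℚ] A') = c₀⁻¹ • (T1 F hN y₁ x y₂ : A →ₗ[ℚ] A') := by
      ext a; exact hTl a
    rw [this, LinearMap.baseChange_smul]; rfl
  obtain ⟨hm1, hm2⟩ := gam_mem X' hN h1 h2 h3
  refine ⟨T, hgr', ?_, c₀⁻¹ • gamOp X' y₁ x y₂, c₀ • gamInv X' y₁ x y₂,
    (lefAlg X').smul_mem hm1 _, (lefAlg X').smul_mem hm2 _, ?_, ?_, fun a => rfl⟩
  · intro p q
    refine hodge_map X X' T.toLinearEquiv hgr' ?_ p q
    intro c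
    rw [hTb, hTb, hop, LinearMap.map_smul_of_tower]
  · rw [smul_mul_smul_comm, inv_mul_cancel₀ hc, one_smul, gamOp_mul_inv X' hN]
  · rw [smul_mul_smul_comm, mul_inv_cancel₀ hc, one_smul, gamInv_mul_op X' hN]

end

end Pool.Agent.HKO
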