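import Pool.Agent.HKO.Targets

/-! Nilpotency of the cup products and of the Lefschetz dual operators. -/

open scoped TensorProduct

namespace Pool.Agent.HKO

noncomputable section

variable {n : ℕ} {V A : Type*} [AddCommGroup V] [Module ℚ V] [Ring A] [Algebra ℚ A]

theorem cls_mem (X : HKCohomology n V A) (x : V) : X.cls x ∈ X.gr 2 := by
  rw [← X.cls_range]
  exact LinearMap.mem_range_self _ _

theorem cup_nil (X : HKCohomology n V A) (x : V) : IsNilpotent (X.cup x) := by
  let _ := X.graded
  refine ⟨2 * n + 1, ?_⟩
  have h1 : X.cup x = LinearMap.mulLeft ℚ (X.cls x) := rfl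
  have h2 : X.cls x ^ (2 * n + 1) ∈ X.gr ((2 * n + 1) • 2) :=
    SetLike.pow_mem_graded (2 * n + 1) (cls_mem X x)
  rw [X.gr_top _ (by simp only [smul_eq_mul]; omega), Submodule.mem_bot] at h2
  rw [h1, LinearMap.pow_mulLeft, h2, LinearMap.mulLeft_zero_eq_zero]

theorem cup_comm (X : HKCohomology n V A) (x y : V) : Commute (X.cup x) (X.cup y) := by
  have h1 := X.comm 2 2 (X.cls x) (X.cls y) (cls_mem X x) (cls_mem X y)
  have h2 : X.cls x * X.cls y = X.cls y * X.cls x := by
    rw [h1]
    norm_num
  show X.cup x * X.cup y = X.cup y * X.cup x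
  ext a
  show X.cls x * (X.cls y * a) = X.cls y * (X.cls x * a)
  rw [← mul_assoc, h2, mul_assoc]

theorem lam_comm_deg (X : HKCohomology n V A) (y : V) (a : A) :
    X.act al be (X.lam y a) = X.lam y (X.act al be a) - X.lam y a := by
  have h1 := X.act_lie al be al (emb y)
  have e1 : wedge X.q al be al = -al := by
    simp [wedge, mform, al, be]
  have e2 : wedge X.q al be (emb y) = 0 := by
    simp [wedge, mform, al, be, emb]
  rw [e1, e2, map_zero, add_zero, map_neg, LinearMap.neg_apply] at h1
  have h2 := congrArg (fun f : Module.End ℚ A => f a) h1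
  simp only [LinearMap.sub_apply, Module.End.mul_apply, LinearMap.neg_apply] at h2
  have h3 : X.act al be (X.lam y a) - X.lam y (X.act al be a) = - X.lam y a := h2
  rw [sub_eq_iff_eq_add] at h3
  rw [h3]
  abel

theorem lam_lower (X : HKCohomology n V A) (y : V) (i : ℕ) (a : A) (ha : a ∈ X.gr i) :
    (2 ≤ i → X.lam y a ∈ X.gr (i - 2)) ∧ (i < 2 → X.lam y a = 0) := by
  let _ := X.graded
  classical
  set b := X.lam y a with hb
  have h1 : X.act al be b = ((i : ℚ) / 2 - n - 1) • b := by
    rw [hb, lam_comm_deg, X.act_deg i a ha, map_smul, sub_smul _ (1 : ℚ), one_smul]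
  -- the components
  have hcomp : ∀ j : ℕ, ((j : ℚ) / 2 - n) • (DirectSum.decompose X.gr b j : A) =
      ((i : ℚ) / 2 - n - 1) • (DirectSum.decompose X.gr b j : A) := by
    intro j
    have h2 : X.act al be b = ∑ k ∈ (DirectSum.decompose X.gr b).support,
        ((k : ℚ) / 2 - n) • (DirectSum.decompose X.gr b k : A) := by
      conv_lhs => rw [← DirectSum.sum_support_decompose X.gr b]
      rw [map_sum]
      exact Finset.sum_congr rfl fun k _ => X.act_deg k _ (SetLike.coe_mem _)
    have h3 := congrArg (GradedAlgebra.proj X.gr j) (h2.symm.trans h1)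
    rw [map_sum, map_smul, GradedAlgebra.proj_apply] at h3
    rw [Finset.sum_eq_single j] at h3
    · rw [map_smul, GradedAlgebra.proj_apply,
        DirectSum.decompose_of_mem_same X.gr (SetLike.coe_mem _)] at h3
      exact h3
    · intro k _ hk
      rw [map_smul, GradedAlgebra.proj_apply,
        DirectSum.decompose_of_mem_ne X.gr (SetLike.coe_mem _) hk, smul_zero]
    · intro hj
      rw [DFinsupp.notMem_support_iff] at hj
      rw [hj]
      simp
  have hzero : ∀ j, j + 2 ≠ i → (DirectSum.decompose X.gr b j : A) = 0 := by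
    intro j hj
    have h2 := hcomp j
    rw [← sub_eq_zero, ← sub_smul, smul_eq_zero] at h2
    rcases h2 with h2 | h2
    · exfalso
      apply hj
      have h3 : (j : ℚ) + 2 = i := by linarith
      exact_mod_cast h3
    · exact h2
  constructor
  · intro hi
    have h2 : b = DirectSum.decompose X.gr b (i - 2) := by
      conv_lhs => rw [← DirectSum.sum_support_decompose X.gr b]
      rw [Finset.sum_eq_single (i - 2)]
      · intro k _ hk
        exact hzero k (by omega)
      · intro hj
        rw [DFinsupp.notMem_support_iff] at hj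
        rw [hj]
        simp
    rw [h2]
    exact SetLike.coe_mem _
  · intro hi
    rw [← DirectSum.sum_support_decompose X.gr b]
    exact Finset.sum_eq_zero fun k _ => hzero k (by omega)

theorem lam_pow (X : HKCohomology n V A) (y : V) (i : ℕ) (a : A) (ha : a ∈ X.gr i) (k : ℕ) :
    (2 * k ≤ i → (X.lam y ^ k) a ∈ X.gr (i - 2 * k)) ∧ (i < 2 * k → (X.lam y ^ k) a = 0) := by
  induction k with
  | zero => exact ⟨fun _ => by simpa using ha, fun h => by omega⟩
  | succ k ih =>
    rw [pow_succ', Module.End.mul_apply]
    constructor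
    · intro h
      have h1 := (lam_lower X y _ _ (ih.1 (by omega))).1 (by omega)
      have e : i - 2 * (k + 1) = i - 2 * k - 2 := by omega
      rw [e]
      exact h1
    · intro h
      by_cases h2 : i < 2 * k
      · rw [ih.2 h2, map_zero]
      · exact (lam_lower X y _ _ (ih.1 (by omega))).2 (by omega)

theorem lam_nil (X : HKCohomology n V A) (y : V) : IsNilpotent (X.lam y) := by
  let _ := X.graded
  classical
  refine ⟨2 * n + 1, ?_⟩
  ext a
  rw [LinearMap.zero_apply, ← DirectSum.sum_support_decompose X.gr a, map_sum]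
  refine Finset.sum_eq_zero fun i _ => ?_
  by_cases hi : 4 * n < i
  · have h1 : (DirectSum.decompose X.gr a i : A) ∈ X.gr i := SetLike.coe_mem _
    have h2 : ∀ c ∈ X.gr i, c = 0 := by
      rw [X.gr_top i hi]
      exact fun c hc => hc
    rw [h2 _ h1, map_zero]
  · exact (lam_pow X y i _ (SetLike.coe_mem _) (2 * n + 1)).2 (by omega)

theorem lam_comm (X : HKCohomology n V A) (x y : V) : Commute (X.lam x) (X.lam y) := by
  have h1 := X.act_lie al (emb x) al (emb y)
  have e1 : wedge X.q al (emb x) al = 0 := by
    simp [wedge, mform, al, emb]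
  have e2 : wedge X.q al (emb x) (emb y) = X.q x y • al := by
    simp [wedge, mform, al, emb]
  rw [e1, e2, map_zero, LinearMap.zero_apply, zero_add, map_smul, X.act_self, smul_zero,
    sub_eq_zero] at h1
  exact h1

section

variable (F : V →ₗ[ℚ] Module.End ℚ A)

theorem opC_tmul (z : ℂ) (x : V) : opC F (z ⊗ₜ x) = z • (F x).baseChange ℂ := by
  simp [opC]

theorem opC_commute (hF : ∀ x y, Commute (F x) (F y)) (s t : ℂ ⊗[ℚ] V) :
    Commute (opC F s) (opC F t) := by
  induction s using TensorProduct.induction_on with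
  | zero => rw [map_zero]; exact Commute.zero_left _
  | tmul z x =>
    induction t using TensorProduct.induction_on with
    | zero => rw [map_zero]; exact Commute.zero_right _
    | tmul w y =>
      rw [opC_tmul, opC_tmul]
      refine Commute.smul_left (Commute.smul_right ?_ _) _
      show (F x).baseChange ℂ * (F y).baseChange ℂ = (F y).baseChange ℂ * (F x).baseChange ℂ
      rw [← LinearMap.baseChange_mul, ← LinearMap.baseChange_mul, (hF x y).eq]
    | add a b ha hb => rw [map_add]; exact ha.add_right hb
  | add a b ha hb => rw [map_add]; exact ha.add_left hb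

theorem opC_nilpotent (hn : ∀ x, IsNilpotent (F x)) (hF : ∀ x y, Commute (F x) (F y))
    (s : ℂ ⊗[ℚ] V) : IsNilpotent (opC F s) := by
  induction s using TensorProduct.induction_on with
  | zero => rw [map_zero]; exact IsNilpotent.zero
  | tmul z x =>
    rw [opC_tmul]
    obtain ⟨k, hk⟩ := hn x
    refine IsNilpotent.smul ⟨k, ?_⟩ z
    rw [← LinearMap.baseChange_pow, hk, LinearMap.baseChange_zero]
  | add a b ha hb =>
    rw [map_add]
    exact (opC_commute F hF a b).isNilpotent_add ha hb

end

theorem p_NIL (X : HKCohomology n V A) : T_NIL X := by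
  refine ⟨cup_nil X, lam_nil X, opC_nilpotent _ (cup_nil X) (cup_comm X) _, ?_⟩
  exact IsNilpotent.smul (opC_nilpotent _ (lam_nil X) (lam_comm X) _) _

end

end Pool.Agent.HKO
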