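import Pool.Agent.HKO.Targets

/-!
# The Mukai vector transform maps cup products into `MM`

The contraction operators are conjugates of the cup products by the symplectic star operator;
both sides are treated by `T_AD` (conjugation by exponentials preserves stable subspaces).
-/

open scoped TensorProduct

namespace Pool.Agent.HKO

noncomputable section

variable {n : ℕ} {V A V' A' : Type*} [AddCommGroup V] [Module ℚ V] [Ring A] [Algebra ℚ A]
  [AddCommGroup V'] [Module ℚ V'] [Ring A'] [Algebra ℚ A']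

theorem cm_neg_left {R : Type*} [Ring R] (a m : R) : cm (-a) m = -cm a m := by
  unfold cm
  rw [neg_mul, mul_neg, neg_sub, sub_neg_eq_add, neg_add_eq_sub]

theorem star_mul_starInv (X : HKCohomology n V A) (hN : T_NIL X) :
    X.star * X.starInv = 1 := by
  obtain ⟨-, -, h1, h2⟩ := hN
  have e1 := IsNilpotent.exp_mul_exp_neg_self h1
  have e2 := IsNilpotent.exp_neg_mul_exp_self h2
  unfold HKCohomology.star HKCohomology.starInv
  calc _ = IsNilpotent.exp X.cupSg * (IsNilpotent.exp (-X.lamSg) *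
        (IsNilpotent.exp X.cupSg * IsNilpotent.exp (-X.cupSg)) * IsNilpotent.exp X.lamSg) *
        IsNilpotent.exp (-X.cupSg) := by noncomm_ring
    _ = 1 := by rw [e1, mul_one, e2, mul_one, e1]

theorem starInv_mul_star (X : HKCohomology n V A) (hN : T_NIL X) :
    X.starInv * X.star = 1 := by
  obtain ⟨-, -, h1, h2⟩ := hN
  have e1 := IsNilpotent.exp_neg_mul_exp_self h1
  have e2 := IsNilpotent.exp_mul_exp_neg_self h2
  unfold HKCohomology.star HKCohomology.starInv
  calc _ = IsNilpotent.exp (-X.cupSg) * (IsNilpotent.exp X.lamSg *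
        (IsNilpotent.exp (-X.cupSg) * IsNilpotent.exp X.cupSg) * IsNilpotent.exp (-X.lamSg)) *
        IsNilpotent.exp X.cupSg := by noncomm_ring
    _ = 1 := by rw [e1, mul_one, e2, mul_one, e1]

/-- Conjugation by the star operator preserves the stable submodules. -/
theorem star_conj_mem (X : HKCohomology n V A) (hAD : T_AD (ℂ ⊗[ℚ] A)) (hN : T_NIL X)
    (N : Submodule ℂ (Module.End ℂ (ℂ ⊗[ℚ] A)))
    (hc : ∀ m ∈ N, cm X.cupSg m ∈ N) (hl : ∀ m ∈ N, cm X.lamSg m ∈ N)
    (m : Module.End ℂ (ℂ ⊗[ℚ] A)) (hm : m ∈ N) : X.star * m * X.starInv ∈ N := by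
  obtain ⟨-, -, h1, h2⟩ := hN
  have hl' : ∀ m ∈ N, cm (-X.lamSg) m ∈ N := by
    intro m hm
    rw [cm_neg_left]
    exact N.neg_mem (hl m hm)
  have s1 := hAD N X.cupSg h1 hc m hm
  have s2 := hAD N (-X.lamSg) h2.neg hl' _ s1
  rw [neg_neg] at s2
  have s3 := hAD N X.cupSg h1 hc _ s2
  have e : X.star * m * X.starInv = IsNilpotent.exp X.cupSg *
      (IsNilpotent.exp (-X.lamSg) * (IsNilpotent.exp X.cupSg * m *
        IsNilpotent.exp (-X.cupSg)) * IsNilpotent.exp X.lamSg) *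
      IsNilpotent.exp (-X.cupSg) := by
    unfold HKCohomology.star HKCohomology.starInv
    noncomm_ring
  rw [e]
  exact s3

/-- Conjugation by the inverse of the star operator preserves the stable submodules. -/
theorem starInv_conj_mem (X : HKCohomology n V A) (hAD : T_AD (ℂ ⊗[ℚ] A)) (hN : T_NIL X)
    (N : Submodule ℂ (Module.End ℂ (ℂ ⊗[ℚ] A)))
    (hc : ∀ m ∈ N, cm X.cupSg m ∈ N) (hl : ∀ m ∈ N, cm X.lamSg m ∈ N)
    (m : Module.End ℂ (ℂ ⊗[ℚ] A)) (hm : m ∈ N) : X.starInv * m * X.star ∈ N := by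
  obtain ⟨-, -, h1, h2⟩ := hN
  have hc' : ∀ m ∈ N, cm (-X.cupSg) m ∈ N := by
    intro m hm
    rw [cm_neg_left]
    exact N.neg_mem (hc m hm)
  have s1 := hAD N (-X.cupSg) h1.neg hc' m hm
  rw [neg_neg] at s1
  have s2 := hAD N X.lamSg h2 hl _ s1
  have s3 := hAD N (-X.cupSg) h1.neg hc' _ s2
  rw [neg_neg] at s3
  have e : X.starInv * m * X.star = IsNilpotent.exp (-X.cupSg) *
      (IsNilpotent.exp X.lamSg * (IsNilpotent.exp (-X.cupSg) * m *
        IsNilpotent.exp X.cupSg) * IsNilpotent.exp (-X.lamSg)) *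
      IsNilpotent.exp X.cupSg := by
    unfold HKCohomology.star HKCohomology.starInv
    noncomm_ring
  rw [e]
  exact s3

theorem opC_tmul (G : V →ₗ[ℚ] Module.End ℚ A) (z : ℂ) (x : V) :
    opC G (z ⊗ₜ[ℚ] x) = z • (G x).baseChange ℂ := by
  unfold opC
  rw [LinearMap.liftBaseChange_tmul]
  rfl

/-- Stability under a real family implies stability under its complexification. -/
theorem cm_opC_mem (G : V →ₗ[ℚ] Module.End ℚ A)
    (N : Submodule ℂ (Module.End ℂ (ℂ ⊗[ℚ] A)))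
    (h : ∀ x : V, ∀ m ∈ N, cm ((G x).baseChange ℂ) m ∈ N)
    (w : ℂ ⊗[ℚ] V) (m : Module.End ℂ (ℂ ⊗[ℚ] A)) (hm : m ∈ N) : cm (opC G w) m ∈ N := by
  induction w using TensorProduct.induction_on with
  | zero =>
    have e : cm (opC G 0) m = 0 := by rw [map_zero]; unfold cm; noncomm_ring
    rw [e]
    exact N.zero_mem
  | tmul z x =>
    have e : cm (opC G (z ⊗ₜ[ℚ] x)) m = z • cm ((G x).baseChange ℂ) m := by
      rw [opC_tmul]
      unfold cm
      rw [smul_sub, smul_mul_assoc, mul_smul_comm]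
    rw [e]
    exact N.smul_mem z (h x m hm)
  | add w₁ w₂ h₁ h₂ =>
    have e : cm (opC G (w₁ + w₂)) m = cm (opC G w₁) m + cm (opC G w₂) m := by
      rw [map_add]; unfold cm; noncomm_ring
    rw [e]
    exact N.add_mem h₁ h₂

theorem cup_eq_act (X : HKCohomology n V A) (x : V) : X.cup x = X.act be (emb x) := by
  ext a
  rw [X.act_cup x a]
  rfl

theorem lam_eq_act (X : HKCohomology n V A) (y : V) : X.lam y = X.act al (emb y) := rfl

/-- Stability under the real Lie algebra implies stability under `cupSg` and `lamSg`. -/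
theorem cm_sg_mem (X : HKCohomology n V A) (N : Submodule ℂ (Module.End ℂ (ℂ ⊗[ℚ] A)))
    (h : ∀ u v : Mk V, ∀ m ∈ N, cm (actC X u v) m ∈ N) :
    (∀ m ∈ N, cm X.cupSg m ∈ N) ∧ (∀ m ∈ N, cm X.lamSg m ∈ N) := by
  constructor
  · intro m hm
    refine cm_opC_mem X.cup N ?_ X.sg m hm
    intro x m hm
    rw [cup_eq_act]
    exact h be (emb x) m hm
  · intro m hm
    have h1 : cm (opC X.lam (conjV V X.sg)) m ∈ N := by
      refine cm_opC_mem X.lam N ?_ (conjV V X.sg) m hm
      intro y m hm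
      rw [lam_eq_act]
      exact h al (emb y) m hm
    have e : cm X.lamSg m = (qC X.q X.sg (conjV V X.sg))⁻¹ •
        cm (opC X.lam (conjV V X.sg)) m := by
      unfold HKCohomology.lamSg cm
      rw [smul_sub, smul_mul_assoc, mul_smul_comm]
    rw [e]
    exact N.smul_mem _ h1

theorem LL_le_MM (X : HKCohomology n V A) : LL A ≤ MM X :=
  le_sInf fun _ hN => hN.1

theorem mulLeft_mem_LL (a : ℂ ⊗[ℚ] A) : LinearMap.mulLeft ℂ a ∈ LL A := ⟨a, rfl⟩

/-- The equivariance of the Mukai vector transform, complexified. -/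
theorem equivariantC {X : HKCohomology n V A} {X' : HKCohomology n V' A'}
    (F : FourierMukai X X') (u v : Mk V) (c : ℂ ⊗[ℚ] A) :
    (F.Φ : A →ₗ[ℚ] A').baseChange ℂ (actC X u v c) =
      ((F.μ⁻¹ : ℚ) : ℂ) • actC X' (F.φ u) (F.φ v) ((F.Φ : A →ₗ[ℚ] A').baseChange ℂ c) := by
  induction c using TensorProduct.induction_on with
  | zero => simp only [map_zero, smul_zero]
  | tmul z a =>
    unfold actC
    rw [LinearMap.baseChange_tmul, LinearMap.baseChange_tmul, LinearMap.baseChange_tmul,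
      LinearMap.baseChange_tmul, LinearEquiv.coe_coe, F.equivariant, TensorProduct.tmul_smul,
      TensorProduct.smul_tmul', TensorProduct.smul_tmul', smul_eq_mul, Algebra.smul_def]
    rfl
  | add c₁ c₂ h₁ h₂ => rw [map_add, map_add, h₁, h₂, map_add, map_add, smul_add]

/-- The operators on `H^*(X, ℂ)` which are transformed into `MM X'`. -/
def NPhi {X : HKCohomology n V A} {X' : HKCohomology n V' A'} (F : FourierMukai X X') :
    Submodule ℂ (Module.End ℂ (ℂ ⊗[ℚ] A)) where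
  carrier := {m | ∃ m' ∈ MM X', ∀ c : ℂ ⊗[ℚ] A,
    (F.Φ : A →ₗ[ℚ] A').baseChange ℂ (m c) = m' ((F.Φ : A →ₗ[ℚ] A').baseChange ℂ c)}
  add_mem' := by
    rintro a b ⟨a', ha', ha⟩ ⟨b', hb', hb⟩
    refine ⟨a' + b', (MM X').add_mem ha' hb', fun c => ?_⟩
    rw [LinearMap.add_apply, map_add, ha, hb, LinearMap.add_apply]
  zero_mem' := ⟨0, (MM X').zero_mem, fun c => by
    rw [LinearMap.zero_apply, map_zero, LinearMap.zero_apply]⟩
  smul_mem' := by
    rintro t a ⟨a', ha', ha⟩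
    refine ⟨t • a', (MM X').smul_mem t ha', fun c => ?_⟩
    rw [LinearMap.smul_apply, map_smul, ha, LinearMap.smul_apply]

theorem mem_NPhi {X : HKCohomology n V A} {X' : HKCohomology n V' A'} (F : FourierMukai X X')
    (m : Module.End ℂ (ℂ ⊗[ℚ] A)) : m ∈ NPhi F ↔ ∃ m' ∈ MM X', ∀ c : ℂ ⊗[ℚ] A,
    (F.Φ : A →ₗ[ℚ] A').baseChange ℂ (m c) = m' ((F.Φ : A →ₗ[ℚ] A').baseChange ℂ c) :=
  Iff.rfl

/-- `NPhi` is stable under the Lie algebra. -/
theorem NPhi_stable {X : HKCohomology n V A} {X' : HKCohomology n V' A'}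
    (F : FourierMukai X X') (hS' : T_STAB X') (u v : Mk V)
    (m : Module.End ℂ (ℂ ⊗[ℚ] A)) (hm : m ∈ NPhi F) : cm (actC X u v) m ∈ NPhi F := by
  obtain ⟨m', hm', h⟩ := (mem_NPhi F m).1 hm
  refine (mem_NPhi F _).2 ⟨((F.μ⁻¹ : ℚ) : ℂ) • cm (actC X' (F.φ u) (F.φ v)) m',
    (MM X').smul_mem _ (hS'.1 _ _ m' hm'), fun c => ?_⟩
  have e1 : (cm (actC X u v) m) c = actC X u v (m c) - m (actC X u v c) := rfl
  have e2 : ∀ w, (((F.μ⁻¹ : ℚ) : ℂ) • cm (actC X' (F.φ u) (F.φ v)) m') w =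
      ((F.μ⁻¹ : ℚ) : ℂ) • (actC X' (F.φ u) (F.φ v) (m' w) -
        m' (actC X' (F.φ u) (F.φ v) w)) := fun w => rfl
  rw [e1, e2, map_sub, equivariantC, h, h, equivariantC, map_smul, smul_sub]

/-- T_PHI: the Mukai vector transform maps cup products into `MM`. -/
theorem p_PHI {X : HKCohomology n V A} {X' : HKCohomology n V' A'} (F : FourierMukai X X')
    (hAD : T_AD (ℂ ⊗[ℚ] A)) (hAD' : T_AD (ℂ ⊗[ℚ] A')) (hN : T_NIL X) (hN' : T_NIL X')
    (hS' : T_STAB X') : T_PHI F := by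
  intro a
  have hst := cm_sg_mem X (NPhi F) (NPhi_stable F hS')
  have hcontr : X.contr a ∈ NPhi F := by
    obtain ⟨b, hb⟩ := F.contraction a
    refine (mem_NPhi F _).2 ⟨X'.contr b, ?_, hb⟩
    exact star_conj_mem X' hAD' hN' (MM X') hS'.2.1 hS'.2.2 _
      (LL_le_MM X' (mulLeft_mem_LL b))
  have hmul := starInv_conj_mem X hAD hN (NPhi F) hst.1 hst.2 _ hcontr
  have e : X.starInv * X.contr a * X.star = LinearMap.mulLeft ℂ a := by
    have e1 := starInv_mul_star X hN
    unfold HKCohomology.contr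
    calc _ = (X.starInv * X.star) * LinearMap.mulLeft ℂ a * (X.starInv * X.star) := by
          noncomm_ring
      _ = _ := by rw [e1, one_mul, mul_one]
  rw [e] at hmul
  exact (mem_NPhi F _).1 hmul

end

end Pool.Agent.HKO
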