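import Pool.Agent.HKO.Targets

/-! Stability of `MM` under the whole Lie algebra. -/

open scoped TensorProduct

namespace Pool.Agent.HKO.SB

noncomputable section

variable {n : ℕ} {V A : Type*} [AddCommGroup V] [Module ℚ V] [Ring A] [Algebra ℚ A]

section CM

variable {R : Type*} [Ring R]

theorem cm_add_left (a b c : R) : cm (a + b) c = cm a c + cm b c := by
  simp only [cm]; noncomm_ring

theorem cm_add_right (a b c : R) : cm a (b + c) = cm a b + cm a c := by
  simp only [cm]; noncomm_ring

theorem cm_zero_left (a : R) : cm 0 a = 0 := by simp [cm]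

theorem cm_zero_right (a : R) : cm a 0 = 0 := by simp [cm]

theorem cm_smul_left {S : Type*} [CommRing S] [Algebra S R] (c : S) (a b : R) :
    cm (c • a) b = c • cm a b := by
  simp only [cm, smul_mul_assoc, mul_smul_comm, smul_sub]

theorem cm_smul_right {S : Type*} [CommRing S] [Algebra S R] (c : S) (a b : R) :
    cm a (c • b) = c • cm a b := by
  simp only [cm, smul_mul_assoc, mul_smul_comm, smul_sub]

theorem cm_jacobi (x f m : R) : cm x (cm f m) = cm (cm x f) m + cm f (cm x m) := by
  simp only [cm]; noncomm_ring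

end CM

theorem MM_lower (X : HKCohomology n V A) : LL A ≤ MM X := by
  intro a ha
  rw [MM, Submodule.mem_sInf]
  intro N hN
  exact hN.1 ha

theorem MM_lam (X : HKCohomology n V A) (y : V) {m : Module.End ℂ (ℂ ⊗[ℚ] A)}
    (hm : m ∈ MM X) : cm (actC X al (emb y)) m ∈ MM X := by
  rw [MM, Submodule.mem_sInf] at hm ⊢
  intro N hN
  exact hN.2 y m (hm N hN)

theorem MM_le (X : HKCohomology n V A) (N : Submodule ℂ (Module.End ℂ (ℂ ⊗[ℚ] A)))
    (h1 : LL A ≤ N) (h2 : ∀ y : V, ∀ m ∈ N, cm (actC X al (emb y)) m ∈ N) : MM X ≤ N :=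
  sInf_le ⟨h1, h2⟩

/-- The operators whose commutators preserve `MM`. -/
def TT (X : HKCohomology n V A) : Submodule ℂ (Module.End ℂ (ℂ ⊗[ℚ] A)) where
  carrier := {ξ | ∀ m ∈ MM X, cm ξ m ∈ MM X}
  zero_mem' := by
    intro m _
    rw [cm_zero_left]
    exact Submodule.zero_mem _
  add_mem' := by
    intro a b ha hb m hm
    rw [cm_add_left]
    exact Submodule.add_mem _ (ha m hm) (hb m hm)
  smul_mem' := by
    intro c a ha m hm
    rw [cm_smul_left]
    exact Submodule.smul_mem _ _ (ha m hm)

theorem mem_TT (X : HKCohomology n V A) (ξ : Module.End ℂ (ℂ ⊗[ℚ] A)) :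
    ξ ∈ TT X ↔ ∀ m ∈ MM X, cm ξ m ∈ MM X := Iff.rfl

theorem TT_of (X : HKCohomology n V A) (ξ : Module.End ℂ (ℂ ⊗[ℚ] A))
    (h1 : ∀ a : ℂ ⊗[ℚ] A, cm ξ (LinearMap.mul ℂ (ℂ ⊗[ℚ] A) a) ∈ MM X)
    (h2 : ∀ y : V, cm ξ (actC X al (emb y)) ∈ TT X) : ξ ∈ TT X := by
  let N : Submodule ℂ (Module.End ℂ (ℂ ⊗[ℚ] A)) :=
    { carrier := {m | m ∈ MM X ∧ cm ξ m ∈ MM X}
      zero_mem' := by
        refine ⟨Submodule.zero_mem _, ?_⟩
        rw [cm_zero_right]
        exact Submodule.zero_mem _
      add_mem' := by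
        intro a b ha hb
        refine ⟨Submodule.add_mem _ ha.1 hb.1, ?_⟩
        rw [cm_add_right]
        exact Submodule.add_mem _ ha.2 hb.2
      smul_mem' := by
        intro c a ha
        refine ⟨Submodule.smul_mem _ _ ha.1, ?_⟩
        rw [cm_smul_right]
        exact Submodule.smul_mem _ _ ha.2 }
  have hN : MM X ≤ N := by
    refine MM_le X N ?_ ?_
    · rintro m ⟨a, rfl⟩
      exact ⟨MM_lower X ⟨a, rfl⟩, h1 a⟩
    · intro y m hm
      refine ⟨MM_lam X y hm.1, ?_⟩
      rw [cm_jacobi]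
      exact Submodule.add_mem _ (h2 y m hm.1) (MM_lam X y hm.2)
  intro m hm
  exact (hN hm).2

theorem mul_tmul_eq (z : ℂ) (a : A) :
    LinearMap.mul ℂ (ℂ ⊗[ℚ] A) (z ⊗ₜ a) =
      z • (LinearMap.mul ℚ A a : Module.End ℚ A).baseChange ℂ := by
  apply TensorProduct.AlgebraTensorModule.ext
  intro w b
  simp [TensorProduct.smul_tmul']

theorem LL_of_rat (f : Module.End ℚ A)
    (h : ∀ a : A, ∃ b : A, cm f (LinearMap.mul ℚ A a) = LinearMap.mul ℚ A b)
    (a : ℂ ⊗[ℚ] A) : cm (f.baseChange ℂ) (LinearMap.mul ℂ (ℂ ⊗[ℚ] A) a) ∈ LL A := by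
  induction a using TensorProduct.induction_on with
  | zero =>
    rw [map_zero, cm_zero_right]
    exact Submodule.zero_mem _
  | add a b ha hb =>
    rw [map_add, cm_add_right]
    exact Submodule.add_mem _ ha hb
  | tmul z a =>
    obtain ⟨b, hb⟩ := h a
    rw [mul_tmul_eq, cm_smul_right]
    apply Submodule.smul_mem
    refine ⟨1 ⊗ₜ b, ?_⟩
    rw [mul_tmul_eq, one_smul, ← hb]
    simp only [cm, LinearMap.baseChange_sub, Module.End.mul_eq_comp, LinearMap.baseChange_comp]

theorem actC_lie (X : HKCohomology n V A) (u v z t : Mk V) :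
    cm (actC X u v) (actC X z t) =
      actC X (wedge X.q u v z) t + actC X z (wedge X.q u v t) := by
  have h := X.act_lie u v z t
  simp only [actC, cm]
  rw [← LinearMap.baseChange_add, ← h]
  simp only [LinearMap.baseChange_sub, Module.End.mul_eq_comp, LinearMap.baseChange_comp]

theorem actC_add_left (X : HKCohomology n V A) (u u' v : Mk V) :
    actC X (u + u') v = actC X u v + actC X u' v := by
  simp [actC, LinearMap.baseChange_add]

theorem actC_add_right (X : HKCohomology n V A) (u v v' : Mk V) :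
    actC X u (v + v') = actC X u v + actC X u v' := by
  simp [actC, LinearMap.baseChange_add]

theorem baseChange_qsmul (r : ℚ) (f : Module.End ℚ A) :
    (r • f).baseChange ℂ = (r : ℂ) • f.baseChange ℂ := by
  apply TensorProduct.AlgebraTensorModule.ext
  intro w b
  simp [TensorProduct.smul_tmul', Rat.smul_def]

theorem actC_smul_left (X : HKCohomology n V A) (r : ℚ) (u v : Mk V) :
    actC X (r • u) v = (r : ℂ) • actC X u v := by
  simp only [actC, map_smul, LinearMap.smul_apply]
  exact baseChange_qsmul r _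

theorem actC_smul_right (X : HKCohomology n V A) (r : ℚ) (u v : Mk V) :
    actC X u (r • v) = (r : ℂ) • actC X u v := by
  simp only [actC, map_smul]
  exact baseChange_qsmul r _

theorem actC_self (X : HKCohomology n V A) (u : Mk V) : actC X u u = 0 := by
  simp [actC, X.act_self]

theorem actC_swap (X : HKCohomology n V A) (u v : Mk V) : actC X u v = - actC X v u := by
  have h := actC_self X (u + v)
  rw [actC_add_left, actC_add_right, actC_add_right, actC_self, actC_self] at h
  simp only [zero_add, add_zero] at h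
  exact eq_neg_of_add_eq_zero_left h

theorem wedge_al_be_al (q : V →ₗ[ℚ] V →ₗ[ℚ] ℚ) : wedge q al be al = - al := by
  ext <;> simp [wedge, mform, al, be]

theorem wedge_al_be_emb (q : V →ₗ[ℚ] V →ₗ[ℚ] ℚ) (y : V) : wedge q al be (emb y) = 0 := by
  ext <;> simp [wedge, mform, al, be, emb]

theorem wedge_emb_emb_al (q : V →ₗ[ℚ] V →ₗ[ℚ] ℚ) (x y : V) :
    wedge q (emb x) (emb y) al = 0 := by
  ext <;> simp [wedge, mform, al, emb]

theorem wedge_emb_emb_emb (q : V →ₗ[ℚ] V →ₗ[ℚ] ℚ) (x y z : V) :
    wedge q (emb x) (emb y) (emb z) = emb (q y z • x - q x z • y) := by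
  ext <;> simp [wedge, mform, emb]

theorem wedge_be_emb_al (q : V →ₗ[ℚ] V →ₗ[ℚ] ℚ) (x : V) :
    wedge q be (emb x) al = emb x := by
  ext <;> simp [wedge, mform, al, be, emb]

theorem wedge_be_emb_emb (q : V →ₗ[ℚ] V →ₗ[ℚ] ℚ) (x y : V) :
    wedge q be (emb x) (emb y) = q x y • be := by
  ext <;> simp [wedge, mform, be, emb]

/-- Induction over homogeneous elements. -/
theorem gr_induction (X : HKCohomology n V A) {P : A → Prop}
    (hom : ∀ i, ∀ a ∈ X.gr i, P a) (add : ∀ a b, P a → P b → P (a + b)) (a : A) : P a := by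
  have := X.graded
  refine DirectSum.Decomposition.inductionOn X.gr ?_ ?_ ?_ a
  · exact hom 0 0 (Submodule.zero_mem _)
  · intro i m
    exact hom i m m.2
  · intro a b ha hb
    exact add a b ha hb

theorem gr_mul (X : HKCohomology n V A) {i j : ℕ} {a b : A} (ha : a ∈ X.gr i)
    (hb : b ∈ X.gr j) : a * b ∈ X.gr (i + j) := by
  have := X.graded
  exact SetLike.mul_mem_graded ha hb

theorem deg_mul (X : HKCohomology n V A) {i : ℕ} {a : A} (ha : a ∈ X.gr i) (b : A) :
    X.act al be (a * b) = ((i : ℚ) / 2) • (a * b) + a * X.act al be b := by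
  refine gr_induction X (P := fun b => X.act al be (a * b) =
    ((i : ℚ) / 2) • (a * b) + a * X.act al be b) ?_ ?_ b
  · intro j b hb
    rw [X.act_deg (i + j) _ (gr_mul X ha hb), X.act_deg j b hb, mul_smul_comm, ← add_smul]
    congr 1
    push_cast
    ring
  · intro b c hb hc
    rw [mul_add, map_add, map_add, hb, hc, mul_add, smul_add]
    abel

theorem F_mem (X : HKCohomology n V A) (y : V) : actC X al (emb y) ∈ TT X := by
  intro m hm
  exact MM_lam X y hm

theorem H_mem (X : HKCohomology n V A) : actC X al be ∈ TT X := by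
  apply TT_of
  · intro a
    apply MM_lower
    apply LL_of_rat
    intro a
    refine gr_induction X (P := fun a => ∃ b : A,
      cm (X.act al be) (LinearMap.mul ℚ A a) = LinearMap.mul ℚ A b) ?_ ?_ a
    · intro i a ha
      refine ⟨((i : ℚ) / 2) • a, ?_⟩
      ext b
      simp only [cm, LinearMap.sub_apply, Module.End.mul_apply, LinearMap.mul_apply']
      rw [deg_mul X ha, smul_mul_assoc]
      abel
    · rintro a b ⟨a', ha⟩ ⟨b', hb⟩
      refine ⟨a' + b', ?_⟩
      rw [map_add, cm_add_right, ha, hb, map_add]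
  · intro y
    rw [actC_lie, wedge_al_be_al, wedge_al_be_emb]
    have h1 : actC X (-al) (emb y) + actC X al 0 = - actC X al (emb y) := by
      simp [actC, LinearMap.baseChange_neg]
    rw [h1]
    exact Submodule.neg_mem _ (F_mem X y)

theorem D_mem (X : HKCohomology n V A) (x y : V) : actC X (emb x) (emb y) ∈ TT X := by
  apply TT_of
  · intro a
    apply MM_lower
    apply LL_of_rat
    intro a
    refine ⟨X.act (emb x) (emb y) a, ?_⟩
    ext b
    simp only [cm, LinearMap.sub_apply, Module.End.mul_apply, LinearMap.mul_apply']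
    rw [X.act_der]
    abel
  · intro z
    rw [actC_lie, wedge_emb_emb_al, wedge_emb_emb_emb]
    have h1 : actC X 0 (emb z) = 0 := by simp [actC]
    rw [h1, zero_add]
    exact F_mem X _

theorem cls_mem (X : HKCohomology n V A) (x : V) : X.cls x ∈ X.gr 2 := by
  rw [← X.cls_range]
  exact ⟨x, rfl⟩

theorem cls_central (X : HKCohomology n V A) (x : V) (a : A) :
    X.cls x * a = a * X.cls x := by
  refine gr_induction X (P := fun a => X.cls x * a = a * X.cls x) ?_ ?_ a
  · intro i a ha
    rw [X.comm 2 i _ _ (cls_mem X x) ha, pow_mul]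
    simp
  · intro a b ha hb
    rw [mul_add, add_mul, ha, hb]

theorem act_be_emb (X : HKCohomology n V A) (x : V) : X.act be (emb x) = X.cup x := by
  ext a
  rw [X.act_cup]
  rfl

theorem E_mem (X : HKCohomology n V A) (x : V) : actC X be (emb x) ∈ TT X := by
  apply TT_of
  · intro a
    apply MM_lower
    apply LL_of_rat
    intro a
    refine ⟨0, ?_⟩
    ext b
    simp only [cm, LinearMap.sub_apply, Module.End.mul_apply, LinearMap.mul_apply',
      map_zero, LinearMap.zero_apply]
    rw [X.act_cup, X.act_cup, ← mul_assoc, ← mul_assoc, cls_central, sub_self]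
  · intro y
    rw [actC_lie, wedge_be_emb_al, wedge_be_emb_emb, actC_smul_right]
    exact Submodule.add_mem _ (D_mem X x y) (Submodule.smul_mem _ _ (H_mem X))

theorem Mk_eq (u : Mk V) : u = u.1 • al + emb u.2.1 + u.2.2 • be := by
  ext <;> simp [al, be, emb]

theorem actC_mem_left (X : HKCohomology n V A) (w : Mk V) (h1 : actC X al w ∈ TT X)
    (h2 : ∀ x, actC X (emb x) w ∈ TT X) (h3 : actC X be w ∈ TT X) (u : Mk V) :
    actC X u w ∈ TT X := by
  rw [Mk_eq u, actC_add_left, actC_add_left, actC_smul_left, actC_smul_left]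
  exact Submodule.add_mem _ (Submodule.add_mem _ (Submodule.smul_mem _ _ h1) (h2 _))
    (Submodule.smul_mem _ _ h3)

theorem actC_mem (X : HKCohomology n V A) (u v : Mk V) : actC X u v ∈ TT X := by
  have hsw : ∀ u v : Mk V, actC X u v ∈ TT X → actC X v u ∈ TT X := by
    intro u v h
    rw [actC_swap]
    exact Submodule.neg_mem _ h
  have hself : ∀ u : Mk V, actC X u u ∈ TT X := by
    intro u
    rw [actC_self]
    exact Submodule.zero_mem _
  have hal : ∀ u : Mk V, actC X u al ∈ TT X :=
    actC_mem_left X al (hself al) (fun x => hsw _ _ (F_mem X x)) (hsw _ _ (H_mem X))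
  have hbe : ∀ u : Mk V, actC X u be ∈ TT X :=
    actC_mem_left X be (H_mem X) (fun x => hsw _ _ (E_mem X x)) (hself be)
  have hemb : ∀ (x : V) (u : Mk V), actC X u (emb x) ∈ TT X := fun x =>
    actC_mem_left X (emb x) (F_mem X x) (fun y => D_mem X y x) (E_mem X x)
  apply hsw
  exact actC_mem_left X u (hsw _ _ (hal u)) (fun x => hsw _ _ (hemb x u)) (hsw _ _ (hbe u)) v

theorem opC_tmul (F : V →ₗ[ℚ] Module.End ℚ A) (z : ℂ) (x : V) :
    opC F (z ⊗ₜ x) = z • (F x).baseChange ℂ := by
  simp [opC]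

theorem opC_mem (F : V →ₗ[ℚ] Module.End ℚ A)
    (N : Submodule ℂ (Module.End ℂ (ℂ ⊗[ℚ] A))) (h : ∀ x, (F x).baseChange ℂ ∈ N)
    (s : ℂ ⊗[ℚ] V) : opC F s ∈ N := by
  induction s using TensorProduct.induction_on with
  | zero =>
    rw [map_zero]
    exact Submodule.zero_mem _
  | add a b ha hb =>
    rw [map_add]
    exact Submodule.add_mem _ ha hb
  | tmul z a =>
    rw [opC_tmul]
    exact Submodule.smul_mem _ _ (h a)

theorem p_STAB (X : HKCohomology n V A) : T_STAB X := by
  refine ⟨fun u v => actC_mem X u v, ?_, ?_⟩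
  · have h : X.cupSg ∈ TT X := by
      apply opC_mem
      intro x
      rw [← act_be_emb]
      exact E_mem X x
    exact h
  · have h : X.lamSg ∈ TT X := by
      apply Submodule.smul_mem
      apply opC_mem
      intro x
      exact F_mem X x
    exact h

end

end Pool.Agent.HKO.SB

namespace Pool.Agent.HKO

theorem p_STAB {n : ℕ} {V A : Type*} [AddCommGroup V] [Module ℚ V] [Ring A] [Algebra ℚ A]
    (X : HKCohomology n V A) : T_STAB X := SB.p_STAB X

end Pool.Agent.HKO
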