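import Pool.Agent.HKO.Targets2
import Pool.Agent.HKO.Nil
import Pool.Agent.HKO.Stab
import Pool.Agent.HKO.Phi

/-! The transform maps the complexified Lie algebra to the complexified Lie algebra. -/

set_option linter.unusedSectionVars false

open scoped TensorProduct

namespace Pool.Agent.HKO

noncomputable section

variable {n : ℕ} {V A V' A' : Type*} [AddCommGroup V] [Module ℚ V] [Ring A] [Algebra ℚ A]
  [AddCommGroup V'] [Module ℚ V'] [Ring A'] [Algebra ℚ A']

namespace GGphi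

theorem actC_mem_GG (X : HKCohomology n V A) (u v : Mk V) : actC X u v ∈ GG X :=
  Submodule.subset_span ⟨u, v, rfl⟩

/-- The complexified Lie algebra is stable under the commutators with the generators. -/
theorem cm_mem_GG (X : HKCohomology n V A) (u v : Mk V) (m : Module.End ℂ (ℂ ⊗[ℚ] A))
    (hm : m ∈ GG X) : cm (actC X u v) m ∈ GG X := by
  refine Submodule.span_induction (p := fun m _ => cm (actC X u v) m ∈ GG X) ?_ ?_ ?_ ?_ hm
  · rintro m ⟨z, t, rfl⟩
    rw [SB.actC_lie]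
    exact (GG X).add_mem (actC_mem_GG X _ _) (actC_mem_GG X _ _)
  · rw [SB.cm_zero_right]
    exact (GG X).zero_mem
  · intro a b _ _ ha hb
    rw [SB.cm_add_right]
    exact (GG X).add_mem ha hb
  · intro c a _ ha
    rw [SB.cm_smul_right]
    exact (GG X).smul_mem c ha

theorem cm_GG (X : HKCohomology n V A) (a m : Module.End ℂ (ℂ ⊗[ℚ] A)) (ha : a ∈ GG X)
    (hm : m ∈ GG X) : cm a m ∈ GG X := by
  refine Submodule.span_induction (p := fun a _ => cm a m ∈ GG X) ?_ ?_ ?_ ?_ ha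
  · rintro a ⟨z, t, rfl⟩
    exact cm_mem_GG X z t m hm
  · rw [SB.cm_zero_left]
    exact (GG X).zero_mem
  · intro a b _ _ ha hb
    rw [SB.cm_add_left]
    exact (GG X).add_mem ha hb
  · intro c a _ ha
    rw [SB.cm_smul_left]
    exact (GG X).smul_mem c ha

theorem star_GG (X : HKCohomology n V A) (m : Module.End ℂ (ℂ ⊗[ℚ] A)) (hm : m ∈ GG X) :
    X.star * m * X.starInv ∈ GG X := by
  have h := cm_sg_mem X (GG X) (fun u v m hm => cm_mem_GG X u v m hm)
  exact star_conj_mem X (p_AD _) (p_NIL X) (GG X) h.1 h.2 m hm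

theorem starInv_GG (X : HKCohomology n V A) (m : Module.End ℂ (ℂ ⊗[ℚ] A)) (hm : m ∈ GG X) :
    X.starInv * m * X.star ∈ GG X := by
  have h := cm_sg_mem X (GG X) (fun u v m hm => cm_mem_GG X u v m hm)
  exact starInv_conj_mem X (p_AD _) (p_NIL X) (GG X) h.1 h.2 m hm

theorem opC_cup_GG (X : HKCohomology n V A) (s : ℂ ⊗[ℚ] V) : opC X.cup s ∈ GG X := by
  refine SB.opC_mem X.cup (GG X) (fun x => ?_) s
  rw [cup_eq_act]
  exact actC_mem_GG X be (emb x)

theorem opC_lam_GG (X : HKCohomology n V A) (s : ℂ ⊗[ℚ] V) : opC X.lam s ∈ GG X := by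
  refine SB.opC_mem X.lam (GG X) (fun x => ?_) s
  exact actC_mem_GG X al (emb x)

/-- A submodule which contains the basic generators contains the Lie algebra. -/
theorem actC_mem_of (X : HKCohomology n V A) (N : Submodule ℂ (Module.End ℂ (ℂ ⊗[ℚ] A)))
    (hH : actC X al be ∈ N) (hE : ∀ x : V, actC X be (emb x) ∈ N)
    (hF : ∀ x : V, actC X al (emb x) ∈ N) (hD : ∀ x y : V, actC X (emb x) (emb y) ∈ N)
    (u v : Mk V) : actC X u v ∈ N := by
  have hleft : ∀ w : Mk V, actC X al w ∈ N → (∀ x, actC X (emb x) w ∈ N) → actC X be w ∈ N →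
      ∀ u : Mk V, actC X u w ∈ N := by
    intro w h1 h2 h3 u
    rw [SB.Mk_eq u, SB.actC_add_left, SB.actC_add_left, SB.actC_smul_left, SB.actC_smul_left]
    exact N.add_mem (N.add_mem (N.smul_mem _ h1) (h2 _)) (N.smul_mem _ h3)
  have hsw : ∀ u v : Mk V, actC X u v ∈ N → actC X v u ∈ N := by
    intro u v h
    rw [SB.actC_swap]
    exact N.neg_mem h
  have hself : ∀ u : Mk V, actC X u u ∈ N := by
    intro u
    rw [SB.actC_self]
    exact N.zero_mem
  have hal : ∀ u : Mk V, actC X u al ∈ N :=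
    hleft al (hself al) (fun x => hsw _ _ (hF x)) (hsw _ _ hH)
  have hbe : ∀ u : Mk V, actC X u be ∈ N :=
    hleft be hH (fun x => hsw _ _ (hE x)) (hself be)
  have hemb : ∀ (x : V) (u : Mk V), actC X u (emb x) ∈ N := fun x =>
    hleft (emb x) (hF x) (fun y => hD y x) (hE x)
  apply hsw
  exact hleft u (hsw _ _ (hal u)) (fun x => hsw _ _ (hemb x u)) (hsw _ _ (hbe u)) v

theorem phI_phC {X : HKCohomology n V A} {X' : HKCohomology n V' A'} (F : MukaiTransform X X')
    (c : ℂ ⊗[ℚ] A) : phI F (phC F c) = c := by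
  induction c using TensorProduct.induction_on with
  | zero => rw [map_zero, map_zero]
  | tmul z a =>
    unfold phI phC
    rw [LinearMap.baseChange_tmul, LinearMap.baseChange_tmul, LinearEquiv.coe_coe,
      LinearEquiv.coe_coe, LinearEquiv.symm_apply_apply]
  | add c₁ c₂ h₁ h₂ => rw [map_add, map_add, h₁, h₂]

theorem phC_phI {X : HKCohomology n V A} {X' : HKCohomology n V' A'} (F : MukaiTransform X X')
    (c : ℂ ⊗[ℚ] A') : phC F (phI F c) = c := by
  induction c using TensorProduct.induction_on with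
  | zero => rw [map_zero, map_zero]
  | tmul z a =>
    unfold phI phC
    rw [LinearMap.baseChange_tmul, LinearMap.baseChange_tmul, LinearEquiv.coe_coe,
      LinearEquiv.coe_coe, LinearEquiv.apply_symm_apply]
  | add c₁ c₂ h₁ h₂ => rw [map_add, map_add, h₁, h₂]

/-- The operators whose conjugates by `tht` are in the Lie algebra. -/
def NTh {X : HKCohomology n V A} {X' : HKCohomology n V' A'} (F : MukaiTransform X X') :
    Submodule ℂ (Module.End ℂ (ℂ ⊗[ℚ] A)) where
  carrier := {m | ∃ m' ∈ GG X', ∀ c : ℂ ⊗[ℚ] A, tht F (m c) = m' (tht F c)}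
  add_mem' := by
    rintro a b ⟨a', ha', ha⟩ ⟨b', hb', hb⟩
    refine ⟨a' + b', (GG X').add_mem ha' hb', fun c => ?_⟩
    rw [LinearMap.add_apply, map_add, ha, hb, LinearMap.add_apply]
  zero_mem' := ⟨0, (GG X').zero_mem, fun c => by
    rw [LinearMap.zero_apply, map_zero, LinearMap.zero_apply]⟩
  smul_mem' := by
    rintro t a ⟨a', ha', ha⟩
    refine ⟨t • a', (GG X').smul_mem t ha', fun c => ?_⟩
    rw [LinearMap.smul_apply, map_smul, ha, LinearMap.smul_apply]

theorem mem_NTh {X : HKCohomology n V A} {X' : HKCohomology n V' A'} (F : MukaiTransform X X')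
    (m : Module.End ℂ (ℂ ⊗[ℚ] A)) : m ∈ NTh F ↔ ∃ m' ∈ GG X', ∀ c : ℂ ⊗[ℚ] A,
    tht F (m c) = m' (tht F c) := Iff.rfl

theorem cm_NTh {X : HKCohomology n V A} {X' : HKCohomology n V' A'} (F : MukaiTransform X X')
    (a b : Module.End ℂ (ℂ ⊗[ℚ] A)) (ha : a ∈ NTh F) (hb : b ∈ NTh F) : cm a b ∈ NTh F := by
  obtain ⟨a', ha', ha⟩ := (mem_NTh F a).1 ha
  obtain ⟨b', hb', hb⟩ := (mem_NTh F b).1 hb
  refine (mem_NTh F _).2 ⟨cm a' b', cm_GG X' a' b' ha' hb', fun c => ?_⟩
  have e1 : (cm a b) c = a (b c) - b (a c) := rfl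
  have e2 : ∀ w, (cm a' b') w = a' (b' w) - b' (a' w) := fun w => rfl
  rw [e1, e2, map_sub, ha, hb, hb, ha]

theorem tmul_one_cup (X : HKCohomology n V A) (x : V) :
    actC X be (emb x) = opC X.cup (1 ⊗ₜ x) := by
  rw [SB.opC_tmul, one_smul, cup_eq_act]
  rfl

theorem tmul_one_lam (X : HKCohomology n V A) (x : V) :
    actC X al (emb x) = opC X.lam (1 ⊗ₜ x) := by
  rw [SB.opC_tmul, one_smul]
  rfl

theorem GG_le_NTh {X : HKCohomology n V A} {X' : HKCohomology n V' A'} (F : MukaiTransform X X')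
    (ht : S_THETA F) : GG X ≤ NTh F := by
  obtain ⟨-, -, h1, ψ, ν, -, h2, h3, -⟩ := ht
  have hH : actC X al be ∈ NTh F :=
    (mem_NTh F _).2 ⟨actC X' al be, actC_mem_GG X' _ _, h1⟩
  have hE : ∀ x : V, actC X be (emb x) ∈ NTh F := fun x => by
    refine (mem_NTh F _).2 ⟨opC X'.cup (ψ (1 ⊗ₜ x)), opC_cup_GG X' _, fun c => ?_⟩
    rw [tmul_one_cup, h2]
  have hF : ∀ x : V, actC X al (emb x) ∈ NTh F := fun x => by
    refine (mem_NTh F _).2 ⟨ν⁻¹ • opC X'.lam (ψ (1 ⊗ₜ x)),
      (GG X').smul_mem _ (opC_lam_GG X' _), fun c => ?_⟩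
    rw [tmul_one_lam, h3]
    rfl
  have hD : ∀ x y : V, actC X (emb x) (emb y) ∈ NTh F := by
    intro x y
    have h4 : cm (actC X be (emb x)) (actC X al (emb y)) ∈ NTh F := cm_NTh F _ _ (hE x) (hF y)
    have h5 : actC X (emb x) (emb y) = cm (actC X be (emb x)) (actC X al (emb y)) -
        ((X.q x y : ℚ) : ℂ) • actC X al be := by
      rw [SB.actC_lie, SB.wedge_be_emb_al, SB.wedge_be_emb_emb, SB.actC_smul_right]
      abel
    rw [h5]
    exact (NTh F).sub_mem h4 ((NTh F).smul_mem _ hH)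
  refine Submodule.span_le.2 ?_
  rintro m ⟨u, v, rfl⟩
  exact actC_mem_of X (NTh F) hH hE hF hD u v

end GGphi

open GGphi

theorem p_GG {X : HKCohomology n V A} {X' : HKCohomology n V' A'} (F : MukaiTransform X X')
    (_ : S_STAR X) (_ : S_STAR X') (ht : S_THETA F) : S_GG F := by
  intro m hm
  obtain ⟨m', hm', h1⟩ := (mem_NTh F _).1 (GG_le_NTh F ht (starInv_GG X m hm))
  have h2 := star_GG X' m' hm'
  have e : phC F ∘ₗ m ∘ₗ phI F = X'.star * m' * X'.starInv := by
    refine LinearMap.ext fun c => ?_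
    have e1 : ∀ w, X.star (X.starInv w) = w := fun w => by
      rw [← Module.End.mul_apply, star_mul_starInv X (p_NIL X), Module.End.one_apply]
    have e2 : ∀ w, X'.star (X'.starInv w) = w := fun w => by
      rw [← Module.End.mul_apply, star_mul_starInv X' (p_NIL X'), Module.End.one_apply]
    have h3 := h1 (X.starInv (phI F c))
    have e3 : (X.starInv * m * X.star) (X.starInv (phI F c)) =
        X.starInv (m (phI F c)) := by
      rw [Module.End.mul_apply, Module.End.mul_apply, e1]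
    have e4 : ∀ w, tht F w = X'.starInv (phC F (X.star w)) := fun w => rfl
    rw [e3, e4, e4, e1, e1, phC_phI] at h3
    rw [LinearMap.comp_apply, LinearMap.comp_apply, Module.End.mul_apply,
      Module.End.mul_apply, ← h3, e2]
  rw [e]
  exact h2

end

end Pool.Agent.HKO
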