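import Pool.Agent.HKO.Targets

/-! Moving isotropic vectors of the Mukai space to the lines of `α` and `β`. -/

open scoped TensorProduct

namespace Pool.Agent.HKO

noncomputable section

section Lin

variable {V : Type*} [AddCommGroup V] [Module ℚ V] (q : V →ₗ[ℚ] V →ₗ[ℚ] ℚ)

theorem mform_eq (u v : Mk V) :
    mform q u v = q u.2.1 v.2.1 - u.1 * v.2.2 - u.2.2 * v.1 := rfl

theorem wedge_al_eq (y : V) (z : Mk V) :
    wedge q al (emb y) z = (q y z.2.1, z.2.2 • y, 0) := by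
  simp [wedge, mform_eq, al, emb]

theorem wedge_be_eq (y : V) (z : Mk V) :
    wedge q be (emb y) z = (0, z.1 • y, q y z.2.1) := by
  simp [wedge, mform_eq, be, emb]

theorem wedge_al_cube (y : V) : (wedge q al (emb y)) ^ 3 = 0 := by
  refine LinearMap.ext fun z => ?_
  simp [pow_succ, wedge_al_eq]

theorem wedge_be_cube (y : V) : (wedge q be (emb y)) ^ 3 = 0 := by
  refine LinearMap.ext fun z => ?_
  simp [pow_succ, wedge_be_eq]

theorem p_WN : T_WN q := fun y => ⟨wedge_al_cube q y, wedge_be_cube q y⟩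

theorem exp_al_eq (y : V) (z : Mk V) :
    IsNilpotent.exp (wedge q al (emb y)) z =
      (z.1 + q y z.2.1 + z.2.2 * q y y / 2, z.2.1 + z.2.2 • y, z.2.2) := by
  rw [IsNilpotent.exp_eq_sum (wedge_al_cube q y)]
  simp only [Finset.sum_range_succ, Finset.sum_range_zero, LinearMap.add_apply,
    LinearMap.smul_apply, pow_succ, pow_zero, Module.End.mul_apply, Module.End.one_apply,
    wedge_al_eq, LinearMap.zero_apply]
  ext <;> simp [Nat.factorial] <;> ring

theorem exp_be_eq (y : V) (z : Mk V) :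
    IsNilpotent.exp (wedge q be (emb y)) z =
      (z.1, z.2.1 + z.1 • y, z.2.2 + q y z.2.1 + z.1 * q y y / 2) := by
  rw [IsNilpotent.exp_eq_sum (wedge_be_cube q y)]
  simp only [Finset.sum_range_succ, Finset.sum_range_zero, LinearMap.add_apply,
    LinearMap.smul_apply, pow_succ, pow_zero, Module.End.mul_apply, Module.End.one_apply,
    wedge_be_eq, LinearMap.zero_apply]
  ext <;> simp [Nat.factorial] <;> ring

theorem mform_exp_al (hq : ∀ x y, q x y = q y x) (y : V) (u v : Mk V) :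
    mform q (IsNilpotent.exp (wedge q al (emb y)) u) (IsNilpotent.exp (wedge q al (emb y)) v) =
      mform q u v := by
  simp only [exp_al_eq, mform_eq, map_add, map_smul, LinearMap.add_apply, LinearMap.smul_apply,
    smul_eq_mul]
  rw [hq u.2.1 y]
  ring

theorem mform_exp_be (hq : ∀ x y, q x y = q y x) (y : V) (u v : Mk V) :
    mform q (IsNilpotent.exp (wedge q be (emb y)) u) (IsNilpotent.exp (wedge q be (emb y)) v) =
      mform q u v := by
  simp only [exp_be_eq, mform_eq, map_add, map_smul, LinearMap.add_apply, LinearMap.smul_apply,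
    smul_eq_mul]
  rw [hq u.2.1 y]
  ring

theorem qC_one_tmul (y : V) (s : ℂ ⊗[ℚ] V) (hq : ∀ x y, q x y = q y x) :
    qC q s (1 ⊗ₜ y) = TensorProduct.AlgebraTensorModule.rid ℚ ℂ ℂ ((q y).baseChange ℂ s) := by
  induction s using TensorProduct.induction_on with
  | zero => simp
  | tmul z x =>
    simp [qC, hq x y]
  | add a b ha hb =>
    rw [map_add, LinearMap.add_apply, ha, hb, map_add, map_add]

end Lin

variable {n : ℕ} {V A V' A' : Type*} [AddCommGroup V] [Module ℚ V] [Ring A] [Algebra ℚ A]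
  [AddCommGroup V'] [Module ℚ V'] [Ring A'] [Algebra ℚ A']

theorem mem_NS (X : HKCohomology n V A) (y : V) : y ∈ X.NS ↔ qC X.q X.sg (1 ⊗ₜ y) = 0 := by
  simp [HKCohomology.NS]

/-- If `v` is orthogonal to the image of `V`, its `V`-component is in `NS`. -/
theorem comp_mem_NS {X : HKCohomology n V A} {X' : HKCohomology n V' A'}
    (F : FourierMukai X X') (v : Mk V') (h : ∀ x, mform X'.q v (F.φ (emb x)) = 0) :
    v.2.1 ∈ X'.NS := by
  rw [mem_NS, qC_one_tmul X'.q _ _ X'.q_symm]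
  obtain ⟨c, hc, hF⟩ := F.hodge
  have h1 : (mform X'.q v) ∘ₗ (F.φ : Mk V →ₗ[ℚ] Mk V') ∘ₗ emb = 0 := by
    ext x; simpa using h x
  have h2 : (mform X'.q v) ∘ₗ emb = X'.q v.2.1 := by
    ext x; simp [mform_eq, emb]
  have h3 : ((mform X'.q v).baseChange ℂ)
      ((F.φ : Mk V →ₗ[ℚ] Mk V').baseChange ℂ (emb.baseChange ℂ X.sg)) = 0 := by
    have := congrArg (fun f => LinearMap.baseChange ℂ f X.sg) h1
    simpa [LinearMap.baseChange_comp] using this
  rw [hF, map_smul, smul_eq_zero, or_iff_right hc] at h3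
  have h4 : (X'.q v.2.1).baseChange ℂ X'.sg = 0 := by
    rw [← h2, LinearMap.baseChange_comp]
    exact h3
  rw [h4, map_zero]

theorem p_GAM {X : HKCohomology n V A} {X' : HKCohomology n V' A'} (F : FourierMukai X X') :
    T_GAM F := by
  set v := F.φ al with hv
  set w := F.φ be with hw
  have hvNS : v.2.1 ∈ X'.NS := comp_mem_NS F v fun x => by
    rw [hv, F.form]; simp [mform_eq, al, emb]
  have hwNS : w.2.1 ∈ X'.NS := comp_mem_NS F w fun x => by
    rw [hw, F.form]; simp [mform_eq, be, emb]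
  have hvv : mform X'.q v v = 0 := by rw [hv, F.form]; simp [mform_eq, al]
  have hww : mform X'.q w w = 0 := by rw [hw, F.form]; simp [mform_eq, be]
  have hvw : mform X'.q v w ≠ 0 := by
    rw [hv, hw, F.form]; simpa [mform_eq, al, be] using F.μ_ne
  have hqs := X'.q_symm
  -- step 1
  obtain ⟨y₁, hy₁, h1⟩ : ∃ y₁ ∈ X'.NS,
      v.1 + X'.q y₁ v.2.1 + v.2.2 * X'.q y₁ y₁ / 2 ≠ 0 := by
    by_cases hr : v.1 = 0
    · by_cases hs : v.2.2 = 0
      · have hl : v.2.1 ≠ 0 := by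
          intro hl
          apply hvw
          have : v = 0 := by
            ext <;> simp [hr, hs, hl]
          rw [this]; simp
        by_contra hcon
        push Not at hcon
        apply hl
        refine X'.ns_nondeg _ ((mem_NS X' _).1 hvNS) fun y hy => ?_
        have := hcon y ((mem_NS X' _).2 hy)
        rw [hr, hs] at this
        rw [hqs]
        simpa using this
      · obtain ⟨k, hk, hk0⟩ := X'.ample
        by_cases h : X'.q k v.2.1 + v.2.2 * X'.q k k / 2 = 0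
        · refine ⟨-k, X'.NS.neg_mem ((mem_NS X' _).2 hk), ?_⟩
          simp only [map_neg, LinearMap.neg_apply, neg_neg, hr, zero_add]
          intro h'
          have : v.2.2 * X'.q k k = 0 := by linarith
          rcases mul_eq_zero.1 this with h5 | h5
          · exact hs h5
          · exact hk0.ne' h5
        · exact ⟨k, (mem_NS X' _).2 hk, by rw [hr, zero_add]; exact h⟩
    · exact ⟨0, X'.NS.zero_mem, by simpa using hr⟩
  set v₁ := IsNilpotent.exp (wedge X'.q al (emb y₁)) v with hv₁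
  set w₁ := IsNilpotent.exp (wedge X'.q al (emb y₁)) w with hw₁
  have hv₁e := exp_al_eq X'.q y₁ v
  have hw₁e := exp_al_eq X'.q y₁ w
  rw [← hv₁] at hv₁e
  rw [← hw₁] at hw₁e
  have hr₁ : v₁.1 ≠ 0 := by rw [hv₁e]; exact h1
  have hv₁NS : v₁.2.1 ∈ X'.NS := by
    rw [hv₁e]; exact X'.NS.add_mem hvNS (X'.NS.smul_mem _ hy₁)
  have hw₁NS : w₁.2.1 ∈ X'.NS := by
    rw [hw₁e]; exact X'.NS.add_mem hwNS (X'.NS.smul_mem _ hy₁)
  -- step 2
  set x : V' := -(v₁.1⁻¹ • v₁.2.1) with hx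
  have hxNS : x ∈ X'.NS := X'.NS.neg_mem (X'.NS.smul_mem _ hv₁NS)
  set v₂ := IsNilpotent.exp (wedge X'.q be (emb x)) v₁ with hv₂
  set w₂ := IsNilpotent.exp (wedge X'.q be (emb x)) w₁ with hw₂
  have hv₂e := exp_be_eq X'.q x v₁
  have hw₂e := exp_be_eq X'.q x w₁
  rw [← hv₂] at hv₂e
  rw [← hw₂] at hw₂e
  have hw₂NS : w₂.2.1 ∈ X'.NS := by
    rw [hw₂e]; exact X'.NS.add_mem hw₁NS (X'.NS.smul_mem _ hxNS)
  have hv₂v : mform X'.q v₂ v₂ = 0 := by
    rw [hv₂, mform_exp_be _ hqs, hv₁, mform_exp_al _ hqs, hvv]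
  have hw₂w : mform X'.q w₂ w₂ = 0 := by
    rw [hw₂, mform_exp_be _ hqs, hw₁, mform_exp_al _ hqs, hww]
  have hv₂w : mform X'.q v₂ w₂ ≠ 0 := by
    rw [hv₂, hw₂, mform_exp_be _ hqs, hv₁, hw₁, mform_exp_al _ hqs]; exact hvw
  have h21 : v₂.1 = v₁.1 := by rw [hv₂e]
  have h22 : v₂.2.1 = 0 := by
    rw [hv₂e, hx]
    simp [smul_smul, hr₁]
  have h23 : v₂.2.2 = 0 := by
    rw [mform_eq, h22] at hv₂v
    have : v₂.1 * v₂.2.2 = 0 := by
      simp only [map_zero] at hv₂v
      linarith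
    rcases mul_eq_zero.1 this with h5 | h5
    · exact absurd (h21 ▸ h5) hr₁
    · exact h5
  have hv₂al : v₂ = v₁.1 • al := by
    ext
    · simp [al, h21]
    · simp [al, h22]
    · simp [al, h23]
  -- step 3
  have hb : w₂.2.2 ≠ 0 := by
    intro hb
    apply hv₂w
    rw [mform_eq, h22, h23, hb]
    simp
  set y₂ : V' := -(w₂.2.2⁻¹ • w₂.2.1) with hy₂
  have hy₂NS : y₂ ∈ X'.NS := X'.NS.neg_mem (X'.NS.smul_mem _ hw₂NS)
  have hw₃e := exp_al_eq X'.q y₂ w₂
  have hw₃w : mform X'.q (IsNilpotent.exp (wedge X'.q al (emb y₂)) w₂)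
      (IsNilpotent.exp (wedge X'.q al (emb y₂)) w₂) = 0 := by
    rw [mform_exp_al _ hqs, hw₂w]
  set w₃ := IsNilpotent.exp (wedge X'.q al (emb y₂)) w₂ with hw₃
  have h31 : w₃.2.2 = w₂.2.2 := by rw [hw₃e]
  have h32 : w₃.2.1 = 0 := by
    rw [hw₃e, hy₂]
    simp [smul_smul, hb]
  have h33 : w₃.1 = 0 := by
    rw [mform_eq, h32] at hw₃w
    have : w₃.1 * w₃.2.2 = 0 := by
      simp only [map_zero] at hw₃w
      linarith
    rcases mul_eq_zero.1 this with h5 | h5
    · exact h5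
    · exact absurd (h31 ▸ h5) hb
  refine ⟨y₁, hy₁, x, hxNS, y₂, hy₂NS, v₁.1, w₂.2.2, hr₁, hb, ?_, ?_⟩
  · rw [gam, Module.End.mul_apply, Module.End.mul_apply]
    rw [← hv, ← hv₁, ← hv₂, hv₂al, exp_al_eq]
    ext <;> simp [al]
  · rw [gam, Module.End.mul_apply, Module.End.mul_apply]
    rw [← hw, ← hw₁, ← hw₂, ← hw₃]
    ext
    · simp [be, h33]
    · simp [be, h32]
    · simp [be, h31]

end

end Pool.Agent.HKO
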