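import Pool.Agent.HKO.Targets2
import Pool.Agent.HKO.Gam

/-! Moving a pair of isotropic vectors with Néron–Severi components. -/

open scoped TensorProduct

namespace Pool.Agent.HKO

noncomputable section

variable {n : ℕ} {V A : Type*} [AddCommGroup V] [Module ℚ V] [Ring A] [Algebra ℚ A]

theorem p_GAM2 (X : HKCohomology n V A) : S_GAM X := by
  intro v w hvv hww hvw hvNS hwNS
  have hqs := X.q_symm
  -- step 1
  obtain ⟨y₁, hy₁, h1⟩ : ∃ y₁ ∈ X.NS,
      v.1 + X.q y₁ v.2.1 + v.2.2 * X.q y₁ y₁ / 2 ≠ 0 := by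
    by_cases hr : v.1 = 0
    · by_cases hs : v.2.2 = 0
      · have hl : v.2.1 ≠ 0 := by
          intro hl
          apply hvw
          have : v = 0 := by
            ext <;> simp [hr, hs, hl]
          rw [this]; simp
        by_contra hcon
        push Not at hcon
        apply hl
        refine X.ns_nondeg _ ((mem_NS X _).1 hvNS) fun y hy => ?_
        have := hcon y ((mem_NS X _).2 hy)
        rw [hr, hs] at this
        rw [hqs]
        simpa using this
      · obtain ⟨k, hk, hk0⟩ := X.ample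
        by_cases h : X.q k v.2.1 + v.2.2 * X.q k k / 2 = 0
        · refine ⟨-k, X.NS.neg_mem ((mem_NS X _).2 hk), ?_⟩
          simp only [map_neg, LinearMap.neg_apply, neg_neg, hr, zero_add]
          intro h'
          have : v.2.2 * X.q k k = 0 := by linarith
          rcases mul_eq_zero.1 this with h5 | h5
          · exact hs h5
          · exact hk0.ne' h5
        · exact ⟨k, (mem_NS X _).2 hk, by rw [hr, zero_add]; exact h⟩
    · exact ⟨0, X.NS.zero_mem, by simpa using hr⟩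
  set v₁ := IsNilpotent.exp (wedge X.q al (emb y₁)) v with hv₁
  set w₁ := IsNilpotent.exp (wedge X.q al (emb y₁)) w with hw₁
  have hv₁e := exp_al_eq X.q y₁ v
  have hw₁e := exp_al_eq X.q y₁ w
  rw [← hv₁] at hv₁e
  rw [← hw₁] at hw₁e
  have hr₁ : v₁.1 ≠ 0 := by rw [hv₁e]; exact h1
  have hv₁NS : v₁.2.1 ∈ X.NS := by
    rw [hv₁e]; exact X.NS.add_mem hvNS (X.NS.smul_mem _ hy₁)
  have hw₁NS : w₁.2.1 ∈ X.NS := by
    rw [hw₁e]; exact X.NS.add_mem hwNS (X.NS.smul_mem _ hy₁)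
  -- step 2
  set x : V := -(v₁.1⁻¹ • v₁.2.1) with hx
  have hxNS : x ∈ X.NS := X.NS.neg_mem (X.NS.smul_mem _ hv₁NS)
  set v₂ := IsNilpotent.exp (wedge X.q be (emb x)) v₁ with hv₂
  set w₂ := IsNilpotent.exp (wedge X.q be (emb x)) w₁ with hw₂
  have hv₂e := exp_be_eq X.q x v₁
  have hw₂e := exp_be_eq X.q x w₁
  rw [← hv₂] at hv₂e
  rw [← hw₂] at hw₂e
  have hw₂NS : w₂.2.1 ∈ X.NS := by
    rw [hw₂e]; exact X.NS.add_mem hw₁NS (X.NS.smul_mem _ hxNS)
  have hv₂v : mform X.q v₂ v₂ = 0 := by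
    rw [hv₂, mform_exp_be _ hqs, hv₁, mform_exp_al _ hqs, hvv]
  have hw₂w : mform X.q w₂ w₂ = 0 := by
    rw [hw₂, mform_exp_be _ hqs, hw₁, mform_exp_al _ hqs, hww]
  have hv₂w : mform X.q v₂ w₂ ≠ 0 := by
    rw [hv₂, hw₂, mform_exp_be _ hqs, hv₁, hw₁, mform_exp_al _ hqs]; exact hvw
  have h21 : v₂.1 = v₁.1 := by rw [hv₂e]
  have h22 : v₂.2.1 = 0 := by
    rw [hv₂e, hx]
    simp [smul_smul, hr₁]
  have h23 : v₂.2.2 = 0 := by
    rw [mform_eq, h22] at hv₂v
    have : v₂.1 * v₂.2.2 = 0 := by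
      simp only [map_zero] at hv₂v
      linarith
    rcases mul_eq_zero.1 this with h5 | h5
    · exact absurd (h21 ▸ h5) hr₁
    · exact h5
  have hv₂al : v₂ = v₁.1 • al := by
    ext
    · simp [al, h21]
    · simp [al, h22]
    · simp [al, h23]
  -- step 3
  have hb : w₂.2.2 ≠ 0 := by
    intro hb
    apply hv₂w
    rw [mform_eq, h22, h23, hb]
    simp
  set y₂ : V := -(w₂.2.2⁻¹ • w₂.2.1) with hy₂
  have hy₂NS : y₂ ∈ X.NS := X.NS.neg_mem (X.NS.smul_mem _ hw₂NS)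
  have hw₃e := exp_al_eq X.q y₂ w₂
  have hw₃w : mform X.q (IsNilpotent.exp (wedge X.q al (emb y₂)) w₂)
      (IsNilpotent.exp (wedge X.q al (emb y₂)) w₂) = 0 := by
    rw [mform_exp_al _ hqs, hw₂w]
  set w₃ := IsNilpotent.exp (wedge X.q al (emb y₂)) w₂ with hw₃
  have h31 : w₃.2.2 = w₂.2.2 := by rw [hw₃e]
  have h32 : w₃.2.1 = 0 := by
    rw [hw₃e, hy₂]
    simp [smul_smul, hb]
  have h33 : w₃.1 = 0 := by
    rw [mform_eq, h32] at hw₃w
    have : w₃.1 * w₃.2.2 = 0 := by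
      simp only [map_zero] at hw₃w
      linarith
    rcases mul_eq_zero.1 this with h5 | h5
    · exact h5
    · exact absurd (h31 ▸ h5) hb
  refine ⟨y₁, hy₁, x, hxNS, y₂, hy₂NS, v₁.1, w₂.2.2, hr₁, hb, ?_, ?_⟩
  · rw [gam, Module.End.mul_apply, Module.End.mul_apply]
    rw [← hv₁, ← hv₂, hv₂al, exp_al_eq]
    ext <;> simp [al]
  · rw [gam, Module.End.mul_apply, Module.End.mul_apply]
    rw [← hw₁, ← hw₂, ← hw₃]
    ext
    · simp [be, h33]
    · simp [be, h32]
    · simp [be, h31]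

end

end Pool.Agent.HKO
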