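import Pool.Agent.HKO.Targets2

/-! The image of the degree operator under a Mukai transform. -/

open scoped TensorProduct

namespace Pool.Agent.HKO

noncomputable section

variable {n : ℕ} {V A V' A' : Type*} [AddCommGroup V] [Module ℚ V] [Ring A] [Algebra ℚ A]
  [AddCommGroup V'] [Module ℚ V'] [Ring A'] [Algebra ℚ A']

lemma ht_opC_tmul (F : V →ₗ[ℚ] Module.End ℚ A) (z : ℂ) (x : V) :
    opC F (z ⊗ₜ x) = z • (F x).baseChange ℂ := by
  simp [opC]

lemma ht_act (X : HKCohomology n V A) (x y : V) :
    X.cup x * X.lam y - X.lam y * X.cup x = X.act (emb x) (emb y) + X.q x y • X.act al be := by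
  have h := X.act_lie be (emb x) al (emb y)
  have e1 : wedge X.q be (emb x) al = emb x := by
    simp [wedge, mform, al, be, emb]
  have e2 : wedge X.q be (emb x) (emb y) = X.q x y • be := by
    simp [wedge, mform, be, emb]
  rw [e1, e2, map_smul] at h
  rw [cup_eq, lam_eq]
  exact h

lemma ht_actCC (X : HKCohomology n V A) (s t : ℂ ⊗[ℚ] V) :
    opC X.cup s * opC X.lam t - opC X.lam t * opC X.cup s =
      actCC X (embC s) (embC t) + qC X.q s t • actC X al be := by
  induction s using TensorProduct.induction_on with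
  | zero => simp
  | add x y hx hy =>
    simp only [map_add, LinearMap.add_apply, add_mul, mul_add, add_smul] at hx hy ⊢
    rw [← sub_add_sub_comm, hx, hy]
    abel
  | tmul a x =>
    induction t using TensorProduct.induction_on with
    | zero => simp
    | add y z hy hz =>
      simp only [map_add, add_mul, mul_add, add_smul] at hy hz ⊢
      rw [← sub_add_sub_comm, hy, hz]
      abel
    | tmul b y =>
      have h := congrArg (fun f : Module.End ℚ A => f.baseChange ℂ) (ht_act X x y)
      simp only [LinearMap.baseChange_sub, LinearMap.baseChange_mul, LinearMap.baseChange_add,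
        LinearMap.baseChange_smul] at h
      rw [ht_opC_tmul, ht_opC_tmul, embC, LinearMap.baseChange_tmul, LinearMap.baseChange_tmul,
        actCC_tmul, qC_tmul']
      rw [smul_mul_smul_comm, smul_mul_smul_comm, mul_comm b a]
      have e2 : ∀ (r : ℚ) (m : Module.End ℂ (ℂ ⊗[ℚ] A)), r • m = (r : ℂ) • m := by
        intro r m
        rw [← algebraMap_smul ℂ r m]; simp
      rw [e2] at h
      have h3 := congrArg (fun m : Module.End ℂ (ℂ ⊗[ℚ] A) => (a * b) • m) h
      simp only [smul_sub, smul_add, smul_smul] at h3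
      rw [h3, mul_comm (a * b)]
      rfl

lemma ht_qC_conj (q : V →ₗ[ℚ] V →ₗ[ℚ] ℚ) (s t : ℂ ⊗[ℚ] V) :
    qC q (conjV V s) (conjV V t) = starRingEnd ℂ (qC q s t) := by
  induction s using TensorProduct.induction_on with
  | zero => simp
  | add x y hx hy => rw [map_add, map_add, map_add, LinearMap.add_apply, LinearMap.add_apply,
      hx, hy, map_add]
  | tmul a x =>
    induction t using TensorProduct.induction_on with
    | zero => simp
    | add y z hy hz => rw [map_add, map_add, map_add, hy, hz, map_add]
    | tmul b y =>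
      rw [conjV, LinearMap.rTensor_tmul, LinearMap.rTensor_tmul, qC_tmul', qC_tmul', map_mul,
        map_mul]
      simp [conjQ]

theorem p_HT {X : HKCohomology n V A} {X' : HKCohomology n V' A'} (F : MukaiTransform X X')
    (h : S_STAR X) (h' : S_STAR X') (ht : S_THETA F) : S_HT F := by
  obtain ⟨s1, s2, s3, -, s5, -⟩ := h
  obtain ⟨t1, t2, -, -, -, st, t6, t7⟩ := h'
  obtain ⟨-, -, hd, ψ, ν, hν, hcup, hlam, hq⟩ := ht
  set sb := conjV V X.sg with hsb
  set q := qC X.q X.sg sb with hqdef
  have hq0 : q ≠ 0 := X.sg_pos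
  -- conjugation of the Hodge operator
  have hh : ∀ c, tht F (X.hodgeOp c) =
      (ν * q)⁻¹ • actCC X' (embC (ψ X.sg)) (embC (ψ sb)) (tht F c) := by
    intro c
    have e1 : actCC X (embC X.sg) (embC sb) = opC X.cup X.sg * opC X.lam sb -
        opC X.lam sb * opC X.cup X.sg - q • actC X al be := by
      rw [ht_actCC]; abel
    have e2 : opC X'.cup (ψ X.sg) * opC X'.lam (ψ sb) -
        opC X'.lam (ψ sb) * opC X'.cup (ψ X.sg) =
        actCC X' (embC (ψ X.sg)) (embC (ψ sb)) + (ν * q) • actC X' al be := by
      rw [ht_actCC, hq]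
    have e3 := LinearMap.congr_fun e2 (tht F c)
    simp only [LinearMap.sub_apply, Module.End.mul_apply, LinearMap.add_apply,
      LinearMap.smul_apply] at e3
    rw [s5, e1]
    simp only [LinearMap.smul_apply, LinearMap.sub_apply, Module.End.mul_apply, map_smul, map_sub,
      hcup, hlam, hd]
    have e4 : actCC X' (embC (ψ X.sg)) (embC (ψ sb)) (tht F c) =
      opC X'.cup (ψ X.sg) (opC X'.lam (ψ sb) (tht F c)) -
        opC X'.lam (ψ sb) (opC X'.cup (ψ X.sg) (tht F c)) -
        (ν * q) • actC X' al be (tht F c) := by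
      rw [e3]; abel
    rw [e4]
    simp only [smul_sub, smul_smul]
    rw [inv_mul_cancel₀ (mul_ne_zero hν hq0), inv_mul_cancel₀ hq0, mul_inv, mul_comm ν⁻¹ q⁻¹]
  have hmf : mformC X'.q (st (embC (ψ X.sg))) (st (embC (ψ sb))) = ν * q := by
    rw [t7, mformC_embC, hq]
  refine ⟨st (embC (ψ X.sg)), st (embC (ψ sb)), ?_, ?_, ?_, ?_⟩
  · rw [t7, mformC_embC, hq, X.sg_iso, mul_zero]
  · rw [t7, mformC_embC, hq]
    have : qC X.q sb sb = 0 := by
      rw [hsb, ht_qC_conj, X.sg_iso, map_zero]
    rw [this, mul_zero]
  · rw [hmf]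
    exact mul_ne_zero hν hq0
  · intro c
    rw [hmf]
    have a1 : ∀ c, phC F c = X'.star (tht F (X.starInv c)) := by
      intro c
      have b1 := LinearMap.congr_fun s1 c
      have b2 := LinearMap.congr_fun t1 (phC F c)
      simp only [Module.End.mul_apply, Module.End.one_apply] at b1 b2
      show _ = X'.star (X'.starInv (phC F (X.star (X.starInv c))))
      rw [b1, b2]
    have a2 : X.starInv (actC X al be c) = - X.hodgeOp (X.starInv c) := by
      have b1 := LinearMap.congr_fun s1 c
      have b3 := LinearMap.congr_fun s3 (X.starInv c)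
      simp only [Module.End.mul_apply, Module.End.one_apply, LinearMap.neg_apply] at b1 b3
      rw [b1] at b3
      exact b3
    rw [a1 (actC X al be c), a1 c, a2, map_neg, map_neg, hh, map_smul]
    have b4 := LinearMap.congr_fun (t6 (embC (ψ X.sg)) (embC (ψ sb)))
      (X'.star (tht F (X.starInv c)))
    have b5 := LinearMap.congr_fun t2 (tht F (X.starInv c))
    simp only [Module.End.mul_apply, Module.End.one_apply] at b4 b5
    rw [b5] at b4
    rw [b4, neg_smul]

end

end Pool.Agent.HKO
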