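import Pool.Agent.HKO.Targets

/-! The key lemma: inside `MM`, the operators which commute with `H²` are cup products. -/

open scoped TensorProduct

namespace Pool.Agent.HKO

noncomputable section

/-- Positivity: in a finite-dimensional inner product space, an element of the span of the
commutators `[F i, m]` which commutes with the adjoints of all `F i` is zero. -/
theorem key_pos {W : Type*} [NormedAddCommGroup W] [InnerProductSpace ℂ W]
    [FiniteDimensional ℂ W] {ι : Type*} (F : ι → Module.End ℂ W) (z : Module.End ℂ W)
    (hz : z ∈ Submodule.span ℂ {w | ∃ i m, w = cm (F i) m})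
    (hc : ∀ i, cm (LinearMap.adjoint (F i)) z = 0) : z = 0 := by
  have h0 : ∀ w ∈ Submodule.span ℂ {w | ∃ i m, w = cm (F i) m},
      LinearMap.trace ℂ W (w * LinearMap.adjoint z) = 0 := by
    intro w hw
    induction hw using Submodule.span_induction with
    | mem w hw =>
      obtain ⟨i, m, rfl⟩ := hw
      have h1 : LinearMap.adjoint z * F i = F i * LinearMap.adjoint z := by
        have h2 := hc i
        unfold cm at h2
        have h3 := congrArg LinearMap.adjoint (sub_eq_zero.mp h2)
        rw [Module.End.mul_eq_comp, Module.End.mul_eq_comp, LinearMap.adjoint_comp,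
          LinearMap.adjoint_comp, LinearMap.adjoint_adjoint] at h3
        exact h3
      unfold cm
      rw [sub_mul, map_sub, mul_assoc, LinearMap.trace_mul_comm, mul_assoc, mul_assoc,
        h1, sub_self]
    | zero => simp
    | add x y _ _ hx hy => rw [add_mul, map_add, hx, hy, add_zero]
    | smul c x _ hx => rw [smul_mul_assoc, map_smul, hx, smul_zero]
  have h1 := h0 z hz
  have b := stdOrthonormalBasis ℂ W
  rw [LinearMap.trace_mul_comm, LinearMap.trace_eq_sum_inner _ b] at h1
  have h2 : ∀ i, inner ℂ (b i) ((LinearMap.adjoint z * z) (b i)) =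
      ((‖z (b i)‖ ^ 2 : ℝ) : ℂ) := by
    intro i
    rw [Module.End.mul_apply, LinearMap.adjoint_inner_right, inner_self_eq_norm_sq_to_K]
    push_cast
    rfl
  simp only [h2] at h1
  have h3 : ∑ i, ‖z (b i)‖ ^ 2 = 0 := by exact_mod_cast h1
  have h4 := (Finset.sum_eq_zero_iff_of_nonneg (fun i _ => sq_nonneg ‖z (b i)‖)).mp h3
  apply b.toBasis.ext
  intro i
  have h5 := h4 i (Finset.mem_univ i)
  have h6 : z (b i) = 0 := by
    rw [← norm_eq_zero]
    exact pow_eq_zero_iff (two_ne_zero) |>.mp h5
  simp [h6]

/-- The same with a positive definite form given as a `Core`. -/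
theorem key_core {W : Type*} [AddCommGroup W] [Module ℂ W] [FiniteDimensional ℂ W]
    (c : InnerProductSpace.Core ℂ W) {ι : Type*} (F G : ι → Module.End ℂ W)
    (hadj : ∀ i a b, c.inner (F i a) b = c.inner a (G i b)) (z : Module.End ℂ W)
    (hz : z ∈ Submodule.span ℂ {w | ∃ i m, w = cm (F i) m})
    (hc : ∀ i, cm (G i) z = 0) : z = 0 := by
  let _ : NormedAddCommGroup W := c.toNormedAddCommGroup
  let _ : InnerProductSpace ℂ W := InnerProductSpace.ofCore c.toCore
  refine key_pos F z hz ?_
  intro i
  have h0 : F i = LinearMap.adjoint (G i) := by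
    rw [LinearMap.eq_adjoint_iff]
    intro x y
    exact hadj i x y
  have h1 : G i = LinearMap.adjoint (F i) := by
    rw [h0, LinearMap.adjoint_adjoint]
  rw [← h1]
  exact hc i

variable {n : ℕ} {V A : Type*} [AddCommGroup V] [Module ℚ V] [Ring A] [Algebra ℚ A]

/-- The commutator as a linear map of its second argument. -/
theorem cm_add {R : Type*} [Ring R] (a b c : R) : cm a (b + c) = cm a b + cm a c := by
  unfold cm
  noncomm_ring

/-- `MM` is the sum of the cup products and of the span of the commutators. -/
theorem MM_le (X : HKCohomology n V A) :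
    MM X ≤ LL A ⊔ Submodule.span ℂ {w | ∃ (y : V) (m : Module.End ℂ (ℂ ⊗[ℚ] A)),
      w = cm (actC X al (emb y)) m} := by
  apply sInf_le
  refine ⟨le_sup_left, ?_⟩
  intro y m _
  apply Submodule.mem_sup_right
  exact Submodule.subset_span ⟨y, m, rfl⟩

/-- Classes of degree two are central. -/
theorem cls_central (X : HKCohomology n V A) (x : V) (a : A) :
    X.cls x * a = a * X.cls x := by
  have hx : X.cls x ∈ X.gr 2 := by
    rw [← X.cls_range]
    exact LinearMap.mem_range_self _ _
  have _ := X.graded
  have ha : a ∈ ⨆ i, X.gr i := by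
    have h := (DirectSum.Decomposition.isInternal X.gr).submodule_iSup_eq_top
    rw [h]
    trivial
  induction ha using Submodule.iSup_induction' with
  | mem i b hb =>
    rw [X.comm 2 i _ b hx hb]
    simp
  | zero => simp
  | add b c _ _ hb hc => rw [mul_add, add_mul, hb, hc]

/-- Complexified classes of degree two are central. -/
theorem clsC_central (X : HKCohomology n V A) (z : ℂ ⊗[ℚ] V) (a : ℂ ⊗[ℚ] A) :
    X.cls.baseChange ℂ z * a = a * X.cls.baseChange ℂ z := by
  induction z using TensorProduct.induction_on with
  | zero => simp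
  | add u v hu hv => rw [map_add, add_mul, mul_add, hu, hv]
  | tmul c x =>
    induction a using TensorProduct.induction_on with
    | zero => simp
    | add u v hu hv => rw [add_mul, mul_add, hu, hv]
    | tmul d b =>
      rw [LinearMap.baseChange_tmul, Algebra.TensorProduct.tmul_mul_tmul,
        Algebra.TensorProduct.tmul_mul_tmul, cls_central, mul_comm c d]

/-- An operator which commutes with all cup products by rational classes of degree two commutes
with all cup products by complex classes of degree two. -/
theorem comm_clsC (X : HKCohomology n V A) (z : Module.End ℂ (ℂ ⊗[ℚ] A))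
    (hz : ∀ x : V, cm ((X.cup x).baseChange ℂ) z = 0) (w : ℂ ⊗[ℚ] V) :
    cm (LinearMap.mulLeft ℂ (X.cls.baseChange ℂ w)) z = 0 := by
  induction w using TensorProduct.induction_on with
  | zero =>
    unfold cm
    simp
  | add u v hu hv =>
    unfold cm at hu hv ⊢
    have h : LinearMap.mulLeft ℂ (X.cls.baseChange ℂ (u + v)) =
        LinearMap.mulLeft ℂ (X.cls.baseChange ℂ u) +
          LinearMap.mulLeft ℂ (X.cls.baseChange ℂ v) := by
      ext c
      simp [add_mul]
    rw [h, add_mul, mul_add, add_sub_add_comm, hu, hv, add_zero]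
  | tmul c x =>
    have h : LinearMap.mulLeft ℂ (X.cls.baseChange ℂ (c ⊗ₜ x)) =
        c • (X.cup x).baseChange ℂ := by
      refine LinearMap.ext fun t => ?_
      induction t using TensorProduct.induction_on with
      | zero => simp
      | add u v hu hv => rw [map_add, map_add, hu, hv]
      | tmul d b =>
        simp [HKCohomology.cup, TensorProduct.smul_tmul']
    have h2 := hz x
    unfold cm at h2 ⊢
    rw [h, smul_mul_assoc, mul_smul_comm, sub_eq_zero.mp h2, sub_self]

/-- T_KEY: inside `MM`, the operators which commute with `H²` are cup products. -/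
theorem p_KEY (X : HKCohomology n V A) : T_KEY X := by
  intro m hm hcm
  have _ : Module.Finite ℚ A := X.finite
  obtain ⟨l, hl, z, hz, hlz⟩ := Submodule.mem_sup.mp (MM_le X hm)
  obtain ⟨a, ha⟩ := hl
  have hcl : ∀ x : V, cm ((X.cup x).baseChange ℂ) l = 0 := by
    intro x
    have h : (X.cup x).baseChange ℂ =
        LinearMap.mulLeft ℂ (X.cls.baseChange ℂ (1 ⊗ₜ x)) := by
      refine LinearMap.ext fun t => ?_
      induction t using TensorProduct.induction_on with
      | zero => simp
      | add u v hu hv => rw [map_add, map_add, hu, hv]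
      | tmul d b => simp [HKCohomology.cup]
    unfold cm
    rw [h, ← ha, sub_eq_zero]
    refine LinearMap.ext fun t => ?_
    simp only [Module.End.mul_apply, LinearMap.mulLeft_apply, LinearMap.mul_apply']
    rw [← mul_assoc, clsC_central, mul_assoc]
  have hcz : ∀ x : V, cm ((X.cup x).baseChange ℂ) z = 0 := by
    intro x
    have h1 := hcm x
    rw [← hlz, cm_add, hcl x, zero_add] at h1
    exact h1
  choose g hg using X.herm_adj
  have hz0 : z = 0 := by
    apply key_core X.herm (fun y : V => actC X al (emb y))
      (fun y : V => LinearMap.mulLeft ℂ (X.cls.baseChange ℂ (g y)))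
      (fun y a b => hg y a b) z
    · exact hz
    · intro y
      exact comm_clsC X z hcz (g y)
  rw [← hlz, hz0, add_zero, ← ha]
  exact LinearMap.mem_range_self _ _

end

end Pool.Agent.HKO
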