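import Pool.Agent.HKO.GGphi

/-! Cup products are mapped into `MM` (minimal hypotheses on the transform). -/

open scoped TensorProduct

namespace Pool.Agent.HKO

noncomputable section

variable {n : ℕ} {V A V' A' : Type*} [AddCommGroup V] [Module ℚ V] [Ring A] [Algebra ℚ A]
  [AddCommGroup V'] [Module ℚ V'] [Ring A'] [Algebra ℚ A']

namespace Phi2

theorem cm_MM (X : HKCohomology n V A) (g m : Module.End ℂ (ℂ ⊗[ℚ] A)) (hg : g ∈ GG X)
    (hm : m ∈ MM X) : cm g m ∈ MM X := by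
  refine Submodule.span_induction (p := fun g _ => cm g m ∈ MM X) ?_ ?_ ?_ ?_ hg
  · rintro a ⟨z, t, rfl⟩
    exact (p_STAB X).1 z t m hm
  · rw [SB.cm_zero_left]
    exact (MM X).zero_mem
  · intro a b _ _ ha hb
    rw [SB.cm_add_left]
    exact (MM X).add_mem ha hb
  · intro c a _ ha
    rw [SB.cm_smul_left]
    exact (MM X).smul_mem c ha

/-- The operators on `H^*(X, ℂ)` which are transformed into `MM X'`. -/
def NP {X : HKCohomology n V A} {X' : HKCohomology n V' A'} (F : MukaiTransform X X') :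
    Submodule ℂ (Module.End ℂ (ℂ ⊗[ℚ] A)) where
  carrier := {m | ∃ m' ∈ MM X', ∀ c : ℂ ⊗[ℚ] A, phC F (m c) = m' (phC F c)}
  add_mem' := by
    rintro a b ⟨a', ha', ha⟩ ⟨b', hb', hb⟩
    refine ⟨a' + b', (MM X').add_mem ha' hb', fun c => ?_⟩
    rw [LinearMap.add_apply, map_add, ha, hb, LinearMap.add_apply]
  zero_mem' := ⟨0, (MM X').zero_mem, fun c => by
    rw [LinearMap.zero_apply, map_zero, LinearMap.zero_apply]⟩
  smul_mem' := by
    rintro t a ⟨a', ha', ha⟩
    refine ⟨t • a', (MM X').smul_mem t ha', fun c => ?_⟩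
    rw [LinearMap.smul_apply, map_smul, ha, LinearMap.smul_apply]

theorem mem_NP {X : HKCohomology n V A} {X' : HKCohomology n V' A'} (F : MukaiTransform X X')
    (m : Module.End ℂ (ℂ ⊗[ℚ] A)) : m ∈ NP F ↔ ∃ m' ∈ MM X', ∀ c : ℂ ⊗[ℚ] A,
    phC F (m c) = m' (phC F c) := Iff.rfl

theorem NP_stable {X : HKCohomology n V A} {X' : HKCohomology n V' A'}
    (F : MukaiTransform X X') (hg : S_GG F) (u v : Mk V)
    (m : Module.End ℂ (ℂ ⊗[ℚ] A)) (hm : m ∈ NP F) : cm (actC X u v) m ∈ NP F := by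
  obtain ⟨m', hm', h⟩ := (mem_NP F m).1 hm
  obtain ⟨g, hgd⟩ : ∃ g, g = phC F ∘ₗ actC X u v ∘ₗ phI F := ⟨_, rfl⟩
  have hgm : g ∈ GG X' := by
    rw [hgd]
    exact hg _ (GGphi.actC_mem_GG X u v)
  have hgc : ∀ w, phC F (actC X u v w) = g (phC F w) := by
    intro w
    rw [hgd, LinearMap.comp_apply, LinearMap.comp_apply, GGphi.phI_phC]
  refine (mem_NP F _).2 ⟨cm g m', cm_MM X' g m' hgm hm', fun c => ?_⟩
  have e1 : (cm (actC X u v) m) c = actC X u v (m c) - m (actC X u v c) := rfl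
  have e2 : ∀ w, (cm g m') w = g (m' w) - m' (g w) := fun w => rfl
  rw [e1, e2, map_sub, hgc, h, h, hgc]

end Phi2

open Phi2

/-- S_PHI: the transform maps cup products into `MM`. -/
theorem p_PHI2 {X : HKCohomology n V A} {X' : HKCohomology n V' A'} (F : MukaiTransform X X')
    (hg : S_GG F) : S_PHI F := by
  intro a
  have hS' := p_STAB X'
  have hst := cm_sg_mem X (NP F) (NP_stable F hg)
  have hcontr : X.contr a ∈ NP F := by
    obtain ⟨b, hb⟩ := F.contraction a
    refine (mem_NP F _).2 ⟨X'.contr b, ?_, hb⟩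
    exact star_conj_mem X' (p_AD _) (p_NIL X') (MM X') hS'.2.1 hS'.2.2 _
      (LL_le_MM X' (mulLeft_mem_LL b))
  have hmul := starInv_conj_mem X (p_AD _) (p_NIL X) (NP F) hst.1 hst.2 _ hcontr
  have e : X.starInv * X.contr a * X.star = LinearMap.mulLeft ℂ a := by
    have e1 := starInv_mul_star X (p_NIL X)
    unfold HKCohomology.contr
    calc _ = (X.starInv * X.star) * LinearMap.mulLeft ℂ a * (X.starInv * X.star) := by
          noncomm_ring
      _ = _ := by rw [e1, one_mul, mul_one]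
  rw [e] at hmul
  exact (mem_NP F _).1 hmul

end

end Pool.Agent.HKO
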