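import Pool.Agent.HKO.Targets2

/-! S_SL2: an operator of degree `-2` which commutes with the cup product with a non-isotropic
class is zero. -/

open scoped TensorProduct

namespace Pool.Agent.HKO

noncomputable section

namespace Sl2a

variable {n : ℕ} {V A : Type*} [AddCommGroup V] [Module ℚ V] [Ring A] [Algebra ℚ A]

theorem cup_eq (X : HKCohomology n V A) (s : ℂ ⊗[ℚ] V) :
    opC X.cup s = actCC X beC (embC s) := by
  induction s using TensorProduct.induction_on with
  | zero => simp
  | add x y hx hy => rw [map_add, map_add, map_add, hx, hy]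
  | tmul a x =>
    have h1 : X.act be (emb x) = X.cup x := by
      ext b
      exact X.act_cup x b
    rw [beC, embC, LinearMap.baseChange_tmul, actCC_tmul, one_mul, actC, h1]
    simp [opC]

theorem lam_eq (X : HKCohomology n V A) (s : ℂ ⊗[ℚ] V) :
    opC X.lam s = actCC X alC (embC s) := by
  induction s using TensorProduct.induction_on with
  | zero => simp
  | add x y hx hy => rw [map_add, map_add, map_add, hx, hy]
  | tmul a x =>
    have h1 : X.act al (emb x) = X.lam x := rfl
    rw [alC, embC, LinearMap.baseChange_tmul, actCC_tmul, one_mul, actC, h1]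
    simp [opC]

theorem deg_eq (X : HKCohomology n V A) : actC X al be = actCC X alC beC :=
  (actCC_one X al be).symm

variable (X : HKCohomology n V A)

theorem lie_EF (s : ℂ ⊗[ℚ] V) :
    cm (opC X.cup s) (opC X.lam s) = qC X.q s s • actC X al be := by
  rw [cm, cup_eq, lam_eq, actCC_lie, deg_eq]
  simp only [wedgeC_apply, mformC_embC, mformC_symm X.q X.q_symm (embC s) alC,
    mformC_symm X.q X.q_symm beC alC, mformC_al_embC, mformC_be_embC, mformC_al_be, zero_smul,
    map_sub, map_smul, LinearMap.sub_apply, LinearMap.smul_apply, actCC_self, sub_zero, zero_sub,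
    neg_smul, one_smul, neg_neg, map_neg, LinearMap.neg_apply, smul_zero, zero_add, neg_zero]

theorem lie_HE (s : ℂ ⊗[ℚ] V) :
    cm (actC X al be) (opC X.cup s) = opC X.cup s := by
  rw [cm, cup_eq, deg_eq, actCC_lie]
  simp only [wedgeC_apply, mformC_be_be, mformC_al_embC, mformC_be_embC, mformC_al_be, zero_smul,
    map_sub, map_smul, LinearMap.sub_apply, LinearMap.smul_apply, sub_zero, zero_sub,
    neg_smul, one_smul, neg_neg, map_neg, LinearMap.neg_apply, smul_zero, add_zero, neg_zero,
    map_zero]

theorem lie_HF (s : ℂ ⊗[ℚ] V) :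
    cm (actC X al be) (opC X.lam s) = - opC X.lam s := by
  rw [cm, lam_eq, deg_eq, actCC_lie]
  simp only [wedgeC_apply, mformC_al_al, mformC_symm X.q X.q_symm beC alC,
    mformC_al_embC, mformC_be_embC, mformC_al_be, zero_smul,
    map_sub, map_smul, LinearMap.sub_apply, LinearMap.smul_apply, sub_zero, zero_sub,
    neg_smul, one_smul, neg_neg, map_neg, LinearMap.neg_apply, smul_zero, add_zero, neg_zero,
    map_zero]

/-- iterated commutators -/
def gs (F G : Module.End ℂ (ℂ ⊗[ℚ] A)) : ℕ → Module.End ℂ (ℂ ⊗[ℚ] A)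
  | 0 => G
  | k + 1 => cm F (gs F G k)

theorem cm_cm {R : Type*} [Ring R] (a b d : R) : cm a (cm b d) = cm (cm a b) d + cm b (cm a d) := by
  simp only [cm]; noncomm_ring

theorem cm_smul (c : ℂ) (a b : Module.End ℂ (ℂ ⊗[ℚ] A)) :
    cm a (c • b) = c • cm a b := by
  simp only [cm, mul_smul_comm, smul_mul_assoc, smul_sub]

theorem smul_cm (c : ℂ) (a b : Module.End ℂ (ℂ ⊗[ℚ] A)) :
    cm (c • a) b = c • cm a b := by
  simp only [cm, mul_smul_comm, smul_mul_assoc, smul_sub]

end Sl2a

open Sl2a

theorem p_SL2 {n : ℕ} {V A : Type*} [AddCommGroup V] [Module ℚ V] [Ring A] [Algebra ℚ A]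
    (X : HKCohomology n V A) : S_SL2 X := by
  intro s G hs hG1 hG2
  by_contra hG
  set E := opC X.cup s with hE
  set F := opC X.lam s with hF
  set H := actC X al be with hH
  have hEF : cm E F = qC X.q s s • H := lie_EF X s
  have hHF : cm H F = - F := lie_HF X s
  have h1 : ∀ k, cm H (gs F G k) = (-(k + 1 : ℂ)) • gs F G k := by
    intro k
    induction k with
    | zero =>
      have : gs F G 0 = G := rfl
      rw [this, hG1]
      push_cast
      module
    | succ k ih =>
      have e1 : gs F G (k + 1) = cm F (gs F G k) := rfl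
      rw [e1, cm_cm, hHF, ih, cm_smul]
      have : cm (-F) (gs F G k) = - cm F (gs F G k) := by
        rw [← neg_one_smul ℂ F, smul_cm]; module
      rw [this]
      push_cast
      module
  have h2 : ∀ k : ℕ, cm E (gs F G (k + 1)) =
      (-(qC X.q s s) * ((k + 1) * (k + 2) / 2)) • gs F G k := by
    intro k
    induction k with
    | zero =>
      have e1 : gs F G (0 + 1) = cm F (gs F G 0) := rfl
      rw [e1, cm_cm, hEF, smul_cm, h1]
      have : gs F G 0 = G := rfl
      rw [this, hG2]
      have h0 : cm F (0 : Module.End ℂ (ℂ ⊗[ℚ] A)) = 0 := by simp [cm]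
      rw [h0]
      push_cast
      module
    | succ k ih =>
      have e1 : gs F G (k + 1 + 1) = cm F (gs F G (k + 1)) := rfl
      rw [e1, cm_cm, hEF, smul_cm, h1, ih, cm_smul]
      have : cm F (gs F G k) = gs F G (k + 1) := rfl
      rw [this]
      push_cast
      module
  have h3 : ∀ k, gs F G k ≠ 0 := by
    intro k
    induction k with
    | zero => exact hG
    | succ k ih =>
      intro h0
      have := h2 k
      rw [h0] at this
      have hz : cm E (0 : Module.End ℂ (ℂ ⊗[ℚ] A)) = 0 := by simp [cm]
      rw [hz] at this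
      rcases smul_eq_zero.mp this.symm with h | h
      · have h4 : ((k : ℂ) + 1) * (k + 2) / 2 ≠ 0 := by
          have a1 : (k : ℂ) + 1 ≠ 0 := by exact_mod_cast Nat.succ_ne_zero k
          have a2 : (k : ℂ) + 2 ≠ 0 := by exact_mod_cast (by omega : k + 2 ≠ 0)
          exact div_ne_zero (mul_ne_zero a1 a2) two_ne_zero
        exact (mul_ne_zero (neg_ne_zero.mpr hs) h4) h
      · exact ih h
  have := X.finite
  let T : Module.End ℂ (Module.End ℂ (ℂ ⊗[ℚ] A)) :=
    LinearMap.mulLeft ℂ H - LinearMap.mulRight ℂ H
  have hT : ∀ k : ℕ, T.HasEigenvalue (-(k + 1 : ℂ)) := by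
    intro k
    refine Module.End.hasEigenvalue_of_hasEigenvector (x := gs F G k) ⟨?_, h3 k⟩
    rw [Module.End.mem_eigenspace_iff]
    exact h1 k
  have hfin := Module.End.finite_hasEigenvalue T
  refine hfin.not_infinite (Set.infinite_of_injective_forall_mem
    (f := fun k : ℕ => (-(k + 1 : ℂ))) (fun a b hab => ?_) hT)
  have : (a : ℂ) = b := by
    have := neg_injective hab
    exact add_right_cancel this
  exact_mod_cast this

end

end Pool.Agent.HKO
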