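import Pool.Agent.HKO.Targets2
import Pool.Agent.HKO.Nil

/-! The cup product with an isotropic class is not part of an `sl₂`-triple with the degree
operator. -/

open scoped TensorProduct

namespace Pool.Agent.HKO

noncomputable section

variable {n : ℕ} {V A : Type*} [AddCommGroup V] [Module ℚ V] [Ring A] [Algebra ℚ A]

namespace VB

lemma n_pos (X : HKCohomology n V A) : 1 ≤ n := by
  obtain ⟨x, -, hx⟩ := X.ample
  by_contra h
  have h1 : X.cls x ∈ X.gr 2 := cls_mem X x
  rw [X.gr_top 2 (by omega), Submodule.mem_bot] at h1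
  have h2 : x = 0 := X.cls_inj (by rw [h1, map_zero])
  rw [h2] at hx
  simp at hx

lemma finV (X : HKCohomology n V A) : Module.Finite ℚ V := by
  have := X.finite
  exact Module.Finite.of_injective X.cls X.cls_inj

lemma q_nd (X : HKCohomology n V A) : (X.q : LinearMap.BilinForm ℚ V).Nondegenerate := by
  refine ⟨X.q_nondeg, ?_⟩
  intro y hy
  apply X.q_nondeg
  intro x
  rw [X.q_symm]
  exact hy x

/-- nondegeneracy over the complex numbers -/
lemma qC_nd (X : HKCohomology n V A) (s : ℂ ⊗[ℚ] V) (hs : ∀ t, qC X.q s t = 0) : s = 0 := by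
  have := finV X
  classical
  let b := Module.finBasis ℚ V
  let bC := b.baseChange ℂ
  have hsym : LinearMap.BilinForm.IsSymm X.q := ⟨fun x y => X.q_symm x y⟩
  have h2 : ∀ j, bC.repr s j = 0 := by
    intro j
    have h3 := hs (1 ⊗ₜ (LinearMap.BilinForm.dualBasis X.q (q_nd X) b j))
    rw [← bC.sum_repr s] at h3
    rw [map_sum, LinearMap.sum_apply, Finset.sum_eq_single j] at h3
    · rw [map_smul, LinearMap.smul_apply] at h3
      have h4 : bC j = 1 ⊗ₜ b j := Module.Basis.baseChange_apply ℂ b j
      rw [h4, qC_tmul', LinearMap.BilinForm.apply_dualBasis_right (q_nd X) hsym] at h3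
      simpa using h3
    · intro i _ hij
      rw [map_smul, LinearMap.smul_apply]
      have h4 : bC i = 1 ⊗ₜ b i := Module.Basis.baseChange_apply ℂ b i
      rw [h4, qC_tmul', LinearMap.BilinForm.apply_dualBasis_right (q_nd X) hsym,
        if_neg hij]
      simp
    · intro h
      exact absurd (Finset.mem_univ j) h
  rw [← bC.sum_repr s]
  exact Finset.sum_eq_zero fun j _ => by rw [h2 j, zero_smul]

/-- the degree operator has no eigenvalue `-n-1` -/
lemma no_eig (X : HKCohomology n V A) (w : ℂ ⊗[ℚ] A)
    (hw : actC X al be w = (-(n : ℂ) - 1) • w) : w = 0 := by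
  have hinj : Function.Injective (X.act al be + ((n : ℚ) + 1) • (1 : Module.End ℚ A)) := by
    rw [← LinearMap.ker_eq_bot, LinearMap.ker_eq_bot']
    intro a ha
    let := X.graded
    classical
    have h1 : X.act al be a = (-((n : ℚ) + 1)) • a := by
      rw [neg_smul]
      exact eq_neg_of_add_eq_zero_left ha
    have h2 : ∀ j, (DirectSum.decompose X.gr a j : A) = 0 := by
      intro j
      have h3 := decomp_act X a j
      rw [h1, DirectSum.decompose_smul, DirectSum.smul_apply, Submodule.coe_smul] at h3
      have h4 : ((j : ℚ) / 2 + 1) • (DirectSum.decompose X.gr a j : A) = 0 := by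
        have : ((j : ℚ) / 2 + 1) = ((j : ℚ) / 2 - n) - (-((n : ℚ) + 1)) := by ring
        rw [this, sub_smul, ← h3, sub_self]
      refine (smul_eq_zero.mp h4).resolve_left ?_
      positivity
    rw [← DirectSum.sum_support_decompose X.gr a]
    exact Finset.sum_eq_zero fun j _ => h2 j
  have h5 : Function.Injective
      ((X.act al be + ((n : ℚ) + 1) • (1 : Module.End ℚ A)).baseChange ℂ) := by
    rw [LinearMap.baseChange_eq_ltensor]
    exact Module.Flat.lTensor_preserves_injective_linearMap _ hinj
  apply h5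
  rw [map_zero, LinearMap.baseChange_add, LinearMap.baseChange_smul, LinearMap.add_apply,
    LinearMap.smul_apply]
  have h6 : (1 : Module.End ℚ A).baseChange ℂ w = w := by
    rw [Module.End.one_eq_id, LinearMap.baseChange_id, LinearMap.id_apply]
  have h7 : (X.act al be).baseChange ℂ w = (-(n : ℂ) - 1) • w := hw
  rw [h6, h7]
  have h8 : ((n : ℚ) + 1) • w = ((n : ℂ) + 1) • w := by
    rw [← algebraMap_smul ℂ ((n : ℚ) + 1) w]
    simp
  rw [h8, ← add_smul]
  have : (-(n : ℂ) - 1) + ((n : ℂ) + 1) = 0 := by ring
  rw [this, zero_smul]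

lemma deg_one (X : HKCohomology n V A) : actC X al be 1 = (-(n : ℂ)) • (1 : ℂ ⊗[ℚ] A) := by
  let := X.graded
  have h1 : (1 : A) ∈ X.gr 0 := SetLike.GradedOne.one_mem
  have h2 := X.act_deg 0 1 h1
  have h3 : (1 : ℂ ⊗[ℚ] A) = 1 ⊗ₜ 1 := rfl
  rw [h3, actC, LinearMap.baseChange_tmul, h2, TensorProduct.tmul_smul]
  have h4 : (((0 : ℕ) : ℚ) / 2 - n) • ((1 : ℂ) ⊗ₜ[ℚ] (1 : A)) =
      (-(n : ℂ)) • ((1 : ℂ) ⊗ₜ[ℚ] (1 : A)) := by
    rw [← algebraMap_smul ℂ (((0 : ℕ) : ℚ) / 2 - n)]
    simp
  exact h4

lemma der_one (X : HKCohomology n V A) (s t : ℂ ⊗[ℚ] V) :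
    actCC X (embC s) (embC t) 1 = 0 := by
  have h0 : ∀ x y : V, X.act (emb x) (emb y) 1 = 0 := by
    intro x y
    have h := X.act_der x y 1 1
    simp only [mul_one, one_mul] at h
    exact left_eq_add.1 h
  induction s using TensorProduct.induction_on with
  | zero => simp
  | add a b ha hb => rw [map_add, map_add, LinearMap.add_apply, LinearMap.add_apply, ha, hb,
      add_zero]
  | tmul a x =>
    induction t using TensorProduct.induction_on with
    | zero => simp
    | add c d hc hd => rw [map_add, map_add, LinearMap.add_apply, hc, hd, add_zero]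
    | tmul b y =>
      have h3 : (1 : ℂ ⊗[ℚ] A) = 1 ⊗ₜ 1 := rfl
      rw [embC, LinearMap.baseChange_tmul, LinearMap.baseChange_tmul, actCC_tmul,
        LinearMap.smul_apply, actC, h3, LinearMap.baseChange_tmul, h0]
      simp

lemma cupC_eq (X : HKCohomology n V A) (s : ℂ ⊗[ℚ] V) :
    opC X.cup s = actCC X beC (embC s) := by
  induction s using TensorProduct.induction_on with
  | zero => simp
  | add a b ha hb => rw [map_add, map_add, map_add, ha, hb]
  | tmul a x =>
    rw [opC_tmul, embC, LinearMap.baseChange_tmul, beC, actCC_tmul, one_mul, cup_eq, actC]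

lemma lamC_eq (X : HKCohomology n V A) (s : ℂ ⊗[ℚ] V) :
    opC X.lam s = actCC X alC (embC s) := by
  induction s using TensorProduct.induction_on with
  | zero => simp
  | add a b ha hb => rw [map_add, map_add, map_add, ha, hb]
  | tmul a x =>
    rw [opC_tmul, embC, LinearMap.baseChange_tmul, alC, actCC_tmul, one_mul, lam_eq, actC]

lemma degC_eq (X : HKCohomology n V A) : actC X al be = actCC X alC beC := by
  rw [alC, beC, actCC_one]

lemma mformC_be_al (q : V →ₗ[ℚ] V →ₗ[ℚ] ℚ) : mformC q beC alC = -1 := by
  rw [alC, beC, mformC_tmul]; simp [al, be]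

lemma mformC_embC_al (q : V →ₗ[ℚ] V →ₗ[ℚ] ℚ) (s : ℂ ⊗[ℚ] V) : mformC q (embC s) alC = 0 := by
  induction s using TensorProduct.induction_on with
  | zero => simp
  | tmul a x =>
    rw [embC, LinearMap.baseChange_tmul, alC, mformC_tmul]
    simp [al]
  | add x y hx hy => rw [map_add, map_add, LinearMap.add_apply, hx, hy, add_zero]

lemma mformC_embC_be (q : V →ₗ[ℚ] V →ₗ[ℚ] ℚ) (s : ℂ ⊗[ℚ] V) : mformC q (embC s) beC = 0 := by
  induction s using TensorProduct.induction_on with
  | zero => simp
  | tmul a x =>
    rw [embC, LinearMap.baseChange_tmul, beC, mformC_tmul]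
    simp [be]
  | add x y hx hy => rw [map_add, map_add, LinearMap.add_apply, hx, hy, add_zero]

/-- `[h, e] = e` -/
lemma deg_cup (X : HKCohomology n V A) (s : ℂ ⊗[ℚ] V) :
    actC X al be * opC X.cup s = opC X.cup s * actC X al be + opC X.cup s := by
  rw [degC_eq, cupC_eq]
  have h := actCC_lie X alC beC beC (embC s)
  rw [wedgeC_apply, wedgeC_apply, mformC_be_be, mformC_al_be, mformC_be_embC,
    mformC_al_embC] at h
  simp only [zero_smul, zero_sub, sub_zero, map_zero, add_zero, neg_smul, one_smul,
    neg_neg] at h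
  rw [add_comm]
  exact sub_eq_iff_eq_add.1 h

/-- `[h, f] = -f` -/
lemma deg_lam (X : HKCohomology n V A) (s : ℂ ⊗[ℚ] V) :
    actC X al be * opC X.lam s = opC X.lam s * actC X al be - opC X.lam s := by
  rw [degC_eq, lamC_eq]
  have h := actCC_lie X alC beC alC (embC s)
  rw [wedgeC_apply, wedgeC_apply, mformC_be_al, mformC_al_al, mformC_be_embC,
    mformC_al_embC] at h
  simp only [zero_smul, sub_zero, map_zero, add_zero, neg_smul, one_smul,
    map_neg, LinearMap.neg_apply] at h
  rw [sub_eq_iff_eq_add] at h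
  rw [h]
  abel

/-- `[e, f]` -/
lemma cup_lam (X : HKCohomology n V A) (s t : ℂ ⊗[ℚ] V) :
    opC X.cup s * opC X.lam t - opC X.lam t * opC X.cup s =
      actCC X (embC s) (embC t) + qC X.q s t • actC X al be := by
  rw [degC_eq, cupC_eq, lamC_eq]
  have h := actCC_lie X beC (embC s) alC (embC t)
  rw [wedgeC_apply, wedgeC_apply, mformC_be_al, mformC_embC_al, mformC_embC,
    mformC_be_embC] at h
  simp only [zero_smul, sub_zero, zero_sub, map_smul, neg_smul, one_smul, neg_neg] at h
  exact h

/-- `[s ∧ t, e] = ...` -/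
lemma der_cup (X : HKCohomology n V A) (s t : ℂ ⊗[ℚ] V) (h0 : qC X.q s s = 0) :
    actCC X (embC s) (embC t) * opC X.cup s = opC X.cup s * actCC X (embC s) (embC t) +
      qC X.q t s • opC X.cup s := by
  rw [cupC_eq]
  have h := actCC_lie X (embC s) (embC t) beC (embC s)
  rw [wedgeC_apply, wedgeC_apply, mformC_embC_be, mformC_embC_be, mformC_embC,
    mformC_embC, h0] at h
  simp only [zero_smul, sub_zero, map_smul, map_zero, LinearMap.zero_apply, zero_add] at h
  rw [add_comm]
  exact sub_eq_iff_eq_add.1 h

end VB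

open VB

theorem p_VERB (X : HKCohomology n V A) : S_VERB X := by
  intro s G hs hG hcon
  have hn := n_pos X
  set e := opC X.cup s with he
  set h := actC X al be with hh
  set v : ℕ → ℂ ⊗[ℚ] A := fun k => (e ^ k) 1 with hv
  have hv0 : v 0 = 1 := by simp [hv]
  have hvs : ∀ k, v (k + 1) = e (v k) := by
    intro k
    simp only [hv]
    rw [pow_succ', Module.End.mul_apply]
  have hone : (1 : ℂ ⊗[ℚ] A) ≠ 0 := by
    intro h1
    have h2 : Function.Injective (TensorProduct.mk ℚ ℂ A 1) :=
      (Module.Flat.rTensor_preserves_injective_linearMap (M := A)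
        (Algebra.linearMap ℚ ℂ) (algebraMap ℚ ℂ).injective).comp
          (TensorProduct.lid ℚ A).symm.injective |> fun h3 => by
            intro a b hab
            apply h3
            simpa using hab
    have h3 : (1 : A) = 0 := h2 (by
      rw [map_zero]
      exact h1)
    exact X.one_ne h3
  have hdeg : ∀ k : ℕ, h (v k) = ((k : ℂ) - n) • v k := by
    intro k
    induction k with
    | zero => rw [hv0, hh, deg_one]; simp
    | succ k ih =>
      have h1 := congrArg (fun f : Module.End ℂ (ℂ ⊗[ℚ] A) => f (v k)) (deg_cup X s)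
      simp only [Module.End.mul_apply, LinearMap.add_apply] at h1
      rw [hvs, h1, ih, map_smul, ← hvs, Nat.cast_succ]
      rw [show ((k : ℂ) + 1 - n) = ((k : ℂ) - n) + 1 by ring, add_smul, one_smul]
  -- (2) all powers up to 2n are nonzero
  have hG1 : G 1 = 0 := by
    apply no_eig X
    have h1 := congrArg (fun f : Module.End ℂ (ℂ ⊗[ℚ] A) => f 1) hG
    simp only [cm, Module.End.mul_apply, LinearMap.sub_apply, LinearMap.neg_apply] at h1
    rw [sub_eq_iff_eq_add] at h1
    change h (G 1) = _
    have h2 : h 1 = (-(n : ℂ)) • (1 : ℂ ⊗[ℚ] A) := deg_one X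
    rw [h1, h2, map_smul, sub_smul, one_smul]
    abel
  have hGv : ∀ k : ℕ, G (v (k + 1)) = (-(((k : ℂ) + 1) * ((k : ℂ) / 2 - n))) • v k := by
    have hGe : ∀ w, G (e w) = e (G w) - h w := by
      intro w
      have h1 := congrArg (fun f : Module.End ℂ (ℂ ⊗[ℚ] A) => f w) hcon
      simp only [cm, Module.End.mul_apply, LinearMap.sub_apply] at h1
      rw [← h1]
      abel
    intro k
    induction k with
    | zero =>
      rw [hvs, hGe, hv0, hG1, map_zero, ← hv0, hdeg]
      simp
    | succ k ih =>
      rw [hvs, hGe, ih, map_smul, ← hvs, hdeg, ← sub_smul]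
      congr 1
      push_cast
      ring
  have hne : ∀ k : ℕ, k ≤ 2 * n → v k ≠ 0 := by
    intro k
    induction k with
    | zero => intro _; rw [hv0]; exact hone
    | succ k ih =>
      intro hk h0
      have h1 := hGv k
      rw [h0, map_zero] at h1
      have h2 := (smul_eq_zero.mp h1.symm).resolve_right (ih (by omega))
      rw [neg_eq_zero, mul_eq_zero] at h2
      rcases h2 with h2 | h2
      · have : ((k : ℂ) + 1) ≠ 0 := by exact_mod_cast Nat.succ_ne_zero k
        exact this h2
      · rw [sub_eq_zero, div_eq_iff (by norm_num)] at h2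
        have h3 : k = n * 2 := by exact_mod_cast h2
        omega
  -- (1) the power n+1 vanishes
  have hzero : v (n + 1) = 0 := by
    by_cases hs0 : s = 0
    · rw [hvs, he, hs0, map_zero, LinearMap.zero_apply]
    · obtain ⟨t₀, ht₀⟩ : ∃ t, qC X.q s t ≠ 0 := by
        by_contra hcontra
        push Not at hcontra
        exact hs0 (qC_nd X s hcontra)
      set t := (qC X.q s t₀)⁻¹ • t₀ with ht
      have hst : qC X.q s t = 1 := by
        rw [ht, map_smul, smul_eq_mul, inv_mul_cancel₀ ht₀]
      have hts : qC X.q t s = 1 := by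
        rw [← hst, ← mformC_embC, ← mformC_embC, mformC_symm X.q X.q_symm]
      set F := opC X.lam t with hF
      set D := actCC X (embC s) (embC t) with hD
      have hF1 : F 1 = 0 := by
        apply no_eig X
        have h1 := congrArg (fun f : Module.End ℂ (ℂ ⊗[ℚ] A) => f 1) (deg_lam X t)
        simp only [Module.End.mul_apply, LinearMap.sub_apply] at h1
        rw [h1, deg_one, map_smul, sub_smul, one_smul]
      have hDv : ∀ k : ℕ, D (v k) = (k : ℂ) • v k := by
        intro k
        induction k with
        | zero => rw [hv0, hD, der_one]; simp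
        | succ k ih =>
          have h1 := congrArg (fun f : Module.End ℂ (ℂ ⊗[ℚ] A) => f (v k)) (der_cup X s t hs)
          simp only [Module.End.mul_apply, LinearMap.add_apply, LinearMap.smul_apply] at h1
          rw [hts, one_smul] at h1
          rw [hvs]
          change D (e (v k)) = _
          rw [h1, ih, map_smul, Nat.cast_succ, add_smul, one_smul]
      have hFv : ∀ k : ℕ, F (v (k + 1)) = (-(((k : ℂ) + 1) * ((k : ℂ) - n))) • v k := by
        have hFe : ∀ w, F (e w) = e (F w) - (D w + h w) := by
          intro w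
          have h1 := congrArg (fun f : Module.End ℂ (ℂ ⊗[ℚ] A) => f w) (cup_lam X s t)
          simp only [Module.End.mul_apply, LinearMap.sub_apply, LinearMap.add_apply,
            LinearMap.smul_apply] at h1
          rw [hst, one_smul] at h1
          change e (F w) - F (e w) = D w + h w at h1
          rw [← h1]
          abel
        intro k
        induction k with
        | zero =>
          rw [hvs, hFe, hv0, hF1, map_zero, ← hv0, hDv, hdeg]
          simp
        | succ k ih =>
          rw [hvs, hFe, ih, map_smul, ← hvs, hdeg, hDv, ← add_smul, ← sub_smul]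
          congr 1
          push_cast
          ring
      have hnil : ∃ k, v k = 0 := by
        obtain ⟨k, hk⟩ := opC_nilpotent X.cup (cup_nil X) (cup_comm X) s
        exact ⟨k, by simp only [hv]; rw [he, hk, LinearMap.zero_apply]⟩
      classical
      obtain ⟨K, hK⟩ : ∃ K, K = Nat.find hnil := ⟨_, rfl⟩
      have hK1 : v K = 0 := hK ▸ Nat.find_spec hnil
      have hK2 : K ≠ 0 := by
        intro h0
        rw [h0, hv0] at hK1
        exact hone hK1
      obtain ⟨k, rfl⟩ := Nat.exists_eq_succ_of_ne_zero hK2
      have hK3 : v k ≠ 0 := Nat.find_min hnil (by rw [← hK]; exact Nat.lt_succ_self k)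
      have h1 := hFv k
      rw [Nat.succ_eq_add_one] at hK1
      rw [hK1, map_zero] at h1
      have h2 := (smul_eq_zero.mp h1.symm).resolve_right hK3
      rw [neg_eq_zero, mul_eq_zero] at h2
      rcases h2 with h2 | h2
      · have : ((k : ℂ) + 1) ≠ 0 := by exact_mod_cast Nat.succ_ne_zero k
        exact absurd h2 this
      · rw [sub_eq_zero] at h2
        have h3 : k = n := by exact_mod_cast h2
        rw [← h3]
        exact hK1
  exact hne (n + 1) (by omega) hzero

end

end Pool.Agent.HKO
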