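import Pool.Agent.HKO.Targets2
import Pool.Agent.HKO.Nil

/-! The symplectic star operator and the complexified Lie algebra. -/

open scoped TensorProduct

namespace Pool.Agent.HKO

noncomputable section

section One

variable {n : ℕ} {V A : Type*} [AddCommGroup V] [Module ℚ V] [Ring A] [Algebra ℚ A]

theorem opC_cup (X : HKCohomology n V A) (s : ℂ ⊗[ℚ] V) :
    opC X.cup s = actCC X beC (embC s) := by
  induction s using TensorProduct.induction_on with
  | zero => simp
  | tmul z x =>
    rw [opC_tmul, embC, LinearMap.baseChange_tmul, beC, actCC_tmul, one_mul, actC, ← cup_eq]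
  | add a b ha hb => rw [map_add, map_add, map_add, ha, hb]

theorem opC_lam (X : HKCohomology n V A) (s : ℂ ⊗[ℚ] V) :
    opC X.lam s = actCC X alC (embC s) := by
  induction s using TensorProduct.induction_on with
  | zero => simp
  | tmul z x =>
    rw [opC_tmul, embC, LinearMap.baseChange_tmul, alC, actCC_tmul, one_mul, actC, ← lam_eq]
  | add a b ha hb => rw [map_add, map_add, map_add, ha, hb]

end One

namespace ST

section Forms

variable {V : Type*} [AddCommGroup V] [Module ℚ V] (q : V →ₗ[ℚ] V →ₗ[ℚ] ℚ)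

theorem conjV_tmul (z : ℂ) (x : V) : conjV V (z ⊗ₜ x) = (starRingEnd ℂ z) ⊗ₜ x := rfl

theorem qC_conj (s t : ℂ ⊗[ℚ] V) :
    qC q (conjV V s) (conjV V t) = starRingEnd ℂ (qC q s t) := by
  induction s using TensorProduct.induction_on with
  | zero => simp
  | tmul a x =>
    induction t using TensorProduct.induction_on with
    | zero => simp
    | tmul b y =>
      rw [conjV_tmul, conjV_tmul, qC_tmul', qC_tmul', map_mul, map_mul]
      simp
    | add y z hy hz => rw [map_add, map_add, hy, hz, map_add, map_add]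
  | add x y hx hy =>
    rw [map_add, map_add, LinearMap.add_apply, hx, hy, map_add, LinearMap.add_apply, map_add]

variable {q}

theorem wedgeC_sq {u s : ℂ ⊗[ℚ] Mk V} (h1 : mformC q u u = 0) (h2 : mformC q u s = 0)
    (h2' : mformC q s u = 0) (h3 : mformC q s s = 0) : (wedgeC q u s) ^ 2 = 0 := by
  refine LinearMap.ext fun z => ?_
  rw [pow_two, Module.End.mul_apply, wedgeC_apply, wedgeC_apply, map_sub, map_sub, map_smul,
    map_smul, map_smul, map_smul, h1, h2, h2', h3]
  simp

theorem exp_sq {U : Type*} [AddCommGroup U] [Module ℂ U] [Module ℚ U] [IsScalarTower ℚ ℂ U]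
    {w : Module.End ℂ U} (h : w ^ 2 = 0) : IsNilpotent.exp w = 1 + w := by
  rw [IsNilpotent.exp_eq_sum h, Finset.sum_range_succ, Finset.sum_range_one]
  simp

theorem one_add_form (hq : ∀ x y, q x y = q y x) {u s : ℂ ⊗[ℚ] Mk V}
    (h : (wedgeC q u s) ^ 2 = 0) (z t : ℂ ⊗[ℚ] Mk V) :
    mformC q ((1 + wedgeC q u s) z) ((1 + wedgeC q u s) t) = mformC q z t := by
  have h2 : wedgeC q u s (wedgeC q u s t) = 0 := by
    have := LinearMap.congr_fun h t
    rwa [pow_two, Module.End.mul_apply, LinearMap.zero_apply] at this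
  rw [LinearMap.add_apply, LinearMap.add_apply, Module.End.one_apply, Module.End.one_apply]
  simp only [map_add, LinearMap.add_apply]
  rw [mformC_wedgeC q hq, mformC_wedgeC q hq, h2, map_zero]
  ring

end Forms

variable {n : ℕ} {V A : Type*} [AddCommGroup V] [Module ℚ V] [Ring A] [Algebra ℚ A]

theorem neg_smul' (c : ℂ) (f : Module.End ℂ (ℂ ⊗[ℚ] A)) : (-c) • f = -(c • f) :=
  LinearMap.ext fun x => by simp

theorem mul_neg' (f g : Module.End ℂ (ℂ ⊗[ℚ] A)) : f * (-g) = -(f * g) :=
  LinearMap.ext fun x => by simp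

theorem neg_mul' (f g : Module.End ℂ (ℂ ⊗[ℚ] A)) : (-f) * g = -(f * g) :=
  LinearMap.ext fun x => by simp

theorem neg_neg' (f : Module.End ℂ (ℂ ⊗[ℚ] A)) : - - f = f :=
  LinearMap.ext fun x => by simp

theorem smul_sub' (c : ℂ) (f g : Module.End ℂ (ℂ ⊗[ℚ] A)) : c • (f - g) = c • f - c • g :=
  LinearMap.ext fun x => by simp [smul_sub]

theorem star_mul_inv (X : HKCohomology n V A) (hN : T_NIL X) : X.star * X.starInv = 1 := by
  obtain ⟨-, -, h1, h2⟩ := hN
  have e1 := IsNilpotent.exp_mul_exp_neg_self h1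
  have e2 := IsNilpotent.exp_neg_mul_exp_self h2
  unfold HKCohomology.star HKCohomology.starInv
  calc _ = IsNilpotent.exp X.cupSg * (IsNilpotent.exp (-X.lamSg) *
        (IsNilpotent.exp X.cupSg * IsNilpotent.exp (-X.cupSg)) * IsNilpotent.exp X.lamSg) *
        IsNilpotent.exp (-X.cupSg) := by noncomm_ring
    _ = 1 := by rw [e1, mul_one, e2, mul_one, e1]

theorem inv_mul_star (X : HKCohomology n V A) (hN : T_NIL X) : X.starInv * X.star = 1 := by
  obtain ⟨-, -, h1, h2⟩ := hN
  have e1 := IsNilpotent.exp_neg_mul_exp_self h1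
  have e2 := IsNilpotent.exp_mul_exp_neg_self h2
  unfold HKCohomology.star HKCohomology.starInv
  calc _ = IsNilpotent.exp (-X.cupSg) * (IsNilpotent.exp X.lamSg *
        (IsNilpotent.exp (-X.cupSg) * IsNilpotent.exp X.cupSg) * IsNilpotent.exp (-X.lamSg)) *
        IsNilpotent.exp X.cupSg := by noncomm_ring
    _ = 1 := by rw [e1, mul_one, e2, mul_one, e1]

variable (X : HKCohomology n V A)

/-- the vector `- σ̄ / q(σ, σ̄)` -/
def tv : ℂ ⊗[ℚ] V := (-(qC X.q X.sg (conjV V X.sg))⁻¹) • conjV V X.sg

theorem cupSg_eq : X.cupSg = actCC X beC (embC X.sg) := opC_cup X X.sg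

theorem neg_lamSg_eq : - X.lamSg = actCC X alC (embC (tv X)) := by
  unfold HKCohomology.lamSg tv
  rw [opC_lam, map_smul, map_smul, neg_smul']

theorem form_ss : mformC X.q (embC X.sg) (embC X.sg) = 0 := by
  rw [mformC_embC, X.sg_iso]

theorem form_tt : mformC X.q (embC (tv X)) (embC (tv X)) = 0 := by
  rw [mformC_embC, tv, map_smul, map_smul, LinearMap.smul_apply, qC_conj, X.sg_iso]
  simp

theorem form_st : mformC X.q (embC X.sg) (embC (tv X)) = -1 := by
  rw [mformC_embC, tv, map_smul, smul_eq_mul, neg_mul, inv_mul_cancel₀ X.sg_pos]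

theorem form_ts : mformC X.q (embC (tv X)) (embC X.sg) = -1 := by
  rw [mformC_symm X.q X.q_symm, form_st]

theorem form_sal : mformC X.q (embC X.sg) alC = 0 := by
  rw [mformC_symm X.q X.q_symm, mformC_al_embC]

theorem form_sbe : mformC X.q (embC X.sg) beC = 0 := by
  rw [mformC_symm X.q X.q_symm, mformC_be_embC]

theorem form_tal : mformC X.q (embC (tv X)) alC = 0 := by
  rw [mformC_symm X.q X.q_symm, mformC_al_embC]

theorem form_tbe : mformC X.q (embC (tv X)) beC = 0 := by
  rw [mformC_symm X.q X.q_symm, mformC_be_embC]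

theorem form_beal : mformC X.q (V := V) beC alC = -1 := by
  rw [mformC_symm X.q X.q_symm, mformC_al_be]

theorem wE_sq : (wedgeC X.q beC (embC X.sg)) ^ 2 = 0 :=
  wedgeC_sq (mformC_be_be X.q) (mformC_be_embC X.q _) (form_sbe X) (form_ss X)

theorem wF_sq : (wedgeC X.q alC (embC (tv X))) ^ 2 = 0 :=
  wedgeC_sq (mformC_al_al X.q) (mformC_al_embC X.q _) (form_tal X) (form_tt X)

/-- the first factor -/
def eE : Module.End ℂ (ℂ ⊗[ℚ] Mk V) := 1 + wedgeC X.q beC (embC X.sg)

/-- the second factor -/
def eF : Module.End ℂ (ℂ ⊗[ℚ] Mk V) := 1 + wedgeC X.q alC (embC (tv X))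

/-- the action of the star operator on the complexified Mukai space -/
def st : Module.End ℂ (ℂ ⊗[ℚ] Mk V) := eE X * eF X * eE X

theorem eE_apply (z : ℂ ⊗[ℚ] Mk V) :
    eE X z = z + (mformC X.q (embC X.sg) z • beC - mformC X.q beC z • embC X.sg) := by
  rw [eE, LinearMap.add_apply, Module.End.one_apply, wedgeC_apply]

theorem eF_apply (z : ℂ ⊗[ℚ] Mk V) :
    eF X z = z + (mformC X.q (embC (tv X)) z • alC - mformC X.q alC z • embC (tv X)) := by
  rw [eF, LinearMap.add_apply, Module.End.one_apply, wedgeC_apply]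

theorem st_al : st X alC = embC X.sg := by
  have h1 : eE X alC = alC + embC X.sg := by
    rw [eE_apply, form_sal, form_beal]; simp
  have h2 : eF X (alC + embC X.sg) = embC X.sg := by
    rw [eF_apply, map_add, map_add, form_tal, form_ts, mformC_al_al, mformC_al_embC]
    simp
  have h3 : eE X (embC X.sg) = embC X.sg := by
    rw [eE_apply, form_ss, mformC_be_embC]; simp
  rw [st, Module.End.mul_apply, Module.End.mul_apply, h1, h2, h3]

theorem st_be : st X beC = embC (tv X) := by
  have h1 : eE X beC = beC := by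
    rw [eE_apply, form_sbe, mformC_be_be]; simp
  have h2 : eF X beC = beC + embC (tv X) := by
    rw [eF_apply, form_tbe, mformC_al_be]; simp
  have h3 : eE X (beC + embC (tv X)) = embC (tv X) := by
    rw [eE_apply, map_add, map_add, form_sbe, form_st, mformC_be_be, mformC_be_embC]
    simp
  rw [st, Module.End.mul_apply, Module.End.mul_apply, h1, h2, h3]

theorem st_sg : st X (embC X.sg) = - alC := by
  have h1 : eE X (embC X.sg) = embC X.sg := by
    rw [eE_apply, form_ss, mformC_be_embC]; simp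
  have h2 : eF X (embC X.sg) = embC X.sg - alC := by
    rw [eF_apply, form_ts, mformC_al_embC]; simp [sub_eq_add_neg]
  have h3 : eE X (embC X.sg - alC) = - alC := by
    rw [eE_apply, map_sub, map_sub, form_ss, form_sal, mformC_be_embC, form_beal]
    simp
    abel
  rw [st, Module.End.mul_apply, Module.End.mul_apply, h1, h2, h3]

theorem st_tv : st X (embC (tv X)) = - beC := by
  have h1 : eE X (embC (tv X)) = embC (tv X) - beC := by
    rw [eE_apply, form_st, mformC_be_embC]; simp [sub_eq_add_neg]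
  have h2 : eF X (embC (tv X) - beC) = - beC := by
    rw [eF_apply, map_sub, map_sub, form_tt, form_tbe, mformC_al_embC, mformC_al_be]
    simp
    abel
  have h3 : eE X (-beC) = - beC := by
    rw [eE_apply, map_neg, map_neg, form_sbe, mformC_be_be]; simp
  rw [st, Module.End.mul_apply, Module.End.mul_apply, h1, h2, h3]

theorem st_form (z t : ℂ ⊗[ℚ] Mk V) : mformC X.q (st X z) (st X t) = mformC X.q z t := by
  rw [st, Module.End.mul_apply, Module.End.mul_apply, Module.End.mul_apply,
    Module.End.mul_apply]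
  rw [eE, one_add_form X.q_symm (wE_sq X), eF, one_add_form X.q_symm (wF_sq X),
    one_add_form X.q_symm (wE_sq X)]

theorem star_conj (hN : T_NIL X) (z t : ℂ ⊗[ℚ] Mk V) :
    X.star * actCC X z t = actCC X (st X z) (st X t) * X.star := by
  have nE : IsNilpotent (actCC X beC (embC X.sg)) := by
    rw [← cupSg_eq]; exact hN.2.2.1
  have nF : IsNilpotent (actCC X alC (embC (tv X))) := by
    rw [← neg_lamSg_eq]; exact hN.2.2.2.neg
  have cE := fun z t => conjC X beC (embC X.sg) z t nE ⟨2, wE_sq X⟩
  have cF := fun z t => conjC X alC (embC (tv X)) z t nF ⟨2, wF_sq X⟩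
  have xE : IsNilpotent.exp (wedgeC X.q beC (embC X.sg)) = eE X := exp_sq (wE_sq X)
  have xF : IsNilpotent.exp (wedgeC X.q alC (embC (tv X))) = eF X := exp_sq (wF_sq X)
  rw [xE] at cE
  rw [xF] at cF
  have hs : X.star = IsNilpotent.exp (actCC X beC (embC X.sg)) *
      IsNilpotent.exp (actCC X alC (embC (tv X))) *
      IsNilpotent.exp (actCC X beC (embC X.sg)) := by
    unfold HKCohomology.star
    rw [← cupSg_eq, ← neg_lamSg_eq]
  rw [hs, mul_assoc, cE, ← mul_assoc, mul_assoc (IsNilpotent.exp (actCC X beC (embC X.sg))), cF,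
    ← mul_assoc, cE]
  simp only [st, Module.End.mul_apply, mul_assoc]

end ST

variable {n : ℕ} {V A : Type*} [AddCommGroup V] [Module ℚ V] [Ring A] [Algebra ℚ A]

theorem hodgeOp_eq (X : HKCohomology n V A) :
    X.hodgeOp =
      (qC X.q X.sg (conjV V X.sg))⁻¹ • actCC X (embC X.sg) (embC (conjV V X.sg)) := by
  have h := actCC_lie X beC (embC X.sg) alC (embC (conjV V X.sg))
  have e1 : wedgeC X.q beC (embC X.sg) alC = embC X.sg := by
    rw [wedgeC_apply, ST.form_sal, ST.form_beal]; simp
  have e2 : wedgeC X.q beC (embC X.sg) (embC (conjV V X.sg)) =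
      qC X.q X.sg (conjV V X.sg) • beC := by
    rw [wedgeC_apply, mformC_embC, mformC_be_embC]; simp
  rw [e1, e2, map_smul] at h
  unfold HKCohomology.hodgeOp HKCohomology.cupSg HKCohomology.lamSg
  rw [opC_cup, opC_lam, mul_smul_comm, smul_mul_assoc, ← ST.smul_sub', h, smul_add, smul_smul,
    inv_mul_cancel₀ X.sg_pos, one_smul, alC, beC, actCC_one, actC]
  exact LinearMap.ext fun x => by simp

/-- The properties of the star operator. -/
theorem p_STAR (X : HKCohomology n V A) : S_STAR X := by
  have hN := p_NIL X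
  have h1 := ST.star_mul_inv X hN
  have h2 := ST.inv_mul_star X hN
  have hH : X.hodgeOp = - actCC X (embC X.sg) (embC (ST.tv X)) := by
    rw [hodgeOp_eq, ST.tv, map_smul, map_smul, ST.neg_smul', ST.neg_neg']
  have hc : ∀ z t, X.star * actCC X z t * X.starInv = actCC X (ST.st X z) (ST.st X t) := by
    intro z t
    rw [ST.star_conj X hN, mul_assoc, h1, mul_one]
  have hab : actCC X alC beC = actC X al be := actCC_one X al be
  have h4 : X.star * actC X al be * X.starInv = - X.hodgeOp := by
    rw [← hab, hc, ST.st_al, ST.st_be, hH, ST.neg_neg']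
  have h5 : X.star * X.hodgeOp * X.starInv = - actC X al be := by
    rw [hH, ST.mul_neg', ST.neg_mul', hc, ST.st_sg, ST.st_tv]
    congr 1
    rw [← hab]
    simp
  have h6 : X.starInv * actC X al be * X.star = - X.hodgeOp := by
    have h7 : actC X al be = - (X.star * X.hodgeOp * X.starInv) := by rw [h5, ST.neg_neg']
    rw [h7, ST.mul_neg', ST.neg_mul']
    congr 1
    rw [mul_assoc X.star, ← mul_assoc X.starInv, h2, one_mul, mul_assoc, h2, mul_one]
  exact ⟨h1, h2, h6, h4, hodgeOp_eq X, ST.st X, hc, ST.st_form X⟩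

end

end Pool.Agent.HKO
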