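import Pool.Agent.HKO.Basic

/-! The graded transform is multiplicative. -/

open scoped TensorProduct

namespace Pool.Agent.HKO

noncomputable section

variable {n : ℕ} {V A V' A' : Type*} [AddCommGroup V] [Module ℚ V] [Ring A] [Algebra ℚ A]
  [AddCommGroup V'] [Module ℚ V'] [Ring A'] [Algebra ℚ A']

lemma one_tmul_inj {B : Type*} [Ring B] [Algebra ℚ B] {a b : B}
    (h : (1 : ℂ) ⊗ₜ[ℚ] a = (1 : ℂ) ⊗ₜ[ℚ] b) : a = b := by
  have : Function.Injective (Algebra.TensorProduct.includeRight : B →ₐ[ℚ] ℂ ⊗[ℚ] B) :=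
    Algebra.TensorProduct.includeRight_injective (algebraMap ℚ ℂ).injective
  exact this h

/-- If `T₀` is graded, intertwines cup products with `H²` and maps cup products into `MM X'`,
then it is multiplicative up to a scalar. -/
theorem mult_of (X : HKCohomology n V A) (X' : HKCohomology n V' A') (T : A ≃ₗ[ℚ] A')
    (κ : ℚ) (hκ : κ ≠ 0) (t : V → V') (ht : Function.Surjective t)
    (hE : ∀ x a, T (X.cup x a) = κ • X'.cup (t x) (T a)) (c₀ : ℚ) (hc : c₀ ≠ 0)
    (hone : T 1 = c₀ • (1 : A'))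
    (hM : ∀ a : A, ∃ m ∈ MM X', ∀ c : ℂ ⊗[ℚ] A,
      (T : A →ₗ[ℚ] A').baseChange ℂ (((1 : ℂ) ⊗ₜ[ℚ] a) * c) =
        m ((T : A →ₗ[ℚ] A').baseChange ℂ c))
    (hK : T_KEY X') (a a₂ : A) : T (a * a₂) = c₀⁻¹ • (T a * T a₂) := by
  obtain ⟨m, hm, hmc⟩ := hM a
  set TC := (T : A →ₗ[ℚ] A').baseChange ℂ with hTC
  have hEC : ∀ (x : V) (c : ℂ ⊗[ℚ] A), (X'.cup (t x)).baseChange ℂ (TC c) =
      κ⁻¹ • TC ((X.cup x).baseChange ℂ c) := by
    intro x c
    induction c using TensorProduct.induction_on with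
    | zero => simp
    | tmul z d =>
      simp only [hTC, LinearMap.baseChange_tmul, LinearEquiv.coe_coe, hE]
      rw [TensorProduct.tmul_smul, smul_smul, inv_mul_cancel₀ hκ, one_smul]
    | add c d hc hd => simp only [map_add, smul_add, hc, hd]
  have hsurj : Function.Surjective TC := by
    intro w
    refine ⟨(T.symm : A' →ₗ[ℚ] A).baseChange ℂ w, ?_⟩
    rw [hTC, ← LinearMap.comp_apply, ← LinearMap.baseChange_comp]
    have : (T : A →ₗ[ℚ] A') ∘ₗ (T.symm : A' →ₗ[ℚ] A) = LinearMap.id := by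
      ext x; simp
    rw [this, LinearMap.baseChange_id]
    rfl
  have hcomm : ∀ x : V', cm ((X'.cup x).baseChange ℂ) m = 0 := by
    intro x'
    obtain ⟨x, rfl⟩ := ht x'
    refine LinearMap.ext fun w => ?_
    obtain ⟨c, rfl⟩ := hsurj w
    rw [cm, LinearMap.zero_apply, LinearMap.sub_apply, Module.End.mul_apply, Module.End.mul_apply, ← hmc, hEC,
      hEC, LinearMap.map_smul_of_tower, ← hmc, ← smul_sub, ← map_sub]
    have : (X.cup x).baseChange ℂ (((1 : ℂ) ⊗ₜ[ℚ] a) * c) =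
        ((1 : ℂ) ⊗ₜ[ℚ] a) * (X.cup x).baseChange ℂ c := by
      induction c using TensorProduct.induction_on with
      | zero => simp
      | tmul z d =>
        simp only [LinearMap.baseChange_tmul, Algebra.TensorProduct.tmul_mul_tmul, cup_apply,
          one_mul]
        rw [← mul_assoc, central, mul_assoc]
      | add c d hc hd => simp only [mul_add, map_add, hc, hd]
    rw [this, sub_self, map_zero, smul_zero]
  obtain ⟨b, hb⟩ := hK m hm hcomm
  have hb' : ∀ w, m w = b * w := fun w => by rw [← hb]; rfl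
  have h1 := hmc 1
  rw [mul_one, hb', Algebra.TensorProduct.one_def, hTC, LinearMap.baseChange_tmul,
    LinearMap.baseChange_tmul] at h1
  simp only [LinearEquiv.coe_coe] at h1
  rw [hone, TensorProduct.tmul_smul, ← Algebra.TensorProduct.one_def, mul_smul_comm, mul_one] at h1
  have h2 : b = c₀⁻¹ • ((1 : ℂ) ⊗ₜ[ℚ] T a) := by
    rw [h1, smul_smul, inv_mul_cancel₀ hc, one_smul]
  have h3 := hmc ((1 : ℂ) ⊗ₜ[ℚ] a₂)
  rw [hb', h2, Algebra.TensorProduct.tmul_mul_tmul, one_mul, hTC, LinearMap.baseChange_tmul,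
    LinearMap.baseChange_tmul, smul_mul_assoc, Algebra.TensorProduct.tmul_mul_tmul, one_mul,
    ← TensorProduct.tmul_smul] at h3
  exact one_tmul_inj h3

end

end Pool.Agent.HKO
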