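import Pool.Agent.HKO.Targets2
import Pool.Agent.HKO.Mult

/-! First properties of the transform conjugated with the star operators. -/

open scoped TensorProduct

namespace Pool.Agent.HKO

noncomputable section

variable {n : ℕ} {V A V' A' : Type*} [AddCommGroup V] [Module ℚ V] [Ring A] [Algebra ℚ A]
  [AddCommGroup V'] [Module ℚ V'] [Ring A'] [Algebra ℚ A']

section Proj

variable (X : HKCohomology n V A)

/-- The projection onto the degree `j` part. -/
def th1Pj (j : ℕ) : A →ₗ[ℚ] A :=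
  letI := X.graded
  (X.gr j).subtype ∘ₗ DirectSum.component ℚ ℕ (fun i => X.gr i) j ∘ₗ
    (DirectSum.decomposeLinearEquiv X.gr).toLinearMap

lemma th1Pj_apply (j : ℕ) (a : A) :
    letI := X.graded
    th1Pj X j a = (DirectSum.decompose X.gr a j : A) := rfl

lemma th1Pj_mem (j : ℕ) (a : A) : th1Pj X j a ∈ X.gr j := by
  let := X.graded
  rw [th1Pj_apply]
  exact (DirectSum.decompose X.gr a j).2

lemma th1Pj_act (j : ℕ) (a : A) :
    th1Pj X j (X.act al be a) = ((j : ℚ) / 2 - n) • th1Pj X j a := decomp_act X a j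

lemma th1Pj_sum (a : A) : ∑ j ∈ Finset.range (4 * n + 1), th1Pj X j a = a := by
  classical
  let := X.graded
  conv_rhs => rw [← DirectSum.sum_support_decompose X.gr a]
  symm
  refine Finset.sum_subset_zero_on_sdiff ?_ ?_ ?_
  · intro j hj
    rw [Finset.mem_range]
    by_contra hlt
    have h0 : X.gr j = ⊥ := X.gr_top j (by omega)
    have h1 : (DirectSum.decompose X.gr a j : A) ∈ X.gr j := (DirectSum.decompose X.gr a j).2
    have h2 : (DirectSum.decompose X.gr a j : A) = 0 := by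
      have h3 : ∀ b : A, b ∈ X.gr j → b = 0 := by
        intro b hb
        rwa [h0, Submodule.mem_bot] at hb
      exact h3 _ h1
    rw [DFinsupp.mem_support_iff] at hj
    exact hj (Subtype.ext h2)
  · intro j hj
    rw [Finset.mem_sdiff, DFinsupp.notMem_support_iff] at hj
    rw [th1Pj_apply, hj.2]
    rfl
  · intro j _
    rfl

/-- The complexified projection. -/
def th1PjC (j : ℕ) : (ℂ ⊗[ℚ] A) →ₗ[ℂ] (ℂ ⊗[ℚ] A) := (th1Pj X j).baseChange ℂ

lemma th1PjC_act (j : ℕ) (w : ℂ ⊗[ℚ] A) :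
    th1PjC X j (actC X al be w) = ((j : ℂ) / 2 - n) • th1PjC X j w := by
  induction w using TensorProduct.induction_on with
  | zero => simp
  | tmul z a =>
    rw [th1PjC, actC, LinearMap.baseChange_tmul, LinearMap.baseChange_tmul,
      LinearMap.baseChange_tmul, th1Pj_act, TensorProduct.tmul_smul,
      ← algebraMap_smul ℂ ((j : ℚ) / 2 - n)]
    simp
  | add x y hx hy => rw [map_add, map_add, hx, hy, map_add, smul_add]

lemma th1PjC_sum (w : ℂ ⊗[ℚ] A) :
    ∑ j ∈ Finset.range (4 * n + 1), th1PjC X j w = w := by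
  induction w using TensorProduct.induction_on with
  | zero => simp
  | tmul z a =>
    simp only [th1PjC, LinearMap.baseChange_tmul]
    rw [← TensorProduct.tmul_sum, th1Pj_sum]
  | add x y hx hy => simp only [map_add, Finset.sum_add_distrib, hx, hy]

lemma th1_eig (i : ℕ) (w : ℂ ⊗[ℚ] A) (h : actC X al be w = ((i : ℂ) / 2 - n) • w) :
    th1PjC X i w = w := by
  have h1 : ∀ j, j ≠ i → th1PjC X j w = 0 := by
    intro j hj
    have h2 := th1PjC_act X j w
    rw [h, map_smul] at h2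
    have h3 : (((i : ℂ) - j) / 2) • th1PjC X j w = 0 := by
      have : (((i : ℂ) - j) / 2) = ((i : ℂ) / 2 - n) - ((j : ℂ) / 2 - n) := by ring
      rw [this, sub_smul, h2, sub_self]
    refine (smul_eq_zero.mp h3).resolve_left ?_
    have : (i : ℂ) - j ≠ 0 := sub_ne_zero.mpr (by exact_mod_cast (Ne.symm hj))
    exact div_ne_zero this two_ne_zero
  have h4 := th1PjC_sum X w
  by_cases hi : i ∈ Finset.range (4 * n + 1)
  · rw [Finset.sum_eq_single_of_mem i hi (fun j _ hj => h1 j hj)] at h4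
    exact h4
  · rw [Finset.sum_eq_zero (fun j hj => h1 j (fun h => hi (h ▸ hj)))] at h4
    rw [← h4, map_zero]

lemma th1_eig_zero (w : ℂ ⊗[ℚ] A) (h : actC X al be w = ((0 : ℂ) / 2 - n) • w) :
    ∃ k : ℂ, w = k • 1 := by
  have h1 : ∀ w : ℂ ⊗[ℚ] A, ∃ k : ℂ, th1PjC X 0 w = k • 1 := by
    intro w
    induction w using TensorProduct.induction_on with
    | zero => exact ⟨0, by simp⟩
    | tmul z a =>
      have h2 := th1Pj_mem X 0 a
      rw [X.gr_zero, Submodule.mem_span_singleton] at h2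
      obtain ⟨r, hr⟩ := h2
      refine ⟨z * r, ?_⟩
      rw [th1PjC, LinearMap.baseChange_tmul, ← hr, TensorProduct.tmul_smul,
        ← algebraMap_smul ℂ r, Algebra.TensorProduct.one_def, TensorProduct.smul_tmul',
        TensorProduct.smul_tmul']
      simp [mul_comm]
    | add x y hx hy =>
      obtain ⟨k, hk⟩ := hx
      obtain ⟨l, hl⟩ := hy
      exact ⟨k + l, by rw [map_add, hk, hl, add_smul]⟩
  obtain ⟨k, hk⟩ := h1 w
  refine ⟨k, ?_⟩
  rw [← hk]
  exact (th1_eig X 0 w (by simpa using h)).symm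

lemma th1_eig_two (w : ℂ ⊗[ℚ] A) (h : actC X al be w = ((1 : ℂ) - n) • w) :
    ∃ s : ℂ ⊗[ℚ] V, w = X.cls.baseChange ℂ s := by
  have h1 : ∀ w : ℂ ⊗[ℚ] A, ∃ s : ℂ ⊗[ℚ] V, th1PjC X 2 w = X.cls.baseChange ℂ s := by
    intro w
    induction w using TensorProduct.induction_on with
    | zero => exact ⟨0, by simp⟩
    | tmul z a =>
      have h2 := th1Pj_mem X 2 a
      rw [← X.cls_range, LinearMap.mem_range] at h2
      obtain ⟨x, hx⟩ := h2
      refine ⟨z ⊗ₜ x, ?_⟩
      rw [th1PjC, LinearMap.baseChange_tmul, LinearMap.baseChange_tmul, hx]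
    | add x y hx hy =>
      obtain ⟨k, hk⟩ := hx
      obtain ⟨l, hl⟩ := hy
      exact ⟨k + l, by rw [map_add, hk, hl, map_add]⟩
  obtain ⟨s, hs⟩ := h1 w
  refine ⟨s, ?_⟩
  rw [← hs]
  exact (th1_eig X 2 w (by simpa using h)).symm

lemma th1_act_one : actC X al be 1 = ((0 : ℂ) / 2 - n) • 1 := by
  have h1 : (1 : A) ∈ X.gr 0 := by
    rw [X.gr_zero]; exact Submodule.subset_span rfl
  have h2 := X.act_deg 0 1 h1
  rw [actC, Algebra.TensorProduct.one_def, LinearMap.baseChange_tmul, h2,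
    TensorProduct.tmul_smul, ← algebraMap_smul ℂ (((0 : ℕ) : ℚ) / 2 - n)]
  simp

lemma th1_act_cls (s : ℂ ⊗[ℚ] V) :
    actC X al be (X.cls.baseChange ℂ s) = ((1 : ℂ) - n) • X.cls.baseChange ℂ s := by
  induction s using TensorProduct.induction_on with
  | zero => simp
  | tmul z x =>
    have h1 : X.cls x ∈ X.gr 2 := X.cls_range ▸ LinearMap.mem_range_self _ x
    have h2 := X.act_deg 2 _ h1
    rw [actC, LinearMap.baseChange_tmul, LinearMap.baseChange_tmul, h2,
      TensorProduct.tmul_smul, ← algebraMap_smul ℂ (((2 : ℕ) : ℚ) / 2 - n)]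
    simp
  | add x y hx hy => rw [map_add, map_add, hx, hy, smul_add]

lemma th1_cls_left : ∃ g : (ℂ ⊗[ℚ] A) →ₗ[ℂ] (ℂ ⊗[ℚ] V),
    ∀ s, g (X.cls.baseChange ℂ s) = s := by
  obtain ⟨g, hg⟩ := X.cls.exists_leftInverse_of_injective (LinearMap.ker_eq_bot.mpr X.cls_inj)
  refine ⟨g.baseChange ℂ, fun s => ?_⟩
  rw [← LinearMap.comp_apply, ← LinearMap.baseChange_comp, hg, LinearMap.baseChange_id]
  rfl

lemma th1_opC_cup (s : ℂ ⊗[ℚ] V) (c : ℂ ⊗[ℚ] A) :
    opC X.cup s c = X.cls.baseChange ℂ s * c := by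
  induction s using TensorProduct.induction_on with
  | zero => simp
  | tmul z x =>
    induction c using TensorProduct.induction_on with
    | zero => simp
    | tmul y a =>
      rw [opC, LinearMap.liftBaseChange_tmul, LinearMap.smul_apply, LinearMap.comp_apply,
        LinearMap.baseChange_tmul, Algebra.TensorProduct.tmul_mul_tmul]
      change z • (X.cup x).baseChange ℂ (y ⊗ₜ a) = _
      rw [LinearMap.baseChange_tmul, cup_apply, TensorProduct.smul_tmul', smul_eq_mul]
    | add c d hc hd => rw [map_add, hc, hd, mul_add]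
  | add x y hx hy => rw [map_add, map_add, LinearMap.add_apply, hx, hy, add_mul]

include X in
lemma th1_one_ne : (1 : ℂ ⊗[ℚ] A) ≠ 0 := by
  intro h
  apply X.one_ne
  apply one_tmul_inj
  rw [← Algebra.TensorProduct.one_def, h, TensorProduct.tmul_zero]

end Proj

section Star

variable {X : HKCohomology n V A} {X' : HKCohomology n V' A'} (F : MukaiTransform X X')

lemma phI_phC (c : ℂ ⊗[ℚ] A) : phI F (phC F c) = c := by
  rw [phI, phC, ← LinearMap.comp_apply, ← LinearMap.baseChange_comp]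
  have : (F.Φ.symm : A' →ₗ[ℚ] A) ∘ₗ (F.Φ : A →ₗ[ℚ] A') = LinearMap.id := by
    ext x; simp
  rw [this, LinearMap.baseChange_id]
  rfl

lemma phC_phI (c : ℂ ⊗[ℚ] A') : phC F (phI F c) = c := by
  rw [phI, phC, ← LinearMap.comp_apply, ← LinearMap.baseChange_comp]
  have : (F.Φ : A →ₗ[ℚ] A') ∘ₗ (F.Φ.symm : A' →ₗ[ℚ] A) = LinearMap.id := by
    ext x; simp
  rw [this, LinearMap.baseChange_id]
  rfl

lemma th1_star_inv (h : S_STAR X) (c : ℂ ⊗[ℚ] A) : X.star (X.starInv c) = c := by
  have := LinearMap.congr_fun h.1 c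
  rwa [Module.End.mul_apply, Module.End.one_apply] at this

lemma th1_inv_star (h : S_STAR X) (c : ℂ ⊗[ℚ] A) : X.starInv (X.star c) = c := by
  have := LinearMap.congr_fun h.2.1 c
  rwa [Module.End.mul_apply, Module.End.one_apply] at this

lemma th1_star_act (h : S_STAR X) (c : ℂ ⊗[ℚ] A) :
    X.star (actC X al be c) = - X.hodgeOp (X.star c) := by
  have := LinearMap.congr_fun h.2.2.2.1 (X.star c)
  rwa [Module.End.mul_apply, Module.End.mul_apply, th1_inv_star h, LinearMap.neg_apply] at this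

lemma th1_act_inv (h : S_STAR X) (c : ℂ ⊗[ℚ] A) :
    X.starInv (- X.hodgeOp c) = actC X al be (X.starInv c) := by
  have := LinearMap.congr_fun h.2.2.2.1 c
  rw [Module.End.mul_apply, Module.End.mul_apply, LinearMap.neg_apply] at this
  rw [← this, th1_inv_star h]

lemma tht_apply (c : ℂ ⊗[ℚ] A) : tht F c = X'.starInv (phC F (X.star c)) := rfl

lemma thtI_apply (c : ℂ ⊗[ℚ] A') : thtI F c = X.starInv (phI F (X'.star c)) := rfl

lemma thtI_tht (h : S_STAR X) (h' : S_STAR X') (c : ℂ ⊗[ℚ] A) : thtI F (tht F c) = c := by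
  rw [tht_apply, thtI_apply, th1_star_inv h', phI_phC, th1_inv_star h]

lemma tht_thtI (h : S_STAR X) (h' : S_STAR X') (c : ℂ ⊗[ℚ] A') : tht F (thtI F c) = c := by
  rw [tht_apply, thtI_apply, th1_star_inv h, phC_phI, th1_inv_star h']

lemma tht_act (h : S_STAR X) (h' : S_STAR X') (c : ℂ ⊗[ℚ] A) :
    tht F (actC X al be c) = actC X' al be (tht F c) := by
  have h1 : phC F (X.hodgeOp (X.star c)) = X'.hodgeOp (phC F (X.star c)) :=
    F.hodge (X.star c)
  rw [tht_apply, tht_apply, th1_star_act h, map_neg, h1, th1_act_inv h']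

lemma thtI_act (h : S_STAR X) (h' : S_STAR X') (c : ℂ ⊗[ℚ] A') :
    thtI F (actC X' al be c) = actC X al be (thtI F c) := by
  conv_lhs => rw [← tht_thtI F h h' c]
  rw [← tht_act F h h', thtI_tht F h h']

lemma tht_mul (h : S_STAR X) (h' : S_STAR X') (a : ℂ ⊗[ℚ] A) :
    ∃ b : ℂ ⊗[ℚ] A', ∀ c : ℂ ⊗[ℚ] A, tht F (a * c) = b * tht F c := by
  obtain ⟨b, hb⟩ := F.contraction a
  refine ⟨b, fun c => ?_⟩
  have h1 := hb (X.star c)
  rw [HKCohomology.contr, HKCohomology.contr, Module.End.mul_apply, Module.End.mul_apply,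
    Module.End.mul_apply, Module.End.mul_apply, th1_inv_star h, LinearMap.mulLeft_apply,
    LinearMap.mulLeft_apply] at h1
  have h2 : phC F (X.star (a * c)) = X'.star (b * X'.starInv (phC F (X.star c))) := h1
  rw [tht_apply, tht_apply, h2, th1_inv_star h']

/-- First properties of `tht`. -/
theorem p_TH1 (h : S_STAR X) (h' : S_STAR X') : S_TH1 F := by
  have hI := thtI_tht F h h'
  have hI' := tht_thtI F h h'
  have hA := tht_act F h h'
  have hA' := thtI_act F h h'
  refine ⟨hI, hI', hA, ?_⟩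
  obtain ⟨k, hk⟩ : ∃ k : ℂ, tht F 1 = k • 1 := by
    apply th1_eig_zero X'
    rw [← hA, th1_act_one, map_smul]
  have hk0 : k ≠ 0 := by
    rintro rfl
    rw [zero_smul] at hk
    have h1 := hI 1
    rw [hk, map_zero] at h1
    exact th1_one_ne X h1.symm
  have hmul : ∀ a b, tht F (a * b) = k⁻¹ • (tht F a * tht F b) := by
    intro a c
    obtain ⟨b, hb⟩ := tht_mul F h h' a
    have h1 := hb 1
    rw [mul_one, hk, mul_smul_comm, mul_one] at h1
    rw [hb c, h1, smul_mul_assoc, smul_smul, inv_mul_cancel₀ hk0, one_smul]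
  refine ⟨k, hk0, hk, hmul, ?_⟩
  obtain ⟨g, hg⟩ := th1_cls_left X
  obtain ⟨g', hg'⟩ := th1_cls_left X'
  have hc : ∀ s, X'.cls.baseChange ℂ (g' (tht F (X.cls.baseChange ℂ s))) =
      tht F (X.cls.baseChange ℂ s) := by
    intro s
    obtain ⟨t, ht⟩ := th1_eig_two X' (tht F (X.cls.baseChange ℂ s))
      (by rw [← hA, th1_act_cls, map_smul])
    rw [ht, hg']
  have hc' : ∀ s, X.cls.baseChange ℂ (g (thtI F (X'.cls.baseChange ℂ s))) =
      thtI F (X'.cls.baseChange ℂ s) := by
    intro s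
    obtain ⟨t, ht⟩ := th1_eig_two X (thtI F (X'.cls.baseChange ℂ s))
      (by rw [← hA', th1_act_cls, map_smul])
    rw [ht, hg]
  let e : (ℂ ⊗[ℚ] V) ≃ₗ[ℂ] (ℂ ⊗[ℚ] V') :=
    LinearEquiv.ofLinearMap (k⁻¹ • (g' ∘ₗ tht F ∘ₗ X.cls.baseChange ℂ))
      (k • (g ∘ₗ thtI F ∘ₗ X'.cls.baseChange ℂ))
      (by
        refine LinearMap.ext fun s => ?_
        change k⁻¹ • g' (tht F (X.cls.baseChange ℂ (k • g (thtI F (X'.cls.baseChange ℂ s))))) = s
        rw [map_smul, hc', map_smul, hI', map_smul, hg', smul_smul, inv_mul_cancel₀ hk0,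
          one_smul])
      (by
        refine LinearMap.ext fun s => ?_
        change k • g (thtI F (X'.cls.baseChange ℂ (k⁻¹ • g' (tht F (X.cls.baseChange ℂ s))))) = s
        rw [map_smul, hc, map_smul, hI, map_smul, hg, smul_smul, mul_inv_cancel₀ hk0,
          one_smul])
  have he : ∀ s, tht F (X.cls.baseChange ℂ s) = k • X'.cls.baseChange ℂ (e s) := by
    intro s
    change _ = k • X'.cls.baseChange ℂ (k⁻¹ • g' (tht F (X.cls.baseChange ℂ s)))
    rw [map_smul, hc, smul_smul, mul_inv_cancel₀ hk0, one_smul]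
  refine ⟨e, he, fun s c => ?_⟩
  rw [th1_opC_cup, th1_opC_cup, hmul, he, smul_mul_assoc, smul_smul, inv_mul_cancel₀ hk0,
    one_smul]

end Star

end

end Pool.Agent.HKO
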