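import Pool.Agent.HKO.Targets2
import Pool.Agent.HKO.Nil
import Pool.Agent.HKO.Mult

/-! The Lie algebras correspond under the conjugated transform. -/

open scoped TensorProduct

namespace Pool.Agent.HKO.TH2

open Pool.Agent.HKO

noncomputable section

variable {n : ℕ} {V A V' A' : Type*} [AddCommGroup V] [Module ℚ V] [Ring A] [Algebra ℚ A]
  [AddCommGroup V'] [Module ℚ V'] [Ring A'] [Algebra ℚ A']

lemma opC_cup_eq (X : HKCohomology n V A) (s : ℂ ⊗[ℚ] V) :
    opC X.cup s = actCC X beC (embC s) := by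
  induction s using TensorProduct.induction_on with
  | zero => simp
  | tmul z x =>
    rw [opC_tmul, embC, LinearMap.baseChange_tmul, beC, actCC_tmul, one_mul, cup_eq]
    rfl
  | add a b ha hb => rw [map_add, map_add, map_add, ha, hb]

lemma opC_lam_eq (X : HKCohomology n V A) (s : ℂ ⊗[ℚ] V) :
    opC X.lam s = actCC X alC (embC s) := by
  induction s using TensorProduct.induction_on with
  | zero => simp
  | tmul z x =>
    rw [opC_tmul, embC, LinearMap.baseChange_tmul, alC, actCC_tmul, one_mul, lam_eq]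
    rfl
  | add a b ha hb => rw [map_add, map_add, map_add, ha, hb]

lemma actC_eq (X : HKCohomology n V A) : actC X al be = actCC X alC beC := by
  rw [alC, beC, actCC_one]

lemma cm_deg_lam (X : HKCohomology n V A) (s : ℂ ⊗[ℚ] V) :
    cm (actC X al be) (opC X.lam s) = - opC X.lam s := by
  rw [actC_eq, opC_lam_eq, cm, actCC_lie, wedgeC_apply, wedgeC_apply, mformC_al_al,
    mformC_al_embC, mformC_be_embC, mformC_symm X.q X.q_symm beC alC, mformC_al_be]
  simp

lemma cm_cup_lam (X : HKCohomology n V A) (s t : ℂ ⊗[ℚ] V) :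
    cm (opC X.cup s) (opC X.lam t) =
      actCC X (embC s) (embC t) + qC X.q s t • actC X al be := by
  rw [actC_eq, opC_lam_eq, opC_cup_eq, cm, actCC_lie, wedgeC_apply, wedgeC_apply,
    mformC_symm X.q X.q_symm (embC s) alC, mformC_al_embC, mformC_symm X.q X.q_symm beC alC,
    mformC_al_be, mformC_be_embC, mformC_embC]
  simp

lemma cm_cup_lam_self (X : HKCohomology n V A) (s : ℂ ⊗[ℚ] V) :
    cm (opC X.cup s) (opC X.lam s) = qC X.q s s • actC X al be := by
  rw [cm_cup_lam, actCC_self, zero_add]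

lemma qC_symm (X : HKCohomology n V A) (s t : ℂ ⊗[ℚ] V) : qC X.q s t = qC X.q t s := by
  rw [← mformC_embC, mformC_symm X.q X.q_symm, mformC_embC]

lemma qC_sq (X : HKCohomology n V A) (s t : ℂ ⊗[ℚ] V) (c : ℂ) :
    qC X.q (s + c • t) (s + c • t) =
      qC X.q s s + 2 * qC X.q s t * c + qC X.q t t * c ^ 2 := by
  have e1 : qC X.q (s + c • t) = qC X.q s + c • qC X.q t := by rw [map_add, map_smul]
  rw [e1, LinearMap.add_apply, LinearMap.smul_apply, map_add, map_add, map_smul, map_smul,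
    qC_symm X t s]
  simp only [smul_eq_mul]
  ring

lemma one_mem (X : HKCohomology n V A) : (1 : A) ∈ X.gr 0 := by
  rw [X.gr_zero]
  exact Submodule.mem_span_singleton_self _

lemma n_pos (X : HKCohomology n V A) : 1 ≤ n := by
  by_contra hc
  obtain ⟨x, _, hx⟩ := X.ample
  have h1 : X.gr 2 = ⊥ := X.gr_top 2 (by omega)
  have h2 : X.cls x ∈ X.gr 2 := cls_mem X x
  rw [h1, Submodule.mem_bot] at h2
  have h3 : x = 0 := X.cls_inj (by rw [h2, map_zero])
  rw [h3] at hx
  simp at hx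

lemma lam_one (X : HKCohomology n V A) (s : ℂ ⊗[ℚ] V) : opC X.lam s (1 : ℂ ⊗[ℚ] A) = 0 := by
  induction s using TensorProduct.induction_on with
  | zero => simp
  | tmul z x =>
    rw [opC_tmul, LinearMap.smul_apply, Algebra.TensorProduct.one_def, LinearMap.baseChange_tmul,
      (lam_lower X x 0 1 (one_mem X)).2 (by norm_num), TensorProduct.tmul_zero, smul_zero]
  | add a b ha hb => rw [map_add, LinearMap.add_apply, ha, hb, add_zero]

lemma der_one (X : HKCohomology n V A) (s t : ℂ ⊗[ℚ] V) :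
    actCC X (embC s) (embC t) (1 : ℂ ⊗[ℚ] A) = 0 := by
  induction s using TensorProduct.induction_on with
  | zero => simp
  | tmul z x =>
    induction t using TensorProduct.induction_on with
    | zero => simp
    | tmul w y =>
      have h1 : X.act (emb x) (emb y) 1 = 0 := by
        have := X.act_der x y 1 1
        rw [mul_one, mul_one, one_mul] at this
        exact left_eq_add.mp this
      rw [embC, LinearMap.baseChange_tmul, LinearMap.baseChange_tmul, actCC_tmul,
        LinearMap.smul_apply, actC, Algebra.TensorProduct.one_def, LinearMap.baseChange_tmul, h1,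
        TensorProduct.tmul_zero, smul_zero]
    | add a b ha hb => rw [map_add, map_add, LinearMap.add_apply, ha, hb, add_zero]
  | add a b ha hb =>
    rw [map_add, map_add, LinearMap.add_apply, LinearMap.add_apply, ha, hb, add_zero]

lemma deg_one (X : HKCohomology n V A) :
    actC X al be (1 : ℂ ⊗[ℚ] A) = (-(n : ℂ)) • (1 : ℂ ⊗[ℚ] A) := by
  rw [actC, Algebra.TensorProduct.one_def, LinearMap.baseChange_tmul, X.act_deg 0 1 (one_mem X)]
  have : (((0 : ℕ) : ℚ) / 2 - n) = -(n : ℚ) := by simp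
  rw [this, ← TensorProduct.smul_tmul, TensorProduct.smul_tmul']
  congr 1
  rw [Rat.smul_def]
  push_cast
  simp

/-- `lam t (cup s 1) = n q(s, t)` -/
lemma lam_cup_one (X : HKCohomology n V A) (s t : ℂ ⊗[ℚ] V) :
    opC X.lam t (opC X.cup s (1 : ℂ ⊗[ℚ] A)) = ((n : ℂ) * qC X.q s t) • (1 : ℂ ⊗[ℚ] A) := by
  have h := congrArg (fun f : Module.End ℂ (ℂ ⊗[ℚ] A) => f 1) (cm_cup_lam X s t)
  simp only [cm, LinearMap.sub_apply, Module.End.mul_apply, LinearMap.add_apply,
    LinearMap.smul_apply] at h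
  rw [lam_one, map_zero, zero_sub, der_one, zero_add, deg_one, smul_smul] at h
  rw [neg_eq_iff_eq_neg.mp h, ← neg_smul]
  congr 1
  ring

lemma one_ne (X : HKCohomology n V A) : (1 : ℂ ⊗[ℚ] A) ≠ 0 := by
  intro h
  apply X.one_ne
  apply one_tmul_inj
  rw [← Algebra.TensorProduct.one_def, h, TensorProduct.tmul_zero]

/-! ### The transform -/

section Transform

variable {X : HKCohomology n V A} {X' : HKCohomology n V' A'} (F : MukaiTransform X X')

/-- Conjugation of operators with `tht`. -/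
def Cj : Module.End ℂ (ℂ ⊗[ℚ] A) →ₗ[ℂ] Module.End ℂ (ℂ ⊗[ℚ] A') where
  toFun m := tht F ∘ₗ m ∘ₗ thtI F
  map_add' a b := by rw [LinearMap.add_comp, LinearMap.comp_add]
  map_smul' c a := by rw [LinearMap.smul_comp, LinearMap.comp_smul]; rfl

lemma Cj_apply (m : Module.End ℂ (ℂ ⊗[ℚ] A)) (c : ℂ ⊗[ℚ] A') :
    Cj F m c = tht F (m (thtI F c)) := rfl

lemma Cj_mul (hi : ∀ c, thtI F (tht F c) = c) (a b : Module.End ℂ (ℂ ⊗[ℚ] A)) :
    Cj F (a * b) = Cj F a * Cj F b := by
  apply LinearMap.ext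
  intro c
  rw [Module.End.mul_apply, Cj_apply, Cj_apply, Cj_apply, hi, Module.End.mul_apply]

lemma Cj_cm (hi : ∀ c, thtI F (tht F c) = c) (a b : Module.End ℂ (ℂ ⊗[ℚ] A)) :
    Cj F (cm a b) = cm (Cj F a) (Cj F b) := by
  rw [cm, cm, map_sub, Cj_mul F hi, Cj_mul F hi]

lemma Cj_eq (hj : ∀ c, tht F (thtI F c) = c) {a : Module.End ℂ (ℂ ⊗[ℚ] A)}
    {b : Module.End ℂ (ℂ ⊗[ℚ] A')} (h : ∀ c, tht F (a c) = b (tht F c)) : Cj F a = b := by
  apply LinearMap.ext
  intro c
  rw [Cj_apply, h, hj]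

lemma cm_smul' (c : ℂ) (a b : Module.End ℂ (ℂ ⊗[ℚ] A)) :
    cm a (c • b) = c • cm a b := by
  apply LinearMap.ext
  intro x
  rw [cm, cm, LinearMap.smul_apply, LinearMap.sub_apply, LinearMap.sub_apply,
    Module.End.mul_apply, Module.End.mul_apply, Module.End.mul_apply, Module.End.mul_apply,
    LinearMap.smul_apply, LinearMap.smul_apply, map_smul, smul_sub]

lemma cm_sub' (a b c : Module.End ℂ (ℂ ⊗[ℚ] A)) :
    cm a (b - c) = cm a b - cm a c := by
  rw [cm, cm, cm, mul_sub, sub_mul]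
  abel

lemma exists_avoid (p : Polynomial ℂ) (hp : p ≠ 0) : ∃ c : ℂ, c ≠ 0 ∧ p.eval c ≠ 0 := by
  by_contra hc
  push Not at hc
  have h1 : p * Polynomial.X = 0 := by
    apply Polynomial.funext
    intro c
    rw [Polynomial.eval_mul, Polynomial.eval_X, Polynomial.eval_zero]
    rcases eq_or_ne c 0 with h | h
    · rw [h, mul_zero]
    · rw [hc c h, zero_mul]
  rcases mul_eq_zero.mp h1 with h | h
  · exact hp h
  · exact Polynomial.X_ne_zero h

end Transform

end

end Pool.Agent.HKO.TH2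

namespace Pool.Agent.HKO

noncomputable section

variable {n : ℕ} {V A V' A' : Type*} [AddCommGroup V] [Module ℚ V] [Ring A] [Algebra ℚ A]
  [AddCommGroup V'] [Module ℚ V'] [Ring A'] [Algebra ℚ A']

open TH2 in
/-- S_THETA from S_TH1, S_SL2, S_VERB. -/
theorem p_THETA {X : HKCohomology n V A} {X' : HKCohomology n V' A'} (F : MukaiTransform X X')
    (h1 : S_TH1 F) (hs' : S_SL2 X') (hv' : S_VERB X') : S_THETA F := by
  obtain ⟨hi, hj, hd, k, hk, hone, hmul, ψ, hcls, hcup⟩ := h1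
  refine ⟨hi, hj, hd, ?_⟩
  have hn := n_pos X
  have hnc : (n : ℂ) ≠ 0 := by
    have : n ≠ 0 := by omega
    exact_mod_cast this
  set H' := actC X' al be with hH'
  set G : (ℂ ⊗[ℚ] V) →ₗ[ℂ] Module.End ℂ (ℂ ⊗[ℚ] A') := Cj F ∘ₗ opC X.lam with hG
  have cH : Cj F (actC X al be) = H' := Cj_eq F hj hd
  have cC : ∀ s, Cj F (opC X.cup s) = opC X'.cup (ψ s) := fun s => Cj_eq F hj (hcup s)
  have g1 : ∀ s, cm H' (G s) = - G s := by
    intro s
    rw [hG, LinearMap.comp_apply, ← cH, ← Cj_cm F hi, cm_deg_lam, map_neg]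
  have g2 : ∀ s, cm (opC X'.cup (ψ s)) (G s) = qC X.q s s • H' := by
    intro s
    rw [hG, LinearMap.comp_apply, ← cC, ← Cj_cm F hi, cm_cup_lam_self, map_smul, cH]
  -- non-isotropic vectors
  have n1 : ∀ s, qC X.q s s ≠ 0 → qC X'.q (ψ s) (ψ s) ≠ 0 := by
    intro s hs h0
    apply hv' (ψ s) ((qC X.q s s)⁻¹ • G s) h0
    · rw [cm_smul', g1 s, smul_neg]
    · rw [cm_smul', g2 s, smul_smul, inv_mul_cancel₀ hs, one_smul]
  have n2 : ∀ s, qC X.q s s ≠ 0 →
      G s = (qC X.q s s / qC X'.q (ψ s) (ψ s)) • opC X'.lam (ψ s) := by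
    intro s hs
    have hs2 := n1 s hs
    rw [← sub_eq_zero]
    apply hs' (ψ s) _ hs2
    · rw [cm_sub', cm_smul', g1 s, cm_deg_lam X' (ψ s), smul_neg]
      abel
    · rw [cm_sub', cm_smul', g2 s, cm_cup_lam_self X' (ψ s), smul_smul, div_mul_cancel₀ _ hs2,
        sub_self]
  -- values on `1`
  have v1 : ∀ s t, G t (opC X'.cup (ψ s) (1 : ℂ ⊗[ℚ] A')) =
      ((n : ℂ) * qC X.q s t) • (1 : ℂ ⊗[ℚ] A') := by
    intro s t
    have e1 := congrArg (tht F) (lam_cup_one X s t)
    rw [map_smul, hone] at e1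
    have e2 : tht F (opC X.lam t (opC X.cup s (1 : ℂ ⊗[ℚ] A))) =
        k • G t (opC X'.cup (ψ s) (1 : ℂ ⊗[ℚ] A')) := by
      have e3 : tht F (opC X.cup s (1 : ℂ ⊗[ℚ] A)) = k • opC X'.cup (ψ s) (1 : ℂ ⊗[ℚ] A') := by
        rw [hcup, hone, map_smul]
      rw [← map_smul, ← e3, hG, LinearMap.comp_apply, Cj_apply, hi]
    rw [e2, smul_comm] at e1
    exact smul_right_injective _ hk e1
  have v2 : ∀ s t, qC X.q t t ≠ 0 →
      (qC X.q t t / qC X'.q (ψ t) (ψ t)) * qC X'.q (ψ s) (ψ t) = qC X.q s t := by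
    intro s t ht
    have e1 := v1 s t
    rw [n2 t ht, LinearMap.smul_apply, lam_cup_one, smul_smul] at e1
    have e2 := smul_left_injective ℂ (one_ne X') e1
    have e3 : (n : ℂ) * ((qC X.q t t / qC X'.q (ψ t) (ψ t)) * qC X'.q (ψ s) (ψ t)) =
        n * qC X.q s t := by
      rw [← e2]; ring
    exact mul_left_cancel₀ hnc e3
  set ρ : (ℂ ⊗[ℚ] V) → ℂ := fun t => qC X.q t t / qC X'.q (ψ t) (ψ t) with hρ
  have v3 : ∀ s t, qC X.q s s ≠ 0 → qC X.q t t ≠ 0 → qC X.q s t ≠ 0 → ρ s = ρ t := by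
    intro s t hs ht hst
    have e1 : ρ t * qC X'.q (ψ s) (ψ t) = qC X.q s t := v2 s t ht
    have e2 : ρ s * qC X'.q (ψ t) (ψ s) = qC X.q t s := v2 t s hs
    rw [qC_symm X t s, qC_symm X' (ψ t) (ψ s), ← e1] at e2
    have e3 : qC X'.q (ψ s) (ψ t) ≠ 0 := by
      intro h
      rw [h, mul_zero] at e1
      exact hst e1.symm
    exact mul_right_cancel₀ e3 e2
  have v4 : ∀ s t, qC X.q s s ≠ 0 → qC X.q t t ≠ 0 → ρ s = ρ t := by
    intro s t hs ht
    -- a vector `u = s + c t`
    let p : Polynomial ℂ := (Polynomial.C (qC X.q s s) + Polynomial.C (qC X.q s t) * Polynomial.X) *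
      ((Polynomial.C (qC X.q s t) + Polynomial.C (qC X.q t t) * Polynomial.X) *
      (Polynomial.C (qC X.q s s) + Polynomial.C (2 * qC X.q s t) * Polynomial.X +
        Polynomial.C (qC X.q t t) * Polynomial.X ^ 2))
    have hp : p ≠ 0 := by
      apply mul_ne_zero
      · intro h
        have := congrArg (Polynomial.eval 0) h
        simp at this
        exact hs this
      · apply mul_ne_zero
        · intro h
          have := congrArg (fun f => Polynomial.coeff f 1) h
          simp at this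
          exact ht this
        · intro h
          have := congrArg (Polynomial.eval 0) h
          simp at this
          exact hs this
    obtain ⟨c, _, hc⟩ := exists_avoid p hp
    have hc1 : (qC X.q s s + qC X.q s t * c) * ((qC X.q s t + qC X.q t t * c) *
        (qC X.q s s + 2 * qC X.q s t * c + qC X.q t t * c ^ 2)) ≠ 0 := by
      simpa [p] using hc
    have hc2 := left_ne_zero_of_mul hc1
    have hc3 := left_ne_zero_of_mul (right_ne_zero_of_mul hc1)
    have hc4 := right_ne_zero_of_mul (right_ne_zero_of_mul hc1)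
    have u1 : qC X.q s (s + c • t) ≠ 0 := by
      rw [map_add, map_smul, smul_eq_mul, mul_comm]
      exact hc2
    have u2 : qC X.q t (s + c • t) ≠ 0 := by
      rw [map_add, map_smul, smul_eq_mul, qC_symm X t s, mul_comm]
      exact hc3
    have u3 : qC X.q (s + c • t) (s + c • t) ≠ 0 := by
      rw [qC_sq]
      exact hc4
    rw [v3 s _ hs u3 u1, v3 t _ ht u3 u2]
  -- a non-isotropic vector
  obtain ⟨x, _, hx⟩ := X.ample
  set s₀ : ℂ ⊗[ℚ] V := (1 : ℂ) ⊗ₜ[ℚ] x with hs₀
  have hq0 : qC X.q s₀ s₀ ≠ 0 := by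
    rw [hs₀, qC_tmul', mul_one, mul_one]
    exact_mod_cast hx.ne'
  have hρ0 : ρ s₀ ≠ 0 := div_ne_zero hq0 (n1 s₀ hq0)
  -- decomposition of an arbitrary vector
  have dec : ∀ t : ℂ ⊗[ℚ] V, ∃ c : ℂ, c ≠ 0 ∧ qC X.q (t + c • s₀) (t + c • s₀) ≠ 0 := by
    intro t
    let p : Polynomial ℂ := Polynomial.C (qC X.q t t) +
      Polynomial.C (2 * qC X.q t s₀) * Polynomial.X +
        Polynomial.C (qC X.q s₀ s₀) * Polynomial.X ^ 2
    have hp : p ≠ 0 := by
      intro h
      have := congrArg (fun f => Polynomial.coeff f 2) h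
      simp [p] at this
      exact hq0 this
    obtain ⟨c, hc0, hc⟩ := exists_avoid p hp
    refine ⟨c, hc0, ?_⟩
    have hc1 : qC X.q t t + 2 * qC X.q t s₀ * c + qC X.q s₀ s₀ * c ^ 2 ≠ 0 := by
      simpa [p] using hc
    rw [qC_sq]
    exact hc1
  have hGall : ∀ t, G t = ρ s₀ • opC X'.lam (ψ t) := by
    intro t
    obtain ⟨c, hc0, hc⟩ := dec t
    have e1 := n2 _ hc
    have e2 := n2 _ hq0
    have e3 : qC X.q (t + c • s₀) (t + c • s₀) / qC X'.q (ψ (t + c • s₀)) (ψ (t + c • s₀)) =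
        ρ s₀ := v4 _ _ hc hq0
    rw [e3, map_add, map_smul, map_add, map_smul, map_add, map_smul] at e1
    have e4 : G s₀ = ρ s₀ • opC X'.lam (ψ s₀) := e2
    rw [e4, smul_add, smul_comm c (ρ s₀)] at e1
    exact add_right_cancel e1
  have hqall : ∀ s t, ρ s₀ * qC X'.q (ψ s) (ψ t) = qC X.q s t := by
    intro s t
    obtain ⟨c, hc0, hc⟩ := dec t
    have e1 := v2 s _ hc
    have e2 := v2 s _ hq0
    have e3 : qC X.q (t + c • s₀) (t + c • s₀) / qC X'.q (ψ (t + c • s₀)) (ψ (t + c • s₀)) =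
        ρ s₀ := v4 _ _ hc hq0
    rw [e3, map_add, map_smul, map_add, map_smul, map_add, map_smul] at e1
    have e4 : ρ s₀ * qC X'.q (ψ s) (ψ s₀) = qC X.q s s₀ := e2
    simp only [smul_eq_mul] at e1
    rw [← e4] at e1
    linear_combination e1
  refine ⟨ψ, (ρ s₀)⁻¹, inv_ne_zero hρ0, hcup, ?_, ?_⟩
  · intro s c
    rw [inv_inv, ← LinearMap.smul_apply, ← hGall, hG, LinearMap.comp_apply, Cj_apply, hi]
  · intro s t
    rw [← hqall s t, inv_mul_cancel_left₀ hρ0]

end

end Pool.Agent.HKO
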