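import Pool.Agent.HKO.HT
import Pool.Agent.HKO.Nil

/-! Hodge types of the vectors whose action commutes with the Hodge operator. -/

open scoped TensorProduct

namespace Pool.Agent.HKO

noncomputable section

variable {n : ℕ} {V A : Type*} [AddCommGroup V] [Module ℚ V] [Ring A] [Algebra ℚ A]

lemma ty_hodge (X : HKCohomology n V A) : X.hodgeOp =
    (qC X.q X.sg (conjV V X.sg))⁻¹ • actCC X (embC X.sg) (embC (conjV V X.sg)) := by
  have h := ht_actCC X X.sg (conjV V X.sg)
  have e : actCC X (embC X.sg) (embC (conjV V X.sg)) =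
      opC X.cup X.sg * opC X.lam (conjV V X.sg) - opC X.lam (conjV V X.sg) * opC X.cup X.sg -
        qC X.q X.sg (conjV V X.sg) • actC X al be := by
    rw [h]; abel
  rw [e, HKCohomology.hodgeOp, HKCohomology.lamSg, HKCohomology.cupSg]
  simp only [mul_smul_comm, smul_mul_assoc, smul_sub, smul_smul]
  rw [inv_mul_cancel₀ X.sg_pos, one_smul]
  rfl

lemma ty_qC_symm (X : HKCohomology n V A) (s t : ℂ ⊗[ℚ] V) : qC X.q s t = qC X.q t s := by
  rw [← mformC_embC, ← mformC_embC, mformC_symm X.q X.q_symm]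

lemma ty_conj (X : HKCohomology n V A) (y : V) :
    qC X.q (conjV V X.sg) (1 ⊗ₜ y) = starRingEnd ℂ (qC X.q X.sg (1 ⊗ₜ y)) := by
  rw [← ht_qC_conj]
  simp [conjV, conjQ]

lemma ty_NS (X : HKCohomology n V A) (y : V) : y ∈ X.NS ↔ qC X.q X.sg (1 ⊗ₜ y) = 0 := by
  simp [HKCohomology.NS]

lemma ty_cm (X : HKCohomology n V A) (z t : ℂ ⊗[ℚ] Mk V) :
    cm X.hodgeOp (actCC X z t) = (qC X.q X.sg (conjV V X.sg))⁻¹ •
      (actCC X (wedgeC X.q (embC X.sg) (embC (conjV V X.sg)) z) t +
        actCC X z (wedgeC X.q (embC X.sg) (embC (conjV V X.sg)) t)) := by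
  rw [← actCC_lie, cm, ty_hodge, smul_mul_assoc, mul_smul_comm, smul_sub]

lemma ty_D_al (X : HKCohomology n V A) (s t : ℂ ⊗[ℚ] V) :
    wedgeC X.q (embC s) (embC t) alC = 0 := by
  rw [wedgeC_apply, mformC_symm X.q X.q_symm, mformC_symm X.q X.q_symm (embC s),
    mformC_al_embC, mformC_al_embC, zero_smul, zero_smul, sub_zero]

lemma ty_D_be (X : HKCohomology n V A) (s t : ℂ ⊗[ℚ] V) :
    wedgeC X.q (embC s) (embC t) beC = 0 := by
  rw [wedgeC_apply, mformC_symm X.q X.q_symm, mformC_symm X.q X.q_symm (embC s),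
    mformC_be_embC, mformC_be_embC, zero_smul, zero_smul, sub_zero]

theorem p_NSH (X : HKCohomology n V A) : S_NSH X := by
  intro y hy
  rw [ty_NS] at hy
  have hy' : qC X.q (conjV V X.sg) (1 ⊗ₜ y) = 0 := by rw [ty_conj, hy, map_zero]
  have hD : wedgeC X.q (embC X.sg) (embC (conjV V X.sg)) (1 ⊗ₜ emb y) = 0 := by
    have e : (1 : ℂ) ⊗ₜ[ℚ] (emb y : Mk V) = embC (1 ⊗ₜ y) := by
      rw [embC, LinearMap.baseChange_tmul]
    rw [e, wedgeC_apply, mformC_embC, mformC_embC, hy, hy', zero_smul, zero_smul, sub_zero]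
  constructor
  · have e : (X.lam y).baseChange ℂ = actCC X alC (1 ⊗ₜ emb y) := by
      rw [alC, actCC_one]; rfl
    rw [e, ty_cm, ty_D_al, hD, map_zero, map_zero, LinearMap.zero_apply, add_zero, smul_zero]
  · have e : (X.cup y).baseChange ℂ = actCC X beC (1 ⊗ₜ emb y) := by
      rw [beC, actCC_one, cup_eq]; rfl
    rw [e, ty_cm, ty_D_be, hD, map_zero, map_zero, LinearMap.zero_apply, add_zero, smul_zero]

lemma ty_lam_one (X : HKCohomology n V A) (y : V) : X.lam y 1 = 0 := by
  have h1 : (1 : A) ∈ X.gr 0 := by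
    rw [X.gr_zero]; exact Submodule.mem_span_singleton_self _
  exact (lam_lower X y 0 1 h1).2 (by norm_num)

lemma ty_der_one (X : HKCohomology n V A) (x y : V) : X.act (emb x) (emb y) 1 = 0 := by
  have h := X.act_der x y 1 1
  rw [mul_one, mul_one, one_mul] at h
  exact left_eq_add.mp h

lemma ty_deg_one (X : HKCohomology n V A) : X.act al be 1 = (-(n : ℚ)) • (1 : A) := by
  have h1 : (1 : A) ∈ X.gr 0 := by
    rw [X.gr_zero]; exact Submodule.mem_span_singleton_self _
  rw [X.act_deg 0 1 h1]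
  congr 1
  simp

/-- The class map over the complex numbers. -/
def clC (X : HKCohomology n V A) : (ℂ ⊗[ℚ] V) →ₗ[ℂ] (ℂ ⊗[ℚ] A) := X.cls.baseChange ℂ

lemma clC_inj (X : HKCohomology n V A) : Function.Injective (clC X) := by
  have h : Function.Injective (X.cls.lTensor ℂ) :=
    Module.Flat.lTensor_preserves_injective_linearMap X.cls X.cls_inj
  exact h

lemma ty_lamC_one (X : HKCohomology n V A) (s : ℂ ⊗[ℚ] V) :
    actCC X alC (embC s) (1 : ℂ ⊗[ℚ] A) = 0 := by
  induction s using TensorProduct.induction_on with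
  | zero => simp
  | add x y hx hy => rw [map_add, map_add, LinearMap.add_apply, hx, hy, add_zero]
  | tmul a x =>
    rw [embC, LinearMap.baseChange_tmul, alC, actCC_tmul, LinearMap.smul_apply,
      Algebra.TensorProduct.one_def, actC, LinearMap.baseChange_tmul]
    have : X.act al (emb x) 1 = 0 := ty_lam_one X x
    rw [this, TensorProduct.tmul_zero, smul_zero]

lemma ty_cupC_one (X : HKCohomology n V A) (s : ℂ ⊗[ℚ] V) :
    actCC X beC (embC s) (1 : ℂ ⊗[ℚ] A) = clC X s := by
  induction s using TensorProduct.induction_on with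
  | zero => simp
  | add x y hx hy => rw [map_add, map_add, LinearMap.add_apply, hx, hy, map_add]
  | tmul a x =>
    rw [embC, LinearMap.baseChange_tmul, beC, actCC_tmul, LinearMap.smul_apply,
      Algebra.TensorProduct.one_def, actC, LinearMap.baseChange_tmul, X.act_cup, mul_one,
      TensorProduct.smul_tmul', clC, LinearMap.baseChange_tmul]
    simp

lemma ty_derC_one (X : HKCohomology n V A) (s t : ℂ ⊗[ℚ] V) :
    actCC X (embC s) (embC t) (1 : ℂ ⊗[ℚ] A) = 0 := by
  induction s using TensorProduct.induction_on with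
  | zero => simp
  | add x y hx hy =>
    rw [map_add, map_add, LinearMap.add_apply, LinearMap.add_apply, hx, hy, add_zero]
  | tmul a x =>
    induction t using TensorProduct.induction_on with
    | zero => simp
    | add y z hy hz => rw [map_add, map_add, LinearMap.add_apply, hy, hz, add_zero]
    | tmul b y =>
      rw [embC, LinearMap.baseChange_tmul, LinearMap.baseChange_tmul, actCC_tmul,
        LinearMap.smul_apply, Algebra.TensorProduct.one_def, actC, LinearMap.baseChange_tmul,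
        ty_der_one, TensorProduct.tmul_zero, smul_zero]

lemma ty_degC_one (X : HKCohomology n V A) :
    actCC X alC beC (1 : ℂ ⊗[ℚ] A) = (-(n : ℂ)) • (1 : ℂ ⊗[ℚ] A) := by
  rw [alC, beC, actCC_one, Algebra.TensorProduct.one_def, actC, LinearMap.baseChange_tmul,
    ty_deg_one, TensorProduct.smul_tmul', ← TensorProduct.smul_tmul, Rat.smul_def]
  simp

lemma ty_clC (X : HKCohomology n V A) (z : ℂ ⊗[ℚ] V) (T : Module.End ℂ (ℂ ⊗[ℚ] A)) :
    T (clC X z) = (T * actCC X beC (embC z) - actCC X beC (embC z) * T) 1 +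
      actCC X beC (embC z) (T 1) := by
  rw [LinearMap.sub_apply, Module.End.mul_apply, Module.End.mul_apply, ty_cupC_one]
  abel

lemma ty_lamC_cl (X : HKCohomology n V A) (s z : ℂ ⊗[ℚ] V) :
    actCC X alC (embC s) (clC X z) = (n * qC X.q s z : ℂ) • (1 : ℂ ⊗[ℚ] A) := by
  rw [ty_clC, actCC_lie, ty_lamC_one, map_zero, add_zero, wedgeC_apply, wedgeC_apply,
    mformC_al_embC, mformC_al_be, mformC_embC, mformC_symm X.q X.q_symm (embC s) beC,
    mformC_be_embC]
  simp only [zero_smul, zero_sub, neg_smul, one_smul, neg_neg, sub_zero, map_smul,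
    LinearMap.add_apply, ty_derC_one, zero_add, LinearMap.smul_apply]
  rw [actCC_swap, LinearMap.neg_apply, ty_degC_one, neg_smul, neg_neg, smul_smul]
  congr 1
  ring

lemma ty_derC_cl (X : HKCohomology n V A) (s t z : ℂ ⊗[ℚ] V) :
    actCC X (embC s) (embC t) (clC X z) = clC X (qC X.q t z • s - qC X.q s z • t) := by
  rw [ty_clC, actCC_lie, ty_derC_one, map_zero, add_zero, ty_D_be, map_zero,
    LinearMap.zero_apply, zero_add, wedgeC_apply, mformC_embC, mformC_embC]
  rw [← map_smul embC, ← map_smul embC, ← map_sub embC, ty_cupC_one]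

lemma ty_decomp (U : ℂ ⊗[ℚ] Mk V) :
    ∃ (r : ℂ) (u : ℂ ⊗[ℚ] V) (s : ℂ), U = r • alC + embC u + s • beC := by
  induction U using TensorProduct.induction_on with
  | zero => exact ⟨0, 0, 0, by simp⟩
  | add x y hx hy =>
    obtain ⟨r, u, s, h⟩ := hx
    obtain ⟨r', u', s', h'⟩ := hy
    refine ⟨r + r', u + u', s + s', ?_⟩
    rw [h, h', map_add, add_smul, add_smul]
    abel
  | tmul a v =>
    refine ⟨a * v.1, a ⊗ₜ v.2.1, a * v.2.2, ?_⟩
    have e : v = v.1 • al + emb v.2.1 + v.2.2 • be := by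
      ext <;> simp [al, be, emb]
    have e2 : ∀ (r : ℚ) (z : Mk V), a ⊗ₜ[ℚ] (r • z) = (a * r : ℂ) ⊗ₜ[ℚ] z := by
      intro r z
      rw [← TensorProduct.smul_tmul, Rat.smul_def, mul_comm]
    conv_lhs => rw [e]
    rw [TensorProduct.tmul_add, TensorProduct.tmul_add, e2, e2, embC, LinearMap.baseChange_tmul,
      alC, beC, TensorProduct.smul_tmul', TensorProduct.smul_tmul']
    simp

lemma ty_one_ne (X : HKCohomology n V A) : (1 : ℂ ⊗[ℚ] A) ≠ 0 := by
  intro h1
  have h2 : Function.Injective (TensorProduct.mk ℚ ℂ A 1) :=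
    (Module.Flat.rTensor_preserves_injective_linearMap (M := A)
      (Algebra.linearMap ℚ ℂ) (algebraMap ℚ ℂ).injective).comp
        (TensorProduct.lid ℚ A).symm.injective |> fun h3 => by
          intro a b hab
          apply h3
          simpa using hab
  have h3 : (1 : A) = 0 := h2 (by
    rw [map_zero]
    exact h1)
  exact X.one_ne h3

lemma ty_n_ne (X : HKCohomology n V A) : n ≠ 0 := by
  rintro rfl
  have h : ∀ x : V, x = 0 := by
    intro x
    apply X.cls_inj
    have h1 := cls_mem X x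
    rw [X.gr_top 2 (by norm_num), Submodule.mem_bot] at h1
    rw [h1, map_zero]
  have h0 : ∀ s : ℂ ⊗[ℚ] V, s = 0 := by
    intro s
    induction s using TensorProduct.induction_on with
    | zero => rfl
    | add x y hx hy => rw [hx, hy, add_zero]
    | tmul a x => rw [h x, TensorProduct.tmul_zero]
  apply X.sg_pos
  rw [h0 X.sg, map_zero, LinearMap.zero_apply]

lemma ty_deg_cl (X : HKCohomology n V A) (z : ℂ ⊗[ℚ] V) :
    actCC X alC beC (clC X z) = ((1 : ℂ) - n) • clC X z := by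
  rw [ty_clC, actCC_lie, ty_degC_one, wedgeC_apply, wedgeC_apply, mformC_be_be,
    mformC_be_embC, mformC_al_embC, mformC_al_be]
  simp only [zero_smul, neg_smul, one_smul, zero_sub, sub_zero, map_zero, add_zero,
    ty_cupC_one, map_neg, map_smul, neg_neg, sub_smul]
  abel

lemma ty_indep (X : HKCohomology n V A) (a : ℂ) (z : ℂ ⊗[ℚ] V)
    (h : a • (1 : ℂ ⊗[ℚ] A) + clC X z = 0) : a = 0 ∧ z = 0 := by
  have h1 : actCC X alC beC (a • (1 : ℂ ⊗[ℚ] A) + clC X z) = 0 := by rw [h, map_zero]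
  rw [map_add, map_smul, ty_degC_one, ty_deg_cl] at h1
  have h2 : clC X z = 0 := by
    have h3 : clC X z = (a • (-(n : ℂ)) • (1 : ℂ ⊗[ℚ] A) + ((1 : ℂ) - n) • clC X z) +
        (n : ℂ) • (a • (1 : ℂ ⊗[ℚ] A) + clC X z) := by
      module
    rw [h3, h1, h, smul_zero, add_zero]
  rw [h2, add_zero] at h
  refine ⟨(smul_eq_zero.mp h).resolve_right (ty_one_ne X), ?_⟩
  apply clC_inj X
  rw [h2, map_zero]

theorem p_TYPE (X : HKCohomology n V A) : S_TYPE X := by
  intro v w hv hw hvw hcm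
  rw [ty_NS, ty_NS]
  set sb := conjV V X.sg with hsb
  set q := qC X.q X.sg sb with hq
  have hq0 : q ≠ 0 := X.sg_pos
  set a := qC X.q X.sg (1 ⊗ₜ v.2.1) with ha
  set b := qC X.q X.sg (1 ⊗ₜ w.2.1) with hb
  have ha' : qC X.q sb (1 ⊗ₜ v.2.1) = starRingEnd ℂ a := ty_conj X _
  have hb' : qC X.q sb (1 ⊗ₜ w.2.1) = starRingEnd ℂ b := ty_conj X _
  have hemb : ∀ (s : ℂ ⊗[ℚ] V) (u : Mk V), mformC X.q (embC s) (1 ⊗ₜ u) =
      qC X.q s (1 ⊗ₜ u.2.1) := by
    intro s u
    induction s using TensorProduct.induction_on with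
    | zero => simp
    | add x y hx hy => rw [map_add, map_add, map_add, LinearMap.add_apply, LinearMap.add_apply,
        hx, hy]
    | tmul c x =>
      rw [embC, LinearMap.baseChange_tmul, mformC_tmul, qC_tmul']
      simp
  have hemb' : ∀ (s : ℂ ⊗[ℚ] V) (u : Mk V), mformC X.q (1 ⊗ₜ u) (embC s) =
      qC X.q s (1 ⊗ₜ u.2.1) := by
    intro s u
    rw [mformC_symm X.q X.q_symm, hemb]
  set P : ℂ ⊗[ℚ] Mk V := (starRingEnd ℂ a) • (1 ⊗ₜ w) - (starRingEnd ℂ b) • (1 ⊗ₜ v) with hP
  set Q : ℂ ⊗[ℚ] Mk V := a • (1 ⊗ₜ w) - b • (1 ⊗ₜ v) with hQ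
  have hT : actCC X (embC X.sg) P - actCC X (embC sb) Q = 0 := by
    have h1 : actC X v w = actCC X (1 ⊗ₜ v) (1 ⊗ₜ w) := by rw [actCC_one]
    rw [h1, ty_cm] at hcm
    have h2 := (smul_eq_zero.mp hcm).resolve_left (inv_ne_zero hq0)
    rw [wedgeC_apply, wedgeC_apply, ← hsb, hemb, hemb, hemb, hemb, ha', hb', ← ha, ← hb] at h2
    have h3 : actCC X (1 ⊗ₜ v) ((starRingEnd ℂ b) • embC X.sg - b • embC sb) =
        - actCC X ((starRingEnd ℂ b) • embC X.sg - b • embC sb) (1 ⊗ₜ v) := actCC_swap X _ _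
    rw [h3] at h2
    rw [hP, hQ, ← h2]
    simp only [map_sub, map_smul, LinearMap.sub_apply, LinearMap.smul_apply]
    abel
  obtain ⟨p1, p, p3, hPd⟩ := ty_decomp P
  obtain ⟨q1, q', q3, hQd⟩ := ty_decomp Q
  have hsbsb : qC X.q sb sb = 0 := by rw [hsb, ht_qC_conj, X.sg_iso, map_zero]
  have hsbsg : qC X.q sb X.sg = q := by rw [ty_qC_symm]
  -- evaluation of the action at one
  have ev1 : ∀ (s u : ℂ ⊗[ℚ] V) (r t : ℂ),
      actCC X (embC s) (r • alC + embC u + t • beC) (1 : ℂ ⊗[ℚ] A) = (-t) • clC X s := by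
    intro s u r t
    rw [map_add, map_add, map_smul, map_smul, actCC_swap X (embC s) alC,
      actCC_swap X (embC s) beC]
    simp only [LinearMap.add_apply, LinearMap.smul_apply, LinearMap.neg_apply, ty_lamC_one,
      ty_derC_one, ty_cupC_one]
    module
  have hT1 := LinearMap.congr_fun hT (1 : ℂ ⊗[ℚ] A)
  rw [LinearMap.sub_apply, hPd, hQd, ev1, ev1, LinearMap.zero_apply, ← map_smul, ← map_smul,
    ← map_sub] at hT1
  have hz : (-p3) • X.sg - (-q3) • sb = 0 := clC_inj X (by rw [hT1, map_zero])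
  have hq3 : q3 = 0 := by
    have h1 := congrArg (fun z => qC X.q X.sg z) hz
    simp only [map_sub, map_smul, X.sg_iso, map_zero, ← hq, smul_eq_mul] at h1
    have h2 : q3 * q = 0 := by linear_combination h1
    exact (mul_eq_zero.mp h2).resolve_right hq0
  have hp3 : p3 = 0 := by
    have h1 := congrArg (fun z => qC X.q sb z) hz
    simp only [map_sub, map_smul, hsbsb, map_zero, hsbsg, smul_eq_mul] at h1
    have h2 : p3 * q = 0 := by linear_combination -h1
    exact (mul_eq_zero.mp h2).resolve_right hq0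
  rw [hq3, zero_smul, add_zero] at hQd
  rw [hp3, zero_smul, add_zero] at hPd
  have ev2 : ∀ (s u z : ℂ ⊗[ℚ] V) (r : ℂ),
      actCC X (embC s) (r • alC + embC u) (clC X z) =
        (-r * (n * qC X.q s z)) • (1 : ℂ ⊗[ℚ] A) +
          clC X (qC X.q u z • s - qC X.q s z • u) := by
    intro s u z r
    rw [map_add, map_smul, actCC_swap X (embC s) alC]
    simp only [LinearMap.add_apply, LinearMap.smul_apply, LinearMap.neg_apply, ty_lamC_cl,
      ty_derC_cl]
    module
  have hT2 := LinearMap.congr_fun hT (clC X X.sg)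
  rw [LinearMap.sub_apply, hPd, hQd, ev2, ev2, LinearMap.zero_apply, X.sg_iso, hsbsg] at hT2
  have hpsg : qC X.q p X.sg = mformC X.q P (embC X.sg) := by
    rw [hPd, map_add, map_smul, LinearMap.add_apply, LinearMap.smul_apply, mformC_al_embC,
      mformC_embC, smul_zero, zero_add]
  have hqsg : qC X.q q' X.sg = mformC X.q Q (embC X.sg) := by
    rw [hQd, map_add, map_smul, LinearMap.add_apply, LinearMap.smul_apply, mformC_al_embC,
      mformC_embC, smul_zero, zero_add]
  have hpsg2 : qC X.q p X.sg = starRingEnd ℂ a * b - starRingEnd ℂ b * a := by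
    rw [hpsg, hP, map_sub, map_smul, map_smul, LinearMap.sub_apply, LinearMap.smul_apply,
      LinearMap.smul_apply, hemb', hemb', ← ha, ← hb, smul_eq_mul, smul_eq_mul]
  have hqsg2 : qC X.q q' X.sg = 0 := by
    rw [hqsg, hQ, map_sub, map_smul, map_smul, LinearMap.sub_apply, LinearMap.smul_apply,
      LinearMap.smul_apply, hemb', hemb', ← ha, ← hb, smul_eq_mul, smul_eq_mul]
    ring
  have hT3 : (q1 * (n * q)) • (1 : ℂ ⊗[ℚ] A) +
      clC X (qC X.q p X.sg • X.sg + q • q') = 0 := by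
    rw [← hT2, hqsg2]
    simp only [map_sub, map_add, map_smul]
    module
  obtain ⟨hq1, hq'⟩ := ty_indep X _ _ hT3
  have hn : (n : ℂ) ≠ 0 := by exact_mod_cast ty_n_ne X
  have hq1' : q1 = 0 := (mul_eq_zero.mp hq1).resolve_right (mul_ne_zero hn hq0)
  rw [hq1', zero_smul, zero_add] at hQd
  have hq'' : q' = (-(q⁻¹ * qC X.q p X.sg)) • X.sg := by
    have h1 : q • q' = (- qC X.q p X.sg) • X.sg := by
      rw [neg_smul]
      exact eq_neg_of_add_eq_zero_right hq'
    have h2 := congrArg (fun z => q⁻¹ • z) h1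
    simp only [smul_smul] at h2
    rw [inv_mul_cancel₀ hq0, one_smul] at h2
    rw [h2, mul_neg]
  -- the square of `Q`
  have hQQ : mformC X.q Q Q = -(2 * a * b * (mform X.q v w : ℂ)) := by
    rw [hQ]
    simp only [map_sub, map_smul, LinearMap.sub_apply, LinearMap.smul_apply, mformC_tmul,
      smul_eq_mul]
    rw [hv, hw, mform_symm X.q X.q_symm w v]
    push_cast
    ring
  have hQQ0 : mformC X.q Q Q = 0 := by
    rw [hQd, mformC_embC, hq'', map_smul, map_smul, LinearMap.smul_apply, X.sg_iso, smul_zero,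
      smul_zero]
  have hm : (mform X.q v w : ℂ) ≠ 0 := by exact_mod_cast hvw
  have hab : a * b = 0 := by
    rw [hQQ0] at hQQ
    have h1 : (a * b) * (mform X.q v w : ℂ) = 0 := by linear_combination (1/2 : ℂ) * hQQ
    exact (mul_eq_zero.mp h1).resolve_right hm
  have hconj : starRingEnd ℂ a * b - starRingEnd ℂ b * a = 0 := by
    rcases mul_eq_zero.mp hab with h | h
    · rw [h, map_zero]; ring
    · rw [h, map_zero]; ring
  have hQ0 : Q = 0 := by
    rw [hQd, hq'', hpsg2, hconj]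
    simp
  have h1 : mformC X.q Q (1 ⊗ₜ v) = 0 := by rw [hQ0, map_zero, LinearMap.zero_apply]
  have h2 : mformC X.q Q (1 ⊗ₜ w) = 0 := by rw [hQ0, map_zero, LinearMap.zero_apply]
  rw [hQ] at h1 h2
  simp only [map_sub, map_smul, LinearMap.sub_apply, LinearMap.smul_apply, mformC_tmul,
      smul_eq_mul] at h1 h2
  rw [hv, mform_symm X.q X.q_symm w v] at h1
  rw [hw] at h2
  push_cast at h1 h2
  have h3 : a * (mform X.q v w : ℂ) = 0 := by linear_combination h1
  have h4 : b * (mform X.q v w : ℂ) = 0 := by linear_combination -h2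
  exact ⟨(mul_eq_zero.mp h3).resolve_right hm, (mul_eq_zero.mp h4).resolve_right hm⟩

end

end Pool.Agent.HKO
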