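import Pool.Agent.HKO.Targets2

/-! The elements of degree `2` of the Lie algebra are cup products. -/

open scoped TensorProduct

namespace Pool.Agent.HKO

noncomputable section

namespace Wt_

variable {n : ℕ} {V A : Type*} [AddCommGroup V] [Module ℚ V] [Ring A] [Algebra ℚ A]

theorem cm_add (D a b : Module.End ℂ (ℂ ⊗[ℚ] A)) : cm D (a + b) = cm D a + cm D b := by
  simp only [cm, mul_add, add_mul]; abel

theorem cm_sub (D a b : Module.End ℂ (ℂ ⊗[ℚ] A)) : cm D (a - b) = cm D a - cm D b := by
  simp only [cm, mul_sub, sub_mul]; abel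

theorem cm_smul (D a : Module.End ℂ (ℂ ⊗[ℚ] A)) (c : ℂ) : cm D (c • a) = c • cm D a := by
  simp only [cm, mul_smul_comm, smul_mul_assoc, smul_sub]

theorem cm_zero (D : Module.End ℂ (ℂ ⊗[ℚ] A)) : cm D 0 = 0 := by
  simp only [cm, mul_zero, zero_mul, sub_zero]

theorem opC_tmul (F : V →ₗ[ℚ] Module.End ℚ A) (z : ℂ) (x : V) :
    opC F (z ⊗ₜ x) = z • (F x).baseChange ℂ := by
  simp [opC]

/-- the degree operator and a family of weight `w` -/
theorem cm_opC (D : Module.End ℂ (ℂ ⊗[ℚ] A)) (F : V →ₗ[ℚ] Module.End ℚ A) (w : ℂ)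
    (h : ∀ x, cm D ((F x).baseChange ℂ) = w • (F x).baseChange ℂ) (s : ℂ ⊗[ℚ] V) :
    cm D (opC F s) = w • opC F s := by
  induction s using TensorProduct.induction_on with
  | zero => simp only [map_zero, cm_zero, smul_zero]
  | tmul z x => rw [opC_tmul, cm_smul, h, smul_comm]
  | add x y hx hy => rw [map_add, cm_add, hx, hy, smul_add]

theorem aux (X : HKCohomology n V A) (a b c d : ℚ) (x y : V) :
    X.act ((-a) • al + b • be) (c • al + emb y + d • be) +
      X.act (a • al + emb x + b • be) ((-c) • al + d • be) =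
      X.act be (emb (b • y - d • x)) - X.act al (emb (a • y - c • x)) := by
  have h1 : X.act be al = - X.act al be := act_swap X _ _
  have h2 : X.act (emb x) al = - X.act al (emb x) := act_swap X _ _
  have h3 : X.act (emb x) be = - X.act be (emb x) := act_swap X _ _
  simp only [map_add, map_smul, map_sub, LinearMap.add_apply, LinearMap.smul_apply,
    X.act_self, h1, h2, h3]
  module

/-- the commutator of the degree operator with a generator -/
theorem rat_key (X : HKCohomology n V A) (u v : Mk V) :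
    X.act al be * X.act u v - X.act u v * X.act al be =
      X.cup (u.2.2 • v.2.1 - v.2.2 • u.2.1) - X.lam (u.1 • v.2.1 - v.1 • u.2.1) := by
  have hw : ∀ u : Mk V, wedge X.q al be u = (-u.1) • al + u.2.2 • be := by
    intro u
    rw [wedge_apply]
    simp [al, be]
  have hd : ∀ u : Mk V, u.1 • al + emb u.2.1 + u.2.2 • be = u := by
    intro u
    simp [al, be]
  have h := aux X u.1 u.2.2 v.1 v.2.2 u.2.1 v.2.1
  rw [hd, hd] at h
  rw [X.act_lie, hw, hw, cup_eq, lam_eq]
  exact h

theorem key (X : HKCohomology n V A) (m : Module.End ℂ (ℂ ⊗[ℚ] A)) (hm : m ∈ GG X) :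
    ∃ a b : ℂ ⊗[ℚ] V, cm (actC X al be) m = opC X.cup a - opC X.lam b := by
  induction hm using Submodule.span_induction with
  | mem m hm =>
    obtain ⟨u, v, rfl⟩ := hm
    refine ⟨1 ⊗ₜ (u.2.2 • v.2.1 - v.2.2 • u.2.1), 1 ⊗ₜ (u.1 • v.2.1 - v.1 • u.2.1), ?_⟩
    rw [opC_tmul, opC_tmul, one_smul, one_smul, ← LinearMap.baseChange_sub, ← rat_key,
      LinearMap.baseChange_sub, LinearMap.baseChange_mul, LinearMap.baseChange_mul]
    rfl
  | zero => exact ⟨0, 0, by rw [cm_zero, map_zero, map_zero, sub_zero]⟩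
  | add m m' _ _ h h' =>
    obtain ⟨a, b, h⟩ := h
    obtain ⟨a', b', h'⟩ := h'
    refine ⟨a + a', b + b', ?_⟩
    rw [cm_add, h, h', map_add, map_add]
    abel
  | smul c m _ h =>
    obtain ⟨a, b, h⟩ := h
    refine ⟨c • a, c • b, ?_⟩
    rw [cm_smul, h, map_smul, map_smul, smul_sub]

theorem cm_cup (X : HKCohomology n V A) (s : ℂ ⊗[ℚ] V) :
    cm (actC X al be) (opC X.cup s) = opC X.cup s := by
  have h := cm_opC (actC X al be) X.cup 1 (fun x => ?_) s
  · rw [h, one_smul]
  · have h1 := rat_key X be (emb x)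
    rw [← cup_eq] at h1
    rw [one_smul]
    calc cm (actC X al be) ((X.cup x).baseChange ℂ) =
        (X.act al be * X.cup x - X.cup x * X.act al be).baseChange ℂ := by
          rw [LinearMap.baseChange_sub, LinearMap.baseChange_mul, LinearMap.baseChange_mul]
          rfl
      _ = (X.cup x).baseChange ℂ := by
          rw [h1]
          congr 1
          simp [be]

theorem cm_lam (X : HKCohomology n V A) (s : ℂ ⊗[ℚ] V) :
    cm (actC X al be) (opC X.lam s) = - opC X.lam s := by
  have h := cm_opC (actC X al be) X.lam (-1) (fun x => ?_) s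
  · exact h.trans (neg_one_smul ℂ (opC X.lam s))
  · have h1 := rat_key X al (emb x)
    rw [← lam_eq] at h1
    refine Eq.trans ?_ (neg_one_smul ℂ ((X.lam x).baseChange ℂ)).symm
    calc cm (actC X al be) ((X.lam x).baseChange ℂ) =
        (X.act al be * X.lam x - X.lam x * X.act al be).baseChange ℂ := by
          rw [LinearMap.baseChange_sub, LinearMap.baseChange_mul, LinearMap.baseChange_mul]
          rfl
      _ = (- X.lam x).baseChange ℂ := by
          rw [h1]
          congr 1
          simp [al]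
      _ = _ := LinearMap.baseChange_neg _

end Wt_

theorem p_WT {n : ℕ} {V A : Type*} [AddCommGroup V] [Module ℚ V] [Ring A] [Algebra ℚ A]
    (X : HKCohomology n V A) : S_WT X := by
  intro m hm h
  obtain ⟨a, b, hab⟩ := Wt_.key X m hm
  have h1 : m = opC X.cup a - opC X.lam b := by rw [← hab, h]
  have h2 : cm (actC X al be) m = opC X.cup a + opC X.lam b := by
    rw [h1, Wt_.cm_sub, Wt_.cm_cup, Wt_.cm_lam, sub_neg_eq_add]
  rw [h] at h2
  refine ⟨a, ?_⟩
  have h3 : (2 : ℂ) • m = (2 : ℂ) • opC X.cup a := by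
    rw [two_smul, two_smul]
    nth_rw 1 [h1]
    rw [h2]
    abel
  exact smul_right_injective _ (two_ne_zero (α := ℂ)) h3

end

end Pool.Agent.HKO
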