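import Pool.Agent.HKO.Fin2
import Pool.Agent.HKO.Nil
import Pool.Agent.HKO.Stab
import Pool.Agent.HKO.Key
import Pool.Agent.HKO.Gam
import Pool.Agent.HKO.Gam2
import Pool.Agent.HKO.Star2
import Pool.Agent.HKO.Th1
import Pool.Agent.HKO.Th2
import Pool.Agent.HKO.Sl2a
import Pool.Agent.HKO.Sl2b
import Pool.Agent.HKO.GGphi
import Pool.Agent.HKO.Phi2
import Pool.Agent.HKO.HT
import Pool.Agent.HKO.Desc
import Pool.Agent.HKO.Type2
import Pool.Agent.HKO.Wt

/-! The theorem for the structure `HKCohomology`. -/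

open scoped TensorProduct

namespace Pool.Agent.HKO

noncomputable section

variable {n : ℕ} {V A V' A' : Type*} [AddCommGroup V] [Module ℚ V] [Ring A] [Algebra ℚ A]
  [AddCommGroup V'] [Module ℚ V'] [Ring A'] [Algebra ℚ A']

theorem final {X : HKCohomology n V A} {X' : HKCohomology n V' A'} (F : MukaiTransform X X') :
    ∃ T : A ≃ₐ[ℚ] A',
      (∀ i, (X.gr i).map (T.toLinearMap) = X'.gr i) ∧
      (∀ p q, (X.hodge p q).map (T.toLinearMap.baseChange ℂ) = X'.hodge p q) ∧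
      ∃ γ δ : Module.End ℚ A', γ ∈ lefAlg X' ∧ δ ∈ lefAlg X' ∧ γ * δ = 1 ∧ δ * γ = 1 ∧
        ∀ a, T a = γ (F.Φ a) := by
  have hS := p_STAR X
  have hS' := p_STAR X'
  have hTh := p_THETA F (p_TH1 F hS hS') (p_SL2 X') (p_VERB X')
  have hGG := p_GG F hS hS' hTh
  exact final_of F (p_NIL X') (p_STAB X') (p_KEY X') (p_WN X'.q) hS (p_HT F hS hS' hTh)
    (p_DESC X') (p_TYPE X') (p_GAM2 X') hGG (p_PHI2 F hGG) (p_WT X') (p_NSH X')

end

end Pool.Agent.HKO
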