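import Pool.Agent.HKO.Defs

/-! Targets for the proof (auxiliary statements). -/

open scoped TensorProduct

namespace Pool.Agent.HKO

noncomputable section

variable {n : ℕ} {V A V' A' : Type*} [AddCommGroup V] [Module ℚ V] [Ring A] [Algebra ℚ A]
  [AddCommGroup V'] [Module ℚ V'] [Ring A'] [Algebra ℚ A']

/-- Commutator. -/
def cm {R : Type*} [Ring R] (a b : R) : R := a * b - b * a

/-- The complexified action of `u ∧ v`. -/
def actC (X : HKCohomology n V A) (u v : Mk V) : Module.End ℂ (ℂ ⊗[ℚ] A) :=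
  (X.act u v).baseChange ℂ

/-- The space of all cup products `L_a`, `a ∈ H^*(X, ℂ)`. -/
def LL (A : Type*) [Ring A] [Algebra ℚ A] : Submodule ℂ (Module.End ℂ (ℂ ⊗[ℚ] A)) :=
  LinearMap.range (LinearMap.mul ℂ (ℂ ⊗[ℚ] A))

/-- The smallest subspace which contains all cup products and is stable under the commutators
with the Lefschetz dual operators. -/
def MM (X : HKCohomology n V A) : Submodule ℂ (Module.End ℂ (ℂ ⊗[ℚ] A)) :=
  sInf {N | LL A ≤ N ∧ ∀ y : V, ∀ m ∈ N, cm (actC X al (emb y)) m ∈ N}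

/-- T_AD (in file Ad): conjugation by the exponential of a nilpotent element preserves an
`ad`-stable submodule. -/
def T_AD (W : Type*) [AddCommGroup W] [Module ℚ W] [Module ℂ W] [IsScalarTower ℚ ℂ W] : Prop :=
  ∀ (N : Submodule ℂ (Module.End ℂ W)) (a : Module.End ℂ W),
  IsNilpotent a → (∀ m ∈ N, cm a m ∈ N) →
  ∀ m ∈ N, IsNilpotent.exp a * m * IsNilpotent.exp (-a) ∈ N

/-- T_CONJ (in file Ad): exponentials of the action. -/
def T_CONJ (X : HKCohomology n V A) : Prop :=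
  ∀ u v z t : Mk V, IsNilpotent (X.act u v) → IsNilpotent (wedge X.q u v) →
  IsNilpotent.exp (X.act u v) * X.act z t =
    X.act (IsNilpotent.exp (wedge X.q u v) z) (IsNilpotent.exp (wedge X.q u v) t) *
      IsNilpotent.exp (X.act u v)

/-- T_NIL (file Nil): nilpotency. -/
def T_NIL (X : HKCohomology n V A) : Prop :=
  (∀ x, IsNilpotent (X.cup x)) ∧ (∀ y, IsNilpotent (X.lam y)) ∧
    IsNilpotent X.cupSg ∧ IsNilpotent X.lamSg

/-- T_STAB (file Stab): `MM` is stable under the whole Lie algebra. -/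
def T_STAB (X : HKCohomology n V A) : Prop :=
  (∀ u v : Mk V, ∀ m ∈ MM X, cm (actC X u v) m ∈ MM X) ∧
  (∀ m ∈ MM X, cm X.cupSg m ∈ MM X) ∧ (∀ m ∈ MM X, cm X.lamSg m ∈ MM X)

/-- T_KEY (file Key): inside `MM`, the operators which commute with `H²` are cup products. -/
def T_KEY (X : HKCohomology n V A) : Prop :=
  ∀ m ∈ MM X, (∀ x : V, cm ((X.cup x).baseChange ℂ) m = 0) → m ∈ LL A

/-- T_PHI (file Phi): the Mukai vector transform maps cup products into `MM`. -/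
def T_PHI {X : HKCohomology n V A} {X' : HKCohomology n V' A'} (F : FourierMukai X X') : Prop :=
  ∀ a : ℂ ⊗[ℚ] A, ∃ m ∈ MM X', ∀ c : ℂ ⊗[ℚ] A,
    (F.Φ : A →ₗ[ℚ] A').baseChange ℂ (a * c) = m ((F.Φ : A →ₗ[ℚ] A').baseChange ℂ c)

/-- The transvection-type elements of the group of the Mukai form. -/
def gam (q : V →ₗ[ℚ] V →ₗ[ℚ] ℚ) (y₁ x y₂ : V) : Module.End ℚ (Mk V) :=
  IsNilpotent.exp (wedge q al (emb y₂)) * IsNilpotent.exp (wedge q be (emb x)) *
    IsNilpotent.exp (wedge q al (emb y₁))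

/-- T_WN (file Gam): the elements `α ∧ y`, `β ∧ y` are nilpotent on the Mukai space. -/
def T_WN (q : V →ₗ[ℚ] V →ₗ[ℚ] ℚ) : Prop :=
  ∀ y : V, (wedge q al (emb y)) ^ 3 = 0 ∧ (wedge q be (emb y)) ^ 3 = 0

/-- T_GAM (file Gam): the images of `α`, `β` can be moved to the lines of `α`, `β`. -/
def T_GAM {X : HKCohomology n V A} {X' : HKCohomology n V' A'} (F : FourierMukai X X') : Prop :=
  ∃ y₁ ∈ X'.NS, ∃ x ∈ X'.NS, ∃ y₂ ∈ X'.NS, ∃ r b : ℚ, r ≠ 0 ∧ b ≠ 0 ∧
    gam X'.q y₁ x y₂ (F.φ al) = r • al ∧ gam X'.q y₁ x y₂ (F.φ be) = b • be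

end

end Pool.Agent.HKO
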