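import Pool.Agent.HKO.Cx

/-! Second set of targets: the theorem with minimal hypotheses on the transform. -/

open scoped TensorProduct

namespace Pool.Agent.HKO

noncomputable section

/-- A Mukai transform between two sets of data: a rational linear isomorphism whose
complexification commutes with the Hodge operators (it preserves the columns `p - q = const`)
and carries contractions with polyvector fields to contractions with polyvector fields. -/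
structure MukaiTransform {n : ℕ} {V A V' A' : Type*} [AddCommGroup V] [Module ℚ V] [Ring A]
    [Algebra ℚ A] [AddCommGroup V'] [Module ℚ V'] [Ring A'] [Algebra ℚ A']
    (X : HKCohomology n V A) (X' : HKCohomology n V' A') where
  Φ : A ≃ₗ[ℚ] A'
  hodge : ∀ a : ℂ ⊗[ℚ] A, (Φ : A →ₗ[ℚ] A').baseChange ℂ (X.hodgeOp a) =
    X'.hodgeOp ((Φ : A →ₗ[ℚ] A').baseChange ℂ a)
  contraction : ∀ a : ℂ ⊗[ℚ] A, ∃ b : ℂ ⊗[ℚ] A', ∀ c : ℂ ⊗[ℚ] A,
    (Φ : A →ₗ[ℚ] A').baseChange ℂ (X.contr a c) =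
      X'.contr b ((Φ : A →ₗ[ℚ] A').baseChange ℂ c)

variable {n : ℕ} {V A V' A' : Type*} [AddCommGroup V] [Module ℚ V] [Ring A] [Algebra ℚ A]
  [AddCommGroup V'] [Module ℚ V'] [Ring A'] [Algebra ℚ A']

/-- Complexified transform. -/
def phC {X : HKCohomology n V A} {X' : HKCohomology n V' A'} (F : MukaiTransform X X') :
    (ℂ ⊗[ℚ] A) →ₗ[ℂ] (ℂ ⊗[ℚ] A') := (F.Φ : A →ₗ[ℚ] A').baseChange ℂ

/-- Inverse of the complexified transform. -/
def phI {X : HKCohomology n V A} {X' : HKCohomology n V' A'} (F : MukaiTransform X X') :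
    (ℂ ⊗[ℚ] A') →ₗ[ℂ] (ℂ ⊗[ℚ] A) := (F.Φ.symm : A' →ₗ[ℚ] A).baseChange ℂ

/-- The transform conjugated with the star operators. -/
def tht {X : HKCohomology n V A} {X' : HKCohomology n V' A'} (F : MukaiTransform X X') :
    (ℂ ⊗[ℚ] A) →ₗ[ℂ] (ℂ ⊗[ℚ] A') := X'.starInv ∘ₗ phC F ∘ₗ X.star

/-- Its inverse. -/
def thtI {X : HKCohomology n V A} {X' : HKCohomology n V' A'} (F : MukaiTransform X X') :
    (ℂ ⊗[ℚ] A') →ₗ[ℂ] (ℂ ⊗[ℚ] A) := X.starInv ∘ₗ phI F ∘ₗ X'.star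

/-- The complexified Lie algebra inside `End (ℂ ⊗ A)`. -/
def GG (X : HKCohomology n V A) : Submodule ℂ (Module.End ℂ (ℂ ⊗[ℚ] A)) :=
  Submodule.span ℂ {m | ∃ u v : Mk V, m = actC X u v}

/-- S_STAR (file Star2; use p_NIL, conjC). -/
def S_STAR (X : HKCohomology n V A) : Prop :=
  X.star * X.starInv = 1 ∧ X.starInv * X.star = 1 ∧
  X.starInv * actC X al be * X.star = - X.hodgeOp ∧
  X.star * actC X al be * X.starInv = - X.hodgeOp ∧
  X.hodgeOp = (qC X.q X.sg (conjV V X.sg))⁻¹ • actCC X (embC X.sg) (embC (conjV V X.sg)) ∧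
  ∃ st : Module.End ℂ (ℂ ⊗[ℚ] Mk V),
    (∀ z t, X.star * actCC X z t * X.starInv = actCC X (st z) (st t)) ∧
    (∀ z t, mformC X.q (st z) (st t) = mformC X.q z t)

/-- S_TH1 (file Th1; uses S_STAR as hypothesis): first properties of `tht`. -/
def S_TH1 {X : HKCohomology n V A} {X' : HKCohomology n V' A'} (F : MukaiTransform X X') :
    Prop :=
  (∀ c, thtI F (tht F c) = c) ∧ (∀ c, tht F (thtI F c) = c) ∧
  (∀ c, tht F (actC X al be c) = actC X' al be (tht F c)) ∧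
  ∃ k : ℂ, k ≠ 0 ∧ tht F 1 = k • 1 ∧ (∀ a b, tht F (a * b) = k⁻¹ • (tht F a * tht F b)) ∧
    ∃ ψ : (ℂ ⊗[ℚ] V) ≃ₗ[ℂ] (ℂ ⊗[ℚ] V'),
      (∀ s, tht F (X.cls.baseChange ℂ s) = k • X'.cls.baseChange ℂ (ψ s)) ∧
      (∀ s c, tht F (opC X.cup s c) = opC X'.cup (ψ s) (tht F c))

/-- S_SL2 (file Sl2a): an operator of degree `-2` which commutes with the cup product with a
non-isotropic class is zero. -/
def S_SL2 (X : HKCohomology n V A) : Prop :=
  ∀ (s : ℂ ⊗[ℚ] V) (G : Module.End ℂ (ℂ ⊗[ℚ] A)), qC X.q s s ≠ 0 →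
    cm (actC X al be) G = - G → cm (opC X.cup s) G = 0 → G = 0

/-- S_VERB (file Sl2b): the cup product with an isotropic class is not part of an `sl₂`-triple
with the degree operator. -/
def S_VERB (X : HKCohomology n V A) : Prop :=
  ∀ (s : ℂ ⊗[ℚ] V) (G : Module.End ℂ (ℂ ⊗[ℚ] A)), qC X.q s s = 0 →
    cm (actC X al be) G = - G → cm (opC X.cup s) G ≠ actC X al be

/-- S_THETA (file Th2; from S_TH1, S_SL2, S_VERB): the Lie algebras correspond under `tht`. -/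
def S_THETA {X : HKCohomology n V A} {X' : HKCohomology n V' A'} (F : MukaiTransform X X') :
    Prop :=
  (∀ c, thtI F (tht F c) = c) ∧ (∀ c, tht F (thtI F c) = c) ∧
  (∀ c, tht F (actC X al be c) = actC X' al be (tht F c)) ∧
  ∃ (ψ : (ℂ ⊗[ℚ] V) ≃ₗ[ℂ] (ℂ ⊗[ℚ] V')) (ν : ℂ), ν ≠ 0 ∧
    (∀ s c, tht F (opC X.cup s c) = opC X'.cup (ψ s) (tht F c)) ∧
    (∀ s c, tht F (opC X.lam s c) = ν⁻¹ • opC X'.lam (ψ s) (tht F c)) ∧
    (∀ s t, qC X'.q (ψ s) (ψ t) = ν * qC X.q s t)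

/-- S_GG (file GGphi; from S_THETA, S_STAR): the transform maps the Lie algebra to the Lie
algebra. -/
def S_GG {X : HKCohomology n V A} {X' : HKCohomology n V' A'} (F : MukaiTransform X X') :
    Prop :=
  ∀ m ∈ GG X, phC F ∘ₗ m ∘ₗ phI F ∈ GG X'

/-- S_HT (file HT; from S_THETA, S_STAR): the image of the degree operator. -/
def S_HT {X : HKCohomology n V A} {X' : HKCohomology n V' A'} (F : MukaiTransform X X') :
    Prop :=
  ∃ v w : ℂ ⊗[ℚ] Mk V', mformC X'.q v v = 0 ∧ mformC X'.q w w = 0 ∧ mformC X'.q v w ≠ 0 ∧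
    ∀ c, phC F (actC X al be c) = (-(mformC X'.q v w)⁻¹) • actCC X' v w (phC F c)

/-- S_DESC (file Desc): descent of the degree-type operator to the rational numbers. -/
def S_DESC (X : HKCohomology n V A) : Prop :=
  ∀ (H : Module.End ℚ A) (v w : ℂ ⊗[ℚ] Mk V), mformC X.q v v = 0 → mformC X.q w w = 0 →
    mformC X.q v w ≠ 0 → H.baseChange ℂ = (-(mformC X.q v w)⁻¹) • actCC X v w →
    ∃ v' w' : Mk V, mform X.q v' v' = 0 ∧ mform X.q w' w' = 0 ∧ mform X.q v' w' ≠ 0 ∧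
      H = (-(mform X.q v' w')⁻¹) • X.act v' w'

/-- S_TYPE (file Type2): the vectors are of Hodge type. -/
def S_TYPE (X : HKCohomology n V A) : Prop :=
  ∀ v w : Mk V, mform X.q v v = 0 → mform X.q w w = 0 → mform X.q v w ≠ 0 →
    cm X.hodgeOp (actC X v w) = 0 → v.2.1 ∈ X.NS ∧ w.2.1 ∈ X.NS

/-- S_GAM (file Gam2): moving a pair of isotropic vectors. -/
def S_GAM (X : HKCohomology n V A) : Prop :=
  ∀ v w : Mk V, mform X.q v v = 0 → mform X.q w w = 0 → mform X.q v w ≠ 0 →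
    v.2.1 ∈ X.NS → w.2.1 ∈ X.NS →
    ∃ y₁ ∈ X.NS, ∃ x ∈ X.NS, ∃ y₂ ∈ X.NS, ∃ r b : ℚ, r ≠ 0 ∧ b ≠ 0 ∧
      gam X.q y₁ x y₂ v = r • al ∧ gam X.q y₁ x y₂ w = b • be

/-- S_PHI (file Phi2; from S_GG, p_STAB, p_NIL): cup products are mapped into `MM`. -/
def S_PHI {X : HKCohomology n V A} {X' : HKCohomology n V' A'} (F : MukaiTransform X X') :
    Prop :=
  ∀ a : ℂ ⊗[ℚ] A, ∃ m ∈ MM X', ∀ c : ℂ ⊗[ℚ] A, phC F (a * c) = m (phC F c)

/-- S_WT (file Wt): the elements of degree `2` of the Lie algebra are cup products. -/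
def S_WT (X : HKCohomology n V A) : Prop :=
  ∀ m ∈ GG X, cm (actC X al be) m = m → ∃ s : ℂ ⊗[ℚ] V, m = opC X.cup s

/-- S_NSH (file Type2): the operators of Néron–Severi classes commute with the Hodge
operator. -/
def S_NSH (X : HKCohomology n V A) : Prop :=
  ∀ y ∈ X.NS, cm X.hodgeOp ((X.lam y).baseChange ℂ) = 0 ∧
    cm X.hodgeOp ((X.cup y).baseChange ℂ) = 0

end

end Pool.Agent.HKO
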